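import Pool.Agent.Helper89.MM.Final

/-!
# The mean of the logarithmic derivative
-/

set_option autoImplicit false
set_option linter.unusedSectionVars false

namespace Pool.Agent.Helper89.MM

open NumberField IsDedekindDomain Complex Filter Topology
open Pool.Agent.H921R2.TatePole (nm two_le_nm nm_summable nm_ne_zero)

variable {K : Type} [Field K] [NumberField K] {J : Type} [Fintype J] [DecidableEq J]
  {I : Type} [Fintype I] [DecidableEq I] (ω : Module.Basis I ℤ (𝓞 K))

attribute [local instance] fintypeV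

/-- **The mean of a series of local functions.** -/
theorem mean_tsum (g : ∀ v : HeightOneSpectrum (𝓞 K), (J → 𝓞 K ⧸ v.asIdeal) → ℂ)
    {u : HeightOneSpectrum (𝓞 K) → ℝ} (hu : Summable u) (hg : ∀ v b, ‖g v b‖ ≤ u v) :
    Tendsto (mean fun x : J × I → ℤ => ∑' v, g v (redJ v (pt ω x))) atTop
      (𝓝 (∑' v, (∑ b, g v b) / Fintype.card (J → 𝓞 K ⧸ v.asIdeal))) := by
  have hb : ∀ v, ‖(∑ b, g v b) / Fintype.card (J → 𝓞 K ⧸ v.asIdeal)‖ ≤ u v := by
    intro v
    have hcard : (0 : ℝ) < Fintype.card (J → 𝓞 K ⧸ v.asIdeal) := by exact_mod_cast Fintype.card_pos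
    rw [norm_div, Complex.norm_natCast, div_le_iff₀ hcard]
    calc _ ≤ ∑ _b : J → 𝓞 K ⧸ v.asIdeal, u v := norm_sum_le_of_le _ fun b _ => hg v b
      _ = _ := by rw [Finset.sum_const, Finset.card_univ, nsmul_eq_mul, mul_comm]
  have hsum : Summable fun v => (∑ b, g v b) / Fintype.card (J → 𝓞 K ⧸ v.asIdeal) :=
    Summable.of_norm_bounded hu hb
  refine mean_lim (l := (atTop : Filter (Finset (HeightOneSpectrum (𝓞 K)))))
    (FS := fun S x => ∑ v ∈ S, g v (redJ v (pt ω x)))
    (m := fun S => ∑ v ∈ S, (∑ b, g v b) / Fintype.card (J → 𝓞 K ⧸ v.asIdeal)) ?_ ?_ hsum.hasSum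
  · intro S
    have h1 : (mean fun x : J × I → ℤ => ∑ v ∈ S, g v (redJ v (pt ω x))) =
        fun H => ∑ v ∈ S, mean (fun x => g v (redJ v (pt ω x))) H := by
      funext H
      exact mean_sum S (fun v x => g v (redJ v (pt ω x))) H
    rw [h1]
    refine tendsto_finsetSum _ fun v _ => ?_
    exact mean_tendsto (A := J → 𝓞 K ⧸ v.asIdeal) ((redJ v).comp (pt ω)) (red_surj_one ω v) (g v)
  · intro ε hε
    have h1 := tendstoUniformly_tsum hu
      (f := fun (v : HeightOneSpectrum (𝓞 K)) (x : J × I → ℤ) => g v (redJ v (pt ω x)))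
      (fun v x => hg v _)
    rw [Metric.tendstoUniformly_iff] at h1
    filter_upwards [h1 ε hε] with S hS x
    have := hS x
    rw [dist_comm, dist_eq_norm] at this
    exact this.le

namespace Fam

variable (F : Fam K J)

/-- the logarithm of a local factor -/
noncomputable def lg (v : HeightOneSpectrum (𝓞 K)) (b : J → 𝓞 K ⧸ v.asIdeal) (s : ℂ) : ℂ :=
  -Complex.log (1 - F.zz v b s)

theorem lg_diff (v : HeightOneSpectrum (𝓞 K)) (b : J → 𝓞 K ⧸ v.asIdeal) {s : ℂ} (hs : 1 / 2 < s.re) :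
    DifferentiableAt ℂ (F.lg v b) s := by
  unfold lg
  exact (((differentiableAt_const _).sub (F.diff_zz v b s)).clog (F.one_sub_zz v b hs)).neg

theorem lg_le (v : HeightOneSpectrum (𝓞 K)) (b : J → 𝓞 K ⧸ v.asIdeal) {s : ℂ} {σ : ℝ}
    (hσ : 3 / 2 < σ) (hs : σ ≤ s.re) : ‖F.lg v b s‖ ≤ 4 * (nm v : ℝ) ^ (-(σ - 1 / 2)) := by
  obtain ⟨x, hx⟩ := red_surj_one (J := J) (RingOfIntegers.basis K) v b
  have h1 := F.lgx_le (pt (RingOfIntegers.basis K) x) v (s := s) (by linarith)
  unfold lgx zx at h1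
  have hx' : redJ v (pt (RingOfIntegers.basis K) x) = b := hx
  rw [hx'] at h1
  refine h1.trans ?_
  have hq : (1 : ℝ) ≤ nm v := by exact_mod_cast (by have := two_le_nm v; omega : 1 ≤ nm v)
  gcongr 4 * ?_
  exact Real.rpow_le_rpow_of_exponent_le hq (by linarith)

theorem lg_sum {σ : ℝ} (hσ : 3 / 2 < σ) :
    Summable fun v : HeightOneSpectrum (𝓞 K) => 4 * (nm v : ℝ) ^ (-(σ - 1 / 2)) :=
  (nm_summable (by linarith)).mul_left 4

theorem deriv_lg_le (v : HeightOneSpectrum (𝓞 K)) (b : J → 𝓞 K ⧸ v.asIdeal) {s : ℂ} {σ : ℝ}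
    (hσ : 3 / 2 < σ) (hs : σ < s.re) :
    ‖deriv (F.lg v b) s‖ ≤ 4 * (nm v : ℝ) ^ (-(σ - 1 / 2)) / (s.re - σ) := by
  have hcl : ∀ z ∈ Metric.closedBall s (s.re - σ), σ ≤ z.re := by
    intro z hz
    rw [Metric.mem_closedBall, dist_eq_norm] at hz
    have h1 := (Complex.abs_re_le_norm (z - s)).trans hz
    rw [Complex.sub_re] at h1
    have := (abs_le.mp h1).1
    linarith
  refine Complex.norm_deriv_le_of_forall_mem_sphere_norm_le (by linarith) ?_ fun z hz => ?_
  · refine DifferentiableOn.diffContOnCl fun z hz => ?_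
    have hz' : σ ≤ z.re := hcl z (Metric.closure_ball_subset_closedBall hz)
    exact (F.lg_diff v b (by linarith)).differentiableWithinAt
  · exact F.lg_le v b hσ (hcl z (Metric.sphere_subset_closedBall hz))

theorem logL_eq (a : J → 𝓞 K) (s : ℂ) : F.logL a s = ∑' v, F.lg v (redJ v a) s := rfl

theorem logL_hasSum_deriv (a : J → 𝓞 K) {s : ℂ} (hs : 3 / 2 < s.re) :
    HasSum (fun v => deriv (F.lg v (redJ v a)) s) (deriv (F.logL a) s) := by
  have hσ : 3 / 2 < (3 / 2 + s.re) / 2 := by linarith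
  refine hasSum_deriv_of_summable_norm (U := {z : ℂ | (3 / 2 + s.re) / 2 < z.re}) (lg_sum hσ)
    (fun v z hz => ?_) (isOpen_re _) (fun v z hz => ?_) (show (3 / 2 + s.re) / 2 < s.re by linarith)
  · have hz' : (3 / 2 + s.re) / 2 < z.re := hz
    exact (F.lg_diff v _ (by linarith)).differentiableWithinAt
  · have hz' : (3 / 2 + s.re) / 2 < z.re := hz
    exact F.lg_le v _ hσ hz'.le

theorem logL_diff (a : J → 𝓞 K) {s : ℂ} (hs : 3 / 2 < s.re) : DifferentiableAt ℂ (F.logL a) s := by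
  have hσ : 3 / 2 < (3 / 2 + s.re) / 2 := by linarith
  have h1 := differentiableOn_tsum_of_summable_norm (U := {z : ℂ | (3 / 2 + s.re) / 2 < z.re})
    (F := fun v => F.lg v (redJ v a)) (lg_sum hσ)
    (fun v z hz => by
      have hz' : (3 / 2 + s.re) / 2 < z.re := hz
      exact (F.lg_diff v _ (by linarith)).differentiableWithinAt) (isOpen_re _)
    (fun v z hz => by
      have hz' : (3 / 2 + s.re) / 2 < z.re := hz
      exact F.lg_le v _ hσ hz'.le)
  exact h1.differentiableAt ((isOpen_re _).mem_nhds (show (3 / 2 + s.re) / 2 < s.re by linarith))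

theorem logDeriv_L (a : J → 𝓞 K) {s : ℂ} (hs : 3 / 2 < s.re) :
    logDeriv (F.L a) s = ∑' v, deriv (F.lg v (redJ v a)) s := by
  have h1 : F.L a =ᶠ[𝓝 s] fun z => cexp (F.logL a z) := by
    filter_upwards [(isOpen_re (3 / 2)).mem_nhds hs] with z hz
    exact F.L_eq a hz
  rw [(logDeriv_congr_nhds h1).eq_of_nhds, (F.logL_hasSum_deriv a hs).tsum_eq, logDeriv_apply,
    deriv_cexp (F.logL_diff a hs)]
  field_simp

/-- the mean of the logarithm of the local factor -/
noncomputable def avl (v : HeightOneSpectrum (𝓞 K)) (s : ℂ) : ℂ := F.avg (fun z => -Complex.log (1 - z)) v s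

theorem avl_eq (v : HeightOneSpectrum (𝓞 K)) :
    F.avl v = fun s => (∑ b, F.lg v b s) / Fintype.card (J → 𝓞 K ⧸ v.asIdeal) := rfl

theorem avl_diff (v : HeightOneSpectrum (𝓞 K)) {s : ℂ} (hs : 1 / 2 < s.re) :
    DifferentiableAt ℂ (F.avl v) s := by
  rw [avl_eq]
  exact (DifferentiableAt.fun_sum fun b _ => F.lg_diff v b hs).div_const _

theorem avl_deriv (v : HeightOneSpectrum (𝓞 K)) {s : ℂ} (hs : 1 / 2 < s.re) :
    deriv (F.avl v) s = (∑ b, deriv (F.lg v b) s) / Fintype.card (J → 𝓞 K ⧸ v.asIdeal) := by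
  rw [avl_eq, deriv_div_const, deriv_fun_sum fun b _ => F.lg_diff v b hs]

theorem avl_le (v : HeightOneSpectrum (𝓞 K)) {s : ℂ} {σ : ℝ} (hσ : 3 / 2 < σ) (hs : σ ≤ s.re) :
    ‖F.avl v s‖ ≤ 4 * (nm v : ℝ) ^ (-(σ - 1 / 2)) := by
  have hcard : (0 : ℝ) < Fintype.card (J → 𝓞 K ⧸ v.asIdeal) := by exact_mod_cast Fintype.card_pos
  rw [avl_eq]
  simp only
  rw [norm_div, Complex.norm_natCast, div_le_iff₀ hcard]
  calc _ ≤ ∑ _b : J → 𝓞 K ⧸ v.asIdeal, 4 * (nm v : ℝ) ^ (-(σ - 1 / 2)) :=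
        norm_sum_le_of_le _ fun b _ => F.lg_le v b hσ hs
    _ = _ := by rw [Finset.sum_const, Finset.card_univ, nsmul_eq_mul, mul_comm]

theorem avl_hasSum_deriv {s : ℂ} (hs : 3 / 2 < s.re) :
    HasSum (fun v => deriv (F.avl v) s) (deriv (fun z => ∑' v, F.avl v z) s) := by
  have hσ : 3 / 2 < (3 / 2 + s.re) / 2 := by linarith
  refine hasSum_deriv_of_summable_norm (U := {z : ℂ | (3 / 2 + s.re) / 2 < z.re}) (lg_sum hσ)
    (fun v z hz => ?_) (isOpen_re _) (fun v z hz => ?_) (show (3 / 2 + s.re) / 2 < s.re by linarith)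
  · have hz' : (3 / 2 + s.re) / 2 < z.re := hz
    exact (F.avl_diff v (by linarith)).differentiableWithinAt
  · have hz' : (3 / 2 + s.re) / 2 < z.re := hz
    exact F.avl_le v hσ hz'.le

theorem avl_tsum_diff {s : ℂ} (hs : 3 / 2 < s.re) :
    DifferentiableAt ℂ (fun z => ∑' v, F.avl v z) s := by
  have hσ : 3 / 2 < (3 / 2 + s.re) / 2 := by linarith
  have h1 := differentiableOn_tsum_of_summable_norm (U := {z : ℂ | (3 / 2 + s.re) / 2 < z.re})
    (F := F.avl) (lg_sum hσ)
    (fun v z hz => by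
      have hz' : (3 / 2 + s.re) / 2 < z.re := hz
      exact (F.avl_diff v (by linarith)).differentiableWithinAt) (isOpen_re _)
    (fun v z hz => by
      have hz' : (3 / 2 + s.re) / 2 < z.re := hz
      exact F.avl_le v hσ hz'.le)
  exact h1.differentiableAt ((isOpen_re _).mem_nhds (show (3 / 2 + s.re) / 2 < s.re by linarith))

/-- **The mean of the logarithmic derivative.** -/
theorem mean_der {s : ℂ} (hs : 3 / 2 < s.re) :
    Tendsto (mean fun x : J × I → ℤ => logDeriv (F.L (pt ω x)) s) atTop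
      (𝓝 (deriv (fun z => ∑' v, F.avl v z) s)) := by
  have hσ : 3 / 2 < (3 / 2 + s.re) / 2 := by linarith
  have h1 := mean_tsum ω (J := J) (fun v b => deriv (F.lg v b) s)
    ((lg_sum hσ).div_const (s.re - (3 / 2 + s.re) / 2))
    (fun v b => F.deriv_lg_le v b hσ (by linarith))
  rw [← (F.avl_hasSum_deriv hs).tsum_eq]
  have e1 : (∑' v, deriv (F.avl v) s) =
      ∑' v, (∑ b, deriv (F.lg v b) s) / Fintype.card (J → 𝓞 K ⧸ v.asIdeal) :=
    tsum_congr fun v => F.avl_deriv v (by linarith)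
  rw [e1]
  refine h1.congr fun H => ?_
  unfold mean
  congr 1
  refine Finset.sum_congr rfl fun x _ => ?_
  exact (F.logDeriv_L (pt ω x) hs).symm

/-- the derivatives are bounded -/
theorem der_bdd {s : ℂ} (hs : 3 / 2 < s.re) : ∃ B : ℝ, ∀ a : J → 𝓞 K, ‖logDeriv (F.L a) s‖ ≤ B := by
  have hσ : 3 / 2 < (3 / 2 + s.re) / 2 := by linarith
  refine ⟨∑' v : HeightOneSpectrum (𝓞 K),
    4 * (nm v : ℝ) ^ (-((3 / 2 + s.re) / 2 - 1 / 2)) / (s.re - (3 / 2 + s.re) / 2), fun a => ?_⟩
  rw [F.logDeriv_L a hs]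
  exact tsum_of_norm_bounded ((lg_sum hσ).div_const (s.re - (3 / 2 + s.re) / 2)).hasSum
    fun v => F.deriv_lg_le v _ hσ (by linarith)

end Fam

theorem zeta_diff (K : Type) [Field K] [NumberField K] {s : ℂ} (hs : 1 < s.re) :
    DifferentiableAt ℂ (dedekindZeta K) s := by
  obtain ⟨H, hH, -, hHz⟩ := zeta_cont K
  have h1 : dedekindZeta K =ᶠ[𝓝 s] fun z => H z / (z - 1) := by
    filter_upwards [(isOpen_re 1).mem_nhds hs] with z hz
    exact hHz z hz
  rw [h1.differentiableAt_iff]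
  refine (hH.differentiableAt ((isOpen_re 0).mem_nhds (show 0 < s.re by linarith))).div
    (by fun_prop) ?_
  intro h0
  rw [sub_eq_zero] at h0
  rw [h0, Complex.one_re] at hs
  exact lt_irrefl _ hs

namespace Fam

variable (F : Fam K J)

/-- **The mean of the logarithmic derivative, in terms of the zeta function.** -/
theorem der_zeta : ∃ h : ℂ → ℂ, DifferentiableOn ℂ h UU ∧ ∀ s : ℂ, 3 / 2 < s.re →
    deriv (fun z => ∑' v, F.avl v z) s =
      h s - F.r * logDeriv (dedekindZeta K) s - logDeriv (dedekindZeta K) (2 * s - 1) := by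
  obtain ⟨G, hG, hG0, hprod⟩ := F.logs_ne
  have hU : IsOpen UU := isOpen_re _
  refine ⟨fun s => logDeriv G s / 2, ?_, fun s hs => ?_⟩
  · intro s hs
    have h1 : DifferentiableAt ℂ G s := hG.differentiableAt (hU.mem_nhds hs)
    have h2 : DifferentiableAt ℂ (deriv G) s := (hG.deriv hU).differentiableAt (hU.mem_nhds hs)
    have h3 : DifferentiableAt ℂ (fun s => logDeriv G s) s := h2.div h1 (hG0 s hs)
    exact (h3.div_const 2).differentiableWithinAt
  · have hsU : s ∈ UU := show (5 : ℝ) / 6 < s.re by linarith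
    have hs1 : 1 < s.re := by linarith
    have hs2 : 1 < (2 * s - 1).re := by simp; linarith
    have h1 : (fun z => cexp (2 * ∑' v, F.avl v z)) =ᶠ[𝓝 s] fun z =>
        G z * dedekindZeta K z ^ (-(2 * F.r) : ℤ) * dedekindZeta K (2 * z - 1) ^ (-1 : ℤ) := by
      filter_upwards [(isOpen_re (3 / 2)).mem_nhds hs] with z hz
      have hz' : 3 / 2 < z.re := hz
      obtain ⟨Λ, -, h2, h3⟩ := F.mean_log (J := J) (RingOfIntegers.basis K) hz'
      have h4 : (∑' v, F.avl v z) = Λ := h2.symm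
      rw [h4]
      exact HasProd.unique h3 (hprod z (by linarith))
    have h2 := (logDeriv_congr_nhds h1).eq_of_nhds
    have d1 : DifferentiableAt ℂ (dedekindZeta K) s := zeta_diff K hs1
    have d2 : DifferentiableAt ℂ (dedekindZeta K) (2 * s - 1) := zeta_diff K hs2
    have dl : DifferentiableAt ℂ (fun z : ℂ => 2 * z - 1) s := by fun_prop
    have d3 : DifferentiableAt ℂ (fun z => dedekindZeta K (2 * z - 1)) s :=
      DifferentiableAt.fun_comp' (g := dedekindZeta K) s d2 dl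
    have n1 := zeta_ne K hs1
    have n2 := zeta_ne K hs2
    have dG : DifferentiableAt ℂ G s := hG.differentiableAt (hU.mem_nhds hsU)
    have e1 : logDeriv (fun z => cexp (2 * ∑' v, F.avl v z)) s = 2 * deriv (fun z => ∑' v, F.avl v z) s := by
      have h3 : DifferentiableAt ℂ (fun z => 2 * ∑' v, F.avl v z) s := (F.avl_tsum_diff hs).const_mul 2
      rw [logDeriv_apply, deriv_cexp h3, deriv_const_mul _ (F.avl_tsum_diff hs)]
      field_simp
    have e2 : logDeriv (fun z => G z * dedekindZeta K z ^ (-(2 * F.r) : ℤ) *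
        dedekindZeta K (2 * z - 1) ^ (-1 : ℤ)) s = logDeriv G s +
          (-(2 * F.r) : ℤ) * logDeriv (dedekindZeta K) s +
          (-1 : ℤ) * (2 * logDeriv (dedekindZeta K) (2 * s - 1)) := by
      rw [logDeriv_mul (f := fun z => G z * dedekindZeta K z ^ (-(2 * F.r) : ℤ))
        (g := fun z => dedekindZeta K (2 * z - 1) ^ (-1 : ℤ)) s
        (mul_ne_zero (hG0 s hsU) (zpow_ne_zero _ n1)) (zpow_ne_zero _ n2)
        (dG.mul (d1.zpow (Or.inl n1))) (d3.zpow (Or.inl n2)),
        logDeriv_mul (f := G) (g := fun z => dedekindZeta K z ^ (-(2 * F.r) : ℤ)) s (hG0 s hsU)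
        (zpow_ne_zero _ n1) dG (d1.zpow (Or.inl n1)),
        logDeriv_fun_zpow d1, logDeriv_fun_zpow d3]
      congr 2
      have h4 := logDeriv_comp (f := dedekindZeta K) (g := fun z : ℂ => 2 * z - 1) (x := s) d2 dl
      have h5 : deriv (fun z : ℂ => 2 * z - 1) s = 2 := by
        rw [deriv_sub_const, deriv_const_mul _ differentiableAt_id]
        simp
      rw [h5] at h4
      rw [mul_comm]
      exact h4
    rw [e1, e2] at h2
    push_cast at h2
    linear_combination h2 / 2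

end Fam

/-- **Continuation, and the residue at the point `1`.** -/
theorem cont_der (K : Type) [Field K] [NumberField K] {h : ℂ → ℂ} (hh : DifferentiableOn ℂ h UU) (r : ℕ) :
    ∃ D : ℂ → ℂ, MeromorphicOn D UU ∧ Tendsto (fun s => (s - 1) * D s) (𝓝[≠] 1) (𝓝 (r + 1 / 2)) ∧
      ∀ s : ℂ, 1 < s.re →
        D s = h s - r * logDeriv (dedekindZeta K) s - logDeriv (dedekindZeta K) (2 * s - 1) := by
  obtain ⟨H, hH, hH1, hHz⟩ := zeta_cont K
  have hU : IsOpen UU := isOpen_re _
  have hU0 : IsOpen {s : ℂ | 0 < s.re} := isOpen_re _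
  have aH : ∀ s : ℂ, 0 < s.re → AnalyticAt ℂ H s := fun s hs => hH.analyticAt (hU0.mem_nhds hs)
  have hz : ∀ s : ℂ, 1 < s.re → logDeriv (dedekindZeta K) s = logDeriv H s - 1 / (s - 1) := by
    intro s hs
    have hs1 : s - 1 ≠ 0 := by
      intro h0
      rw [sub_eq_zero] at h0
      rw [h0, Complex.one_re] at hs
      exact lt_irrefl _ hs
    have h1 : dedekindZeta K =ᶠ[𝓝 s] fun z => H z / (z - 1) := by
      filter_upwards [(isOpen_re 1).mem_nhds hs] with z hz
      exact hHz z hz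
    have hHs : H s ≠ 0 := by
      intro h0
      have := hHz s hs
      rw [h0, zero_div] at this
      exact zeta_ne K hs this
    rw [(logDeriv_congr_nhds h1).eq_of_nhds,
      logDeriv_div (f := H) (g := fun z => z - 1) s hHs hs1 (aH s (by linarith)).differentiableAt
        (by fun_prop)]
    congr 1
    rw [logDeriv_apply, deriv_sub_const]
    simp
  refine ⟨fun s => h s - r * (logDeriv H s - 1 / (s - 1)) - (logDeriv H (2 * s - 1) - 1 / (2 * (s - 1))),
    ?_, ?_, ?_⟩
  · intro s hs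
    have hs' : (5 : ℝ) / 6 < s.re := hs
    have a1 : AnalyticAt ℂ h s := hh.analyticAt (hU.mem_nhds hs)
    have a2 : AnalyticAt ℂ H s := aH s (by linarith)
    have a3 : AnalyticAt ℂ H (2 * s - 1) := aH (2 * s - 1) (by simp; linarith)
    have al : AnalyticAt ℂ (fun z : ℂ => 2 * z - 1) s := by fun_prop
    have m1 : MeromorphicAt (fun z : ℂ => z - 1) s := by
      have : AnalyticAt ℂ (fun s : ℂ => s - 1) s := by fun_prop
      exact this.meromorphicAt
    have m2 : MeromorphicAt (fun z : ℂ => 2 * (z - 1)) s := by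
      have : AnalyticAt ℂ (fun s : ℂ => 2 * (s - 1)) s := by fun_prop
      exact this.meromorphicAt
    have m3 : MeromorphicAt (fun z => logDeriv H z) s := a2.deriv.meromorphicAt.div a2.meromorphicAt
    have m4 : MeromorphicAt (fun z => logDeriv H (2 * z - 1)) s := by
      have b1 : AnalyticAt ℂ (fun z => H (2 * z - 1)) s :=
        AnalyticAt.fun_comp (g := H) (f := fun z : ℂ => 2 * z - 1) a3 al
      have b2 : AnalyticAt ℂ (fun z => deriv H (2 * z - 1)) s :=
        AnalyticAt.fun_comp (g := deriv H) (f := fun z : ℂ => 2 * z - 1) a3.deriv al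
      exact b2.meromorphicAt.div b1.meromorphicAt
    exact (a1.meromorphicAt.sub ((MeromorphicAt.const _ _).mul
      (m3.sub ((MeromorphicAt.const _ _).div m1)))).sub (m4.sub ((MeromorphicAt.const _ _).div m2))
  · have h1U : (1 : ℂ) ∈ UU := by show (5 : ℝ) / 6 < (1 : ℂ).re; norm_num
    have c1 : ContinuousAt h 1 := (hh.differentiableAt (hU.mem_nhds h1U)).continuousAt
    have c2 : ContinuousAt (logDeriv H) 1 :=
      ((aH 1 (by simp)).deriv.continuousAt).div (aH 1 (by simp)).continuousAt hH1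
    have c3 : ContinuousAt (fun s : ℂ => logDeriv H (2 * s - 1)) 1 := by
      have e21 : (2 * 1 - 1 : ℂ) = 1 := by norm_num
      refine ContinuousAt.comp' (g := logDeriv H) (f := fun s : ℂ => 2 * s - 1) ?_ (by fun_prop)
      rw [e21]
      exact c2
    have c4 : ContinuousAt (fun s : ℂ => (s - 1) * (h s - r * logDeriv H s - logDeriv H (2 * s - 1)) +
        (r + 1 / 2)) 1 := by
      refine ContinuousAt.add (ContinuousAt.mul (by fun_prop) ?_) continuousAt_const
      exact (c1.sub (continuousAt_const.mul c2)).sub c3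
    have c5 := c4.tendsto.mono_left (nhdsWithin_le_nhds (s := {1}ᶜ))
    simp only [sub_self, zero_mul, zero_add] at c5
    refine c5.congr' ?_
    filter_upwards [self_mem_nhdsWithin] with s hs
    have hs1 : s - 1 ≠ 0 := sub_ne_zero.mpr hs
    field_simp
    ring
  · intro s hs
    have hs2 : 1 < (2 * s - 1).re := by simp; linarith
    simp only
    rw [hz s hs, hz _ hs2]
    congr 3
    ring

namespace Fam

variable (F : Fam K J)

theorem main_der {ns : (J → 𝓞 K) → Prop} [DecidablePred ns]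
    (hns : ∀ᶠ v : HeightOneSpectrum (𝓞 K) in cofinite, ∀ a, ¬ ns a → ¬ F.good v (redJ v a)) :
    ∃ D : ℂ → ℂ, MeromorphicOn D UU ∧ Tendsto (fun s => (s - 1) * D s) (𝓝[≠] 1) (𝓝 (F.r + 1 / 2)) ∧
      (∃ h : ℂ → ℂ, DifferentiableOn ℂ h UU ∧ ∀ s : ℂ, 1 < s.re →
        D s = h s - F.r * logDeriv (dedekindZeta K) s - logDeriv (dedekindZeta K) (2 * s - 1)) ∧
      ∀ (I : Type) [Fintype I] [DecidableEq I] (ω : Module.Basis I ℤ (𝓞 K)) (s : ℂ), 3 / 2 < s.re →
        Tendsto (fun H : ℕ => (∑ x ∈ (box (J × I) H).filter fun x => ns (pt ω x),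
          logDeriv (F.L (pt ω x)) s) / (((box (J × I) H).filter fun x => ns (pt ω x)).card : ℂ)) atTop
          (𝓝 (D s)) := by
  obtain ⟨h, hh, hz⟩ := F.der_zeta
  obtain ⟨D, hD, hres, hDs⟩ := cont_der K hh F.r
  refine ⟨D, hD, hres, ⟨h, hh, hDs⟩, fun I _ _ ω s hs => ?_⟩
  rw [hDs s (by linarith), ← hz s hs]
  obtain ⟨B, hB⟩ := F.der_bdd hs
  exact mean_ns (ns := fun x : J × I → ℤ => ns (pt ω x)) (fun x => hB (pt ω x)) (F.mean_der ω hs)
    (F.sing_zero ω hns)

end Fam

end Pool.Agent.Helper89.MM
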