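import Pool.Agent.Helper89.MM.Defs
import Pool.Agent.Helper89.MM.Der

/-!
# The L-series of the families, and the abstract Euler products
-/

set_option autoImplicit false
set_option linter.unusedSectionVars false

namespace Pool.Agent.Helper89.EllipticFamilies

open NumberField IsDedekindDomain Filter Topology

open Pool.Agent.Helper89.MM (Fam fintypeV fieldV redJ LS lsAll lsOne lsTwo lsAll_N lsOne_N lsTwo_N bad_all
  bad_one bad_two card_v fin_mem mk_six pt cAll cOne cTwo TT mk)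
open Pool.Agent.H341R2.EC (aff)
open Pool.Agent.H921R2.TatePole (nm)

attribute [local instance] fintypeV fieldV

section
variable {K : Type} [Field K] [NumberField K]

theorem trace_eq (W : WeierstrassCurve (𝓞 K)) (v : HeightOneSpectrum (𝓞 K)) :
    trace W v = (nm v : ℤ) - aff (W.map (Ideal.Quotient.mk v.asIdeal)) := by
  unfold trace aff
  congr 2
  refine Nat.card_congr (Equiv.subtypeEquivRight fun p => ?_)
  rw [WeierstrassCurve.Affine.equation_iff]

open Classical in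
/-- the Euler factors of the families -/
theorem factor_eq {J : Type} [Fintype J] [DecidableEq J] (r : ℕ) (hr : r ≤ 2)
    (cv : ∀ v : HeightOneSpectrum (𝓞 K), (J → 𝓞 K ⧸ v.asIdeal) → WeierstrassCurve (𝓞 K ⧸ v.asIdeal))
    (h : ∀ᶠ v : HeightOneSpectrum (𝓞 K) in cofinite,
      (∃ S : LS (𝓞 K ⧸ v.asIdeal) J r, ∀ b, S.N b = aff (cv v b)) ∧
      (Finset.univ.filter fun b : J → 𝓞 K ⧸ v.asIdeal => (cv v b).Δ = 0).card *
        Fintype.card (𝓞 K ⧸ v.asIdeal) ≤ 4 * Fintype.card (𝓞 K ⧸ v.asIdeal) ^ Fintype.card J)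
    (c : (J → 𝓞 K) → WeierstrassCurve (𝓞 K))
    (hc : ∀ a v, (c a).map (Ideal.Quotient.mk v.asIdeal) = cv v (redJ v a))
    (a : J → 𝓞 K) (v : HeightOneSpectrum (𝓞 K)) (s : ℂ) :
    factor (c a) v s = 1 - (mk r hr cv h).zx a v s := by
  have hΔ : Ideal.Quotient.mk v.asIdeal (c a).Δ = (cv v (redJ v a)).Δ := by
    rw [← hc, WeierstrassCurve.map_Δ]
  have hiff : 6 * (c a).Δ ∈ v.asIdeal ↔ ¬ ((6 : 𝓞 K) ∉ v.asIdeal ∧ (cv v (redJ v a)).Δ ≠ 0) := by
    rw [← hΔ, Ne, Ideal.Quotient.eq_zero_iff_mem]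
    constructor
    · intro h1 h2
      rcases v.isPrime.mem_or_mem h1 with h3 | h3
      · exact h2.1 h3
      · exact h2.2 h3
    · intro h1
      by_cases h2 : (6 : 𝓞 K) ∈ v.asIdeal
      · exact v.asIdeal.mul_mem_right _ h2
      · have h3 : (c a).Δ ∈ v.asIdeal := by
          by_contra h3
          exact h1 ⟨h2, h3⟩
        exact v.asIdeal.mul_mem_left _ h3
  have hnm : (Ideal.absNorm v.asIdeal : ℂ) ^ (1 - 2 * s) = ((nm v : ℝ) : ℂ) * TT v s ^ 2 := by
    have h0 := Pool.Agent.Helper89.MM.nm_cast_ne v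
    change ((nm v : ℕ) : ℂ) ^ (1 - 2 * s) = _
    unfold TT
    rw [sub_eq_add_neg, Complex.cpow_add _ _ h0, Complex.cpow_one, ← Complex.cpow_nat_mul]
    push_cast
    congr 2
    ring
  unfold factor Fam.zx Fam.zz
  by_cases h2 : 6 * (c a).Δ ∈ v.asIdeal
  · rw [if_pos h2, if_neg (show ¬ (mk r hr cv h).good v (redJ v a) from hiff.mp h2), sub_zero]
  · have h3 : (mk r hr cv h).good v (redJ v a) := by
      by_contra h4
      exact h2 (hiff.mpr h4)
    have h4 : (mk r hr cv h).t v (redJ v a) = (nm v : ℝ) - aff (cv v (redJ v a)) := if_neg h3.1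
    rw [if_neg h2, if_pos h3, h4, trace_eq, hc, hnm]
    change 1 - _ * ((nm v : ℕ) : ℂ) ^ (-s) + _ = _
    unfold TT
    push_cast
    ring

/-- the abstract family `F` gives the Euler factors of the family of curves `c` -/
structure Models {J : Type} [Fintype J] [DecidableEq J] (c : (J → 𝓞 K) → WeierstrassCurve (𝓞 K))
    (F : Fam K J) : Prop where
  eq : ∀ a v s, factor (c a) v s = 1 - F.zx a v s
  sing : ∀ a, (c a).Δ = 0 → ∀ v, ¬ F.good v (redJ v a)

open Classical in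
theorem models_mk {J : Type} [Fintype J] [DecidableEq J] (r : ℕ) (hr : r ≤ 2)
    (cv : ∀ v : HeightOneSpectrum (𝓞 K), (J → 𝓞 K ⧸ v.asIdeal) → WeierstrassCurve (𝓞 K ⧸ v.asIdeal))
    (h : ∀ᶠ v : HeightOneSpectrum (𝓞 K) in cofinite,
      (∃ S : LS (𝓞 K ⧸ v.asIdeal) J r, ∀ b, S.N b = aff (cv v b)) ∧
      (Finset.univ.filter fun b : J → 𝓞 K ⧸ v.asIdeal => (cv v b).Δ = 0).card *
        Fintype.card (𝓞 K ⧸ v.asIdeal) ≤ 4 * Fintype.card (𝓞 K ⧸ v.asIdeal) ^ Fintype.card J)
    (c : (J → 𝓞 K) → WeierstrassCurve (𝓞 K))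
    (hc : ∀ a v, (c a).map (Ideal.Quotient.mk v.asIdeal) = cv v (redJ v a)) :
    Models c (mk r hr cv h) := by
  refine ⟨factor_eq r hr cv h c hc, fun a ha v hg => ?_⟩
  apply hg.2
  rw [← hc, WeierstrassCurve.map_Δ, ha, map_zero]

theorem exists_zero (K : Type) [Field K] [NumberField K] :
    ∃ F : Fam K (Fin 5), F.r = 0 ∧ Models zeroPoints F := by
  classical
  refine ⟨_, rfl, models_mk 0 (by norm_num) (fun v b => cAll b) ?_ zeroPoints (fun a v => rfl)⟩
  filter_upwards [fin_mem (K := K) (x := 6) (by norm_num)] with v h6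
  exact ⟨⟨lsAll, lsAll_N⟩, bad_all (mk_six h6)⟩

theorem exists_one (K : Type) [Field K] [NumberField K] :
    ∃ F : Fam K (Fin 4), F.r = 1 ∧ Models onePoint F := by
  classical
  refine ⟨_, rfl, models_mk 1 (by norm_num) (fun v b => cOne b) ?_ onePoint (fun a v => ?_)⟩
  · filter_upwards [fin_mem (K := K) (x := 6) (by norm_num)] with v h6
    exact ⟨⟨lsOne, lsOne_N⟩, bad_one (mk_six h6)⟩
  · simp only [onePoint, cOne, WeierstrassCurve.map, map_zero]
    rfl

theorem exists_two {K : Type} [Field K] [NumberField K] {e : 𝓞 K} (he : e ≠ 0) :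
    ∃ F : Fam K (Fin 3), F.r = 2 ∧ Models (twoPoints e) F := by
  classical
  refine ⟨_, rfl, models_mk 2 le_rfl (fun v b => cTwo (Ideal.Quotient.mk v.asIdeal e) b) ?_ (twoPoints e)
      (fun a v => ?_)⟩
  · filter_upwards [fin_mem (K := K) (x := 6) (by norm_num), fin_mem (K := K) he] with v h6 hev
    have he' : Ideal.Quotient.mk v.asIdeal e ≠ 0 := by
      rwa [Ne, Ideal.Quotient.eq_zero_iff_mem]
    exact ⟨⟨lsTwo he', lsTwo_N he'⟩, bad_two (mk_six h6) he'⟩
  · simp only [twoPoints, cTwo, WeierstrassCurve.map, map_zero, map_sub, map_neg, map_pow, map_mul]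
    rfl

/-- the mean values -/
theorem mean_eq {J : Type} [Fintype J] [DecidableEq J] {c : (J → 𝓞 K) → WeierstrassCurve (𝓞 K)}
    {ns : (J → 𝓞 K) → Prop} [DecidablePred ns] (hns : ∀ a, ns a ↔ (c a).Δ ≠ 0)
    {I : Type} [Fintype I] [DecidableEq I] (ω : Module.Basis I ℤ (𝓞 K)) (f : WeierstrassCurve (𝓞 K) → ℂ)
    (g : (J → 𝓞 K) → ℂ) (hfg : ∀ a, f (c a) = g a) (H : ℕ) :
    mean ω c f H = (∑ x ∈ (Pool.Agent.Helper89.MM.box (J × I) H).filter fun x => ns (pt ω x),
      g (pt ω x)) /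
      (((Pool.Agent.Helper89.MM.box (J × I) H).filter fun x => ns (pt ω x)).card : ℂ) := by
  unfold mean
  have hbox : box ω c H = (Pool.Agent.Helper89.MM.box (J × I) H).filter fun x => ns (pt ω x) := by
    ext x
    simp only [box, Pool.Agent.Helper89.MM.box, Finset.mem_filter, Fintype.mem_piFinset, hns]
    rfl
  rw [hbox]
  congr 1
  exact Finset.sum_congr rfl fun x _ => hfg _

section models
variable {J : Type} [Fintype J] [DecidableEq J] {c : (J → 𝓞 K) → WeierstrassCurve (𝓞 K)} {F : Fam K J}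
  (hM : Models c F)
include hM

theorem LSeries_eq (a : J → 𝓞 K) : LSeries (c a) = F.L a := by
  funext s
  unfold LSeries Fam.L
  congr 1
  funext v
  rw [hM.eq]

theorem ns_ok : ∀ᶠ v : HeightOneSpectrum (𝓞 K) in cofinite, ∀ a, ¬ ((c a).Δ ≠ 0) →
    ¬ F.good v (redJ v a) :=
  Eventually.of_forall fun v a ha => hM.sing a (not_not.mp ha) v

end models

end

end Pool.Agent.Helper89.EllipticFamilies
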