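import Mathlib

/-!
# Averages over boxes of functions which factor through a finite group
-/

set_option autoImplicit false

namespace Pool.Agent.Helper89.MM

open Finset Filter Topology

/-- The integer vectors with coordinates of absolute value at most `H`. -/
noncomputable def box (ι : Type*) [Fintype ι] [DecidableEq ι] (H : ℕ) : Finset (ι → ℤ) :=
  Fintype.piFinset fun _ => Finset.Icc (-(H : ℤ)) H

theorem cnt_mod (H N : ℕ) (hN : 0 < N) (v : ℤ) :
    |((#{z ∈ Finset.Icc (-(H : ℤ)) H | z ≡ v [ZMOD N]} : ℕ) : ℝ) - (2 * H + 1) / N| ≤ 1 := by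
  have h0 : Finset.Icc (-(H : ℤ)) H = Finset.Ioc (-(H : ℤ) - 1) H := by
    ext z; simp only [Finset.mem_Icc, Finset.mem_Ioc]; omega
  rw [h0]
  have h1 := Int.Ioc_filter_modEq_card (-(H : ℤ) - 1) (H : ℤ) (r := (N : ℤ)) (by exact_mod_cast hN) v
  have hNq : (0 : ℚ) < N := by exact_mod_cast hN
  set A : ℚ := (((H : ℤ) : ℚ) - v) / ((N : ℤ) : ℚ) with hA
  set B : ℚ := ((((-(H : ℤ) - 1) : ℤ) : ℚ) - v) / ((N : ℤ) : ℚ) with hB
  have hAB : A - B = (2 * H + 1) / N := by
    rw [hA, hB]; push_cast; field_simp; ring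
  have hpos : 0 ≤ A - B := by rw [hAB]; positivity
  have hfl : 0 ≤ ⌊A⌋ - ⌊B⌋ := by
    have : ⌊B⌋ ≤ ⌊A⌋ := Int.floor_le_floor (by linarith)
    omega
  rw [max_eq_left hfl] at h1
  have h2 : |(((⌊A⌋ - ⌊B⌋ : ℤ)) : ℚ) - (A - B)| ≤ 1 := by
    push_cast
    have a1 := Int.floor_le A
    have a2 := Int.lt_floor_add_one A
    have b1 := Int.floor_le B
    have b2 := Int.lt_floor_add_one B
    rw [abs_le]
    constructor <;> linarith
  rw [← h1, hAB] at h2
  have h3 : |((((#{z ∈ Finset.Ioc (-(H : ℤ) - 1) H | z ≡ v [ZMOD N]} : ℕ) : ℤ) : ℚ) : ℝ) -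
      (((2 * H + 1) / N : ℚ) : ℝ)| ≤ 1 := by
    have := (Rat.cast_le (K := ℝ)).mpr h2
    push_cast at this ⊢
    exact this
  push_cast at h3
  exact h3

theorem tendsto_inv_lin : Tendsto (fun H : ℕ => (1 : ℝ) / (2 * H + 1)) atTop (𝓝 0) := by
  have h1 : Tendsto (fun H : ℕ => (2 * H + 1 : ℝ)) atTop atTop := by
    refine tendsto_atTop_mono (fun H => ?_) tendsto_natCast_atTop_atTop
    have : (0 : ℝ) ≤ H := by positivity
    linarith
  refine h1.inv_tendsto_atTop.congr fun H => ?_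
  rw [Pi.inv_apply, one_div]

theorem cnt_tendsto (N : ℕ) (hN : 0 < N) (v : ℤ) :
    Tendsto (fun H : ℕ => ((#{z ∈ Finset.Icc (-(H : ℤ)) H | z ≡ v [ZMOD N]} : ℕ) : ℝ) / (2 * H + 1))
      atTop (𝓝 (1 / N)) := by
  rw [tendsto_iff_dist_tendsto_zero]
  refine squeeze_zero (fun _ => dist_nonneg) (fun H => ?_) tendsto_inv_lin
  have hH : (0 : ℝ) < 2 * H + 1 := by positivity
  have h1 := cnt_mod H N hN v
  rw [Real.dist_eq]
  have e : ((#{z ∈ Finset.Icc (-(H : ℤ)) H | z ≡ v [ZMOD N]} : ℕ) : ℝ) / (2 * H + 1) - 1 / N =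
      (((#{z ∈ Finset.Icc (-(H : ℤ)) H | z ≡ v [ZMOD N]} : ℕ) : ℝ) - (2 * H + 1) / N) / (2 * H + 1) := by
    have hN' : (N : ℝ) ≠ 0 := by exact_mod_cast hN.ne'
    field_simp
  rw [e, abs_div, abs_of_pos hH]
  gcongr

section
variable {ι : Type*} [Fintype ι] [DecidableEq ι]

theorem card_box (H : ℕ) : ((box ι H).card : ℝ) = (2 * H + 1 : ℝ) ^ Fintype.card ι := by
  unfold box
  rw [Fintype.card_piFinset]
  simp only [Int.card_Icc, Finset.prod_const, Finset.card_univ]
  push_cast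
  congr 1
  have : ((H : ℤ) + 1 - -(H : ℤ)).toNat = 2 * H + 1 := by omega
  rw [this]; push_cast; ring

theorem card_red (H m : ℕ) [NeZero m] (r : ι → ZMod m) :
    #{c ∈ box ι H | (fun i => ((c i : ℤ) : ZMod m)) = r} =
      ∏ i, #{z ∈ Finset.Icc (-(H : ℤ)) H | z ≡ ((r i).cast : ℤ) [ZMOD m]} := by
  rw [← Fintype.card_piFinset]
  congr 1
  ext c
  simp only [box, Finset.mem_filter, Fintype.mem_piFinset, funext_iff]
  rw [forall_and]
  refine and_congr_right fun _ => forall_congr' fun i => ?_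
  rw [← ZMod.intCast_eq_intCast_iff, ZMod.intCast_zmod_cast]

theorem card_red_tendsto (m : ℕ) [NeZero m] (r : ι → ZMod m) :
    Tendsto (fun H : ℕ => (#{c ∈ box ι H | (fun i => ((c i : ℤ) : ZMod m)) = r} : ℝ) /
      (2 * H + 1) ^ Fintype.card ι) atTop (𝓝 (1 / (m : ℝ) ^ Fintype.card ι)) := by
  have h1 : ∀ i : ι, Tendsto (fun H : ℕ => ((#{z ∈ Finset.Icc (-(H : ℤ)) H |
      z ≡ ((r i).cast : ℤ) [ZMOD m]} : ℕ) : ℝ) / (2 * H + 1)) atTop (𝓝 (1 / m)) := fun i =>
    cnt_tendsto m (Nat.pos_of_ne_zero (NeZero.ne m)) _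
  have h2 := tendsto_finsetProd (Finset.univ : Finset ι) fun i _ => h1 i
  simp only [Finset.prod_const, Finset.card_univ, one_div, inv_pow] at h2 ⊢
  refine h2.congr fun H => ?_
  rw [card_red, Finset.prod_div_distrib]
  simp

/-- the reduction modulo the order of the group -/
theorem exists_mod {A : Type*} [AddCommGroup A] [Fintype A] (φ : (ι → ℤ) →+ A) (m : ℕ)
    (hm : m = Fintype.card A) :
    ∃ ψ : (ι → ZMod m) →+ A, ∀ c : ι → ℤ, ψ (fun i => ((c i : ℤ) : ZMod m)) = φ c := by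
  classical
  have hz : ∀ a : A, (zmultiplesHom A a) (m : ℤ) = 0 := by
    intro a
    simp only [zmultiplesHom_apply, natCast_zsmul]
    rw [hm]
    exact card_nsmul_eq_zero
  let g : ι → (ZMod m →+ A) := fun i => ZMod.lift m ⟨zmultiplesHom A (φ (Pi.single i 1)), hz _⟩
  refine ⟨∑ i, (g i).comp (Pi.evalAddMonoidHom (fun _ : ι => ZMod m) i), fun c => ?_⟩
  rw [AddMonoidHom.finsetSum_apply]
  have h1 : c = ∑ i, c i • (Pi.single i (1 : ℤ) : ι → ℤ) := by
    ext j
    simp [Finset.sum_apply, Pi.single_apply]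
  conv_rhs => rw [h1, map_sum]
  refine Finset.sum_congr rfl fun i _ => ?_
  rw [map_zsmul]
  simp only [AddMonoidHom.comp_apply, Pi.evalAddMonoidHom_apply, g]
  rw [ZMod.lift_coe]
  simp

/-- **Equidistribution of the box in a finite quotient.** -/
theorem count_tendsto {A : Type*} [AddCommGroup A] [Fintype A] [DecidableEq A] (φ : (ι → ℤ) →+ A)
    (hφ : Function.Surjective φ) (a : A) :
    Tendsto (fun H : ℕ => (#{c ∈ box ι H | φ c = a} : ℝ) / (2 * H + 1) ^ Fintype.card ι) atTop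
      (𝓝 (1 / Fintype.card A)) := by
  classical
  obtain ⟨m, hm⟩ : ∃ m, m = Fintype.card A := ⟨_, rfl⟩
  obtain ⟨ψ, hψ⟩ := exists_mod φ m hm
  have : NeZero m := ⟨by rw [hm]; exact Fintype.card_ne_zero⟩
  have hm0 : (m : ℝ) ≠ 0 := by exact_mod_cast NeZero.ne m
  have hsur : Function.Surjective ψ := by
    intro b
    obtain ⟨c, hc⟩ := hφ b
    exact ⟨_, (hψ c).trans hc⟩
  -- the fibres have the same size
  have hfib : ∀ b : A, #{r : ι → ZMod m | ψ r = b} = #{r : ι → ZMod m | ψ r = a} := by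
    intro b
    exact AddMonoidHom.card_fiber_eq_of_mem_range ψ (hsur b) (hsur a)
  have hcard : (m : ℝ) * #{r : ι → ZMod m | ψ r = a} = (m : ℝ) ^ Fintype.card ι := by
    have h1 : (Finset.univ : Finset (ι → ZMod m)).card = ∑ b : A, #{r : ι → ZMod m | ψ r = b} :=
      Finset.card_eq_sum_card_fiberwise fun r _ => Finset.mem_coe.mpr (Finset.mem_univ (ψ r))
    rw [Finset.sum_congr rfl fun b _ => hfib b, Finset.sum_const, Finset.card_univ, Finset.card_univ,
      smul_eq_mul, ← hm] at h1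
    have h2 : Fintype.card (ι → ZMod m) = m ^ Fintype.card ι := by
      rw [Fintype.card_fun, ZMod.card]
    rw [h2] at h1
    exact_mod_cast h1.symm
  have h3 : ∀ H : ℕ, (#{c ∈ box ι H | φ c = a} : ℝ) / (2 * H + 1) ^ Fintype.card ι =
      ∑ r ∈ (Finset.univ.filter fun r : ι → ZMod m => ψ r = a),
        (#{c ∈ box ι H | (fun i => ((c i : ℤ) : ZMod m)) = r} : ℝ) / (2 * H + 1) ^ Fintype.card ι := by
    intro H
    rw [← Finset.sum_div]
    congr 1
    have h4 := Finset.card_eq_sum_card_fiberwise (s := {c ∈ box ι H | φ c = a})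
      (t := Finset.univ.filter fun r : ι → ZMod m => ψ r = a)
      (f := fun c : ι → ℤ => fun i => ((c i : ℤ) : ZMod m)) (fun c hc => by
        have hc' := (Finset.mem_filter.mp (Finset.mem_coe.mp hc)).2
        simp only [Finset.coe_filter, Finset.mem_univ, true_and, Set.mem_ofPred_eq]
        rw [hψ]
        exact hc')
    rw [h4]
    push_cast
    refine Finset.sum_congr rfl fun r hr => ?_
    congr 2
    ext c
    simp only [Finset.mem_filter, and_assoc]
    refine and_congr_right fun _ => ?_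
    constructor
    · exact fun h => h.2
    · intro h
      refine ⟨?_, h⟩
      rw [← hψ, h]
      exact (Finset.mem_filter.mp hr).2
  simp_rw [h3]
  have h5 := tendsto_finsetSum (Finset.univ.filter fun r : ι → ZMod m => ψ r = a)
    fun r _ => card_red_tendsto (ι := ι) m r
  rw [Finset.sum_const, nsmul_eq_mul] at h5
  have e : (#{r : ι → ZMod m | ψ r = a} : ℝ) * (1 / (m : ℝ) ^ Fintype.card ι) = 1 / m := by
    have h6 : (m : ℝ) ^ Fintype.card ι ≠ 0 := pow_ne_zero _ hm0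
    field_simp
    rw [← hcard, mul_comm]
  rw [e] at h5
  rw [← hm]
  exact h5

/-- **Means over the box of a function on a finite quotient.** -/
theorem mean_tendsto {A : Type*} [AddCommGroup A] [Fintype A] (φ : (ι → ℤ) →+ A)
    (hφ : Function.Surjective φ) (F : A → ℂ) :
    Tendsto (fun H : ℕ => (∑ c ∈ box ι H, F (φ c)) / (2 * H + 1) ^ Fintype.card ι) atTop
      (𝓝 ((∑ a, F a) / Fintype.card A)) := by
  classical
  have h1 : ∀ H : ℕ, (∑ c ∈ box ι H, F (φ c)) / (2 * H + 1) ^ Fintype.card ι =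
      ∑ a : A, (((#{c ∈ box ι H | φ c = a} : ℝ) / (2 * H + 1) ^ Fintype.card ι : ℝ) : ℂ) * F a := by
    intro H
    rw [← Finset.sum_fiberwise' (box ι H) φ F, Finset.sum_div]
    refine Finset.sum_congr rfl fun a _ => ?_
    rw [Finset.sum_const, nsmul_eq_mul]
    push_cast
    ring
  simp_rw [h1]
  have h2 := tendsto_finsetSum (Finset.univ : Finset A) fun a _ =>
    ((Complex.continuous_ofReal.tendsto _).comp (count_tendsto φ hφ a)).mul_const (F a)
  refine (h2.congr fun H => rfl).trans (le_of_eq ?_)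
  congr 1
  rw [← Finset.mul_sum]
  push_cast
  ring

end

end Pool.Agent.Helper89.MM
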