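import Pool.Agent.Helper89.MM.Lin
import Pool.Graph.R_seed8.H341R2.NF.ECCount

/-!
# The three families of Weierstrass equations over a finite field
-/

set_option autoImplicit false
set_option linter.unusedSectionVars false

namespace Pool.Agent.Helper89.MM

open Finset Polynomial

/-- all Weierstrass equations; the parameters are `a₁, a₂, a₃, a₄, a₆` -/
def cAll {R : Type*} [CommRing R] (a : Fin 5 → R) : WeierstrassCurve R := ⟨a 0, a 1, a 2, a 3, a 4⟩

/-- the Weierstrass equations through `(0, 0)` -/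
def cOne {R : Type*} [CommRing R] (a : Fin 4 → R) : WeierstrassCurve R := ⟨a 0, a 1, a 2, a 3, 0⟩

/-- the Weierstrass equations through `(0, 0)` and `(e, 0)` -/
def cTwo {R : Type*} [CommRing R] (e : R) (a : Fin 3 → R) : WeierstrassCurve R :=
  ⟨a 0, a 1, a 2, -e ^ 2 - e * a 1, 0⟩

/-- the number of zeros of a polynomial function of degree at most four -/
theorem card_quartic {k : Type*} [Field k] [Fintype k] [DecidableEq k] (F : k → k) (c4 c3 c2 c1 c0 : k)
    (hF : ∀ t, F t = c4 * t ^ 4 + c3 * t ^ 3 + c2 * t ^ 2 + c1 * t + c0)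
    (h : c4 ≠ 0 ∨ c3 ≠ 0 ∨ c2 ≠ 0) : #{t : k | F t = 0} ≤ 4 := by
  set p : k[X] := C c4 * X ^ 4 + C c3 * X ^ 3 + C c2 * X ^ 2 + C c1 * X + C c0 with hp
  have hdeg : p.natDegree ≤ 4 := by rw [hp]; compute_degree
  have hp0 : p ≠ 0 := by
    intro h0
    have h4 : p.coeff 4 = c4 := by rw [hp]; simp [coeff_X, coeff_C, coeff_X_pow]
    have h3 : p.coeff 3 = c3 := by rw [hp]; simp [coeff_X, coeff_C, coeff_X_pow]
    have h2 : p.coeff 2 = c2 := by rw [hp]; simp [coeff_X, coeff_C, coeff_X_pow]
    rw [h0, coeff_zero] at h4 h3 h2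
    rcases h with h | h | h
    · exact h h4.symm
    · exact h h3.symm
    · exact h h2.symm
  have hsub : (Finset.univ.filter fun t : k => F t = 0) ⊆ p.roots.toFinset := by
    intro t ht
    rw [Multiset.mem_toFinset, mem_roots hp0, IsRoot.def]
    have := (Finset.mem_filter.mp ht).2
    rw [hF] at this
    rw [hp]
    simpa using this
  calc _ ≤ p.roots.toFinset.card := Finset.card_le_card hsub
    _ ≤ Multiset.card p.roots := Multiset.toFinset_card_le _
    _ ≤ p.natDegree := card_roots' p
    _ ≤ 4 := hdeg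

/-- elimination of one variable -/
theorem card_bad {k : Type*} [Field k] [Fintype k] [DecidableEq k] {J : Type*} [Fintype J] [DecidableEq J]
    (D : (J → k) → k) (i : J) (h : ∀ a : J → k, #{t : k | D (Function.update a i t) = 0} ≤ 4) :
    #{a : J → k | D a = 0} * Fintype.card k ≤ 4 * Fintype.card k ^ Fintype.card J := by
  have h1 : ∑ p : (J → k) × k, (if D (Function.update p.1 i p.2) = 0 then 1 else 0) =
      ∑ p : (J → k) × k, (if D p.1 = 0 then 1 else 0) := by
    refine Fintype.sum_bijective (fun p : (J → k) × k => (Function.update p.1 i p.2, p.1 i)) ?_ _ _ ?_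
    · apply Function.Involutive.bijective
      intro p
      ext j
      · by_cases hj : j = i
        · subst hj; simp
        · simp [Function.update_of_ne hj]
      · simp
    · intro p
      rfl
  rw [Fintype.sum_prod_type, Fintype.sum_prod_type] at h1
  have h2 : ∑ a : J → k, ∑ t : k, (if D (Function.update a i t) = 0 then 1 else 0) ≤
      ∑ _a : J → k, 4 := by
    refine Finset.sum_le_sum fun a _ => ?_
    rw [← Finset.card_filter]
    exact h a
  rw [h1, Finset.sum_const, Finset.card_univ, smul_eq_mul, Fintype.card_fun] at h2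
  have h3 : ∑ a : J → k, ∑ _t : k, (if D a = 0 then 1 else 0) = #{a : J → k | D a = 0} * Fintype.card k := by
    rw [Finset.card_filter, Finset.sum_mul]
    refine Finset.sum_congr rfl fun a _ => ?_
    rw [Finset.sum_const, Finset.card_univ, smul_eq_mul, mul_comm]
  rw [h3] at h2
  rw [mul_comm 4]
  exact h2

section
variable {k : Type*} [Field k] [Fintype k] [DecidableEq k]

theorem two_three (h6 : (6 : k) ≠ 0) : (2 : k) ≠ 0 ∧ (3 : k) ≠ 0 := by
  constructor
  · intro h; apply h6
    have : (6 : k) = 3 * 2 := by norm_num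
    rw [this, h, mul_zero]
  · intro h; apply h6
    have : (6 : k) = 2 * 3 := by norm_num
    rw [this, h, mul_zero]

theorem bad_all (h6 : (6 : k) ≠ 0) :
    #{a : Fin 5 → k | (cAll a).Δ = 0} * Fintype.card k ≤ 4 * Fintype.card k ^ Fintype.card (Fin 5) := by
  obtain ⟨h2, h3⟩ := two_three h6
  refine card_bad (fun a => (cAll a).Δ) 4 fun a => ?_
  refine card_quartic _ 0 0 (-432)
    (-(a 0 ^ 2 + 4 * a 1) ^ 3 - 216 * a 2 ^ 2 + 36 * (a 0 ^ 2 + 4 * a 1) * (2 * a 3 + a 0 * a 2))
    (-(a 0 ^ 2 + 4 * a 1) ^ 2 * (-a 0 * a 2 * a 3 + a 1 * a 2 ^ 2 - a 3 ^ 2) -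
      8 * (2 * a 3 + a 0 * a 2) ^ 3 - 27 * a 2 ^ 4 +
      9 * (a 0 ^ 2 + 4 * a 1) * (2 * a 3 + a 0 * a 2) * a 2 ^ 2) (fun t => ?_) (Or.inr (Or.inr ?_))
  · have e0 : Function.update a 4 t 0 = a 0 := Function.update_of_ne (by decide) _ _
    have e1 : Function.update a 4 t 1 = a 1 := Function.update_of_ne (by decide) _ _
    have e2 : Function.update a 4 t 2 = a 2 := Function.update_of_ne (by decide) _ _
    have e3 : Function.update a 4 t 3 = a 3 := Function.update_of_ne (by decide) _ _
    have e4 : Function.update a 4 t 4 = t := Function.update_self _ _ _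
    simp only [cAll, WeierstrassCurve.Δ, WeierstrassCurve.b₂, WeierstrassCurve.b₄,
      WeierstrassCurve.b₆, WeierstrassCurve.b₈, e0, e1, e2, e3, e4]
    ring
  · have : (-432 : k) = -(2 ^ 4 * 3 ^ 3) := by norm_num
    rw [this]
    exact neg_ne_zero.mpr (mul_ne_zero (pow_ne_zero _ h2) (pow_ne_zero _ h3))

theorem bad_one (h6 : (6 : k) ≠ 0) :
    #{a : Fin 4 → k | (cOne a).Δ = 0} * Fintype.card k ≤ 4 * Fintype.card k ^ Fintype.card (Fin 4) := by
  obtain ⟨h2, h3⟩ := two_three h6
  refine card_bad (fun a => (cOne a).Δ) 3 fun a => ?_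
  refine card_quartic _ 0 (-64) ((a 0 ^ 2 + 4 * a 1) ^ 2 - 96 * (a 0 * a 2))
    ((a 0 ^ 2 + 4 * a 1) ^ 2 * (a 0 * a 2) - 48 * (a 0 * a 2) ^ 2 + 18 * (a 0 ^ 2 + 4 * a 1) * a 2 ^ 2)
    (-(a 0 ^ 2 + 4 * a 1) ^ 2 * (a 1 * a 2 ^ 2) - 8 * (a 0 * a 2) ^ 3 - 27 * a 2 ^ 4 +
      9 * (a 0 ^ 2 + 4 * a 1) * a 2 ^ 2 * (a 0 * a 2)) (fun t => ?_) (Or.inr (Or.inl ?_))
  · have e0 : Function.update a 3 t 0 = a 0 := Function.update_of_ne (by decide) _ _
    have e1 : Function.update a 3 t 1 = a 1 := Function.update_of_ne (by decide) _ _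
    have e2 : Function.update a 3 t 2 = a 2 := Function.update_of_ne (by decide) _ _
    have e3 : Function.update a 3 t 3 = t := Function.update_self _ _ _
    simp only [cOne, WeierstrassCurve.Δ, WeierstrassCurve.b₂, WeierstrassCurve.b₄,
      WeierstrassCurve.b₆, WeierstrassCurve.b₈, e0, e1, e2, e3]
    ring
  · have : (-64 : k) = -(2 ^ 6) := by norm_num
    rw [this]
    exact neg_ne_zero.mpr (pow_ne_zero _ h2)

theorem bad_two (h6 : (6 : k) ≠ 0) {e : k} (he : e ≠ 0) :
    #{a : Fin 3 → k | (cTwo e a).Δ = 0} * Fintype.card k ≤ 4 * Fintype.card k ^ Fintype.card (Fin 3) := by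
  obtain ⟨h2, h3⟩ := two_three h6
  refine card_bad (fun a => (cTwo e a).Δ) 1 fun a => ?_
  refine card_quartic _ (16 * e ^ 2)
    (8 * a 0 ^ 2 * e ^ 2 - 16 * (a 0 * a 2 * e + a 2 ^ 2 - 2 * e ^ 3) + 64 * e ^ 3)
    ((a 0 ^ 2) ^ 2 * e ^ 2 - 8 * a 0 ^ 2 * (a 0 * a 2 * e + a 2 ^ 2 - 2 * e ^ 3) -
      16 * (a 0 * a 2 * e ^ 2 - e ^ 4) - 96 * (a 0 * a 2 - 2 * e ^ 2) * e ^ 2 - 72 * a 2 ^ 2 * e)
    (-(a 0 ^ 2) ^ 2 * (a 0 * a 2 * e + a 2 ^ 2 - 2 * e ^ 3) - 8 * a 0 ^ 2 * (a 0 * a 2 * e ^ 2 - e ^ 4) +
      48 * (a 0 * a 2 - 2 * e ^ 2) ^ 2 * e +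
      9 * a 2 ^ 2 * (4 * (a 0 * a 2 - 2 * e ^ 2) - 2 * e * a 0 ^ 2))
    (-(a 0 ^ 2) ^ 2 * (a 0 * a 2 * e ^ 2 - e ^ 4) - 8 * (a 0 * a 2 - 2 * e ^ 2) ^ 3 +
      9 * a 2 ^ 2 * a 0 ^ 2 * (a 0 * a 2 - 2 * e ^ 2) - 27 * a 2 ^ 4) (fun t => ?_) (Or.inl ?_)
  · have e0 : Function.update a 1 t 0 = a 0 := Function.update_of_ne (by decide) _ _
    have e2 : Function.update a 1 t 2 = a 2 := Function.update_of_ne (by decide) _ _
    have e1 : Function.update a 1 t 1 = t := Function.update_self _ _ _
    simp only [cTwo, WeierstrassCurve.Δ, WeierstrassCurve.b₂, WeierstrassCurve.b₄,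
      WeierstrassCurve.b₆, WeierstrassCurve.b₈, e0, e1, e2]
    ring
  · have : (16 : k) = 2 ^ 4 := by norm_num
    rw [this]
    exact mul_ne_zero (pow_ne_zero _ h2) (pow_ne_zero _ he)

/-- the number of affine points, as a cardinality of a finite set -/
theorem aff_eq (V : WeierstrassCurve k) : Pool.Agent.H341R2.EC.aff V =
    #{p : k × k | p.2 ^ 2 + V.a₁ * p.1 * p.2 + V.a₃ * p.2 =
      p.1 ^ 3 + V.a₂ * p.1 ^ 2 + V.a₄ * p.1 + V.a₆} := by
  unfold Pool.Agent.H341R2.EC.aff
  rw [Nat.card_eq_fintype_card, Fintype.card_subtype]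

/-- all Weierstrass equations, as a linear system -/
def lsAll : LS k (Fin 5) 0 where
  lam P := ![P.1 * P.2, -P.1 ^ 2, P.2, -P.1, -1]
  mu P := P.1 ^ 3 - P.2 ^ 2
  base := ∅
  card_base := rfl
  lam_base P h := absurd h (Finset.notMem_empty P)
  lam_ne P _ h := by
    have := congrFun h 4
    simp at this
  exc := ∅
  pair P P' _ _ h := by
    refine Or.inl ⟨Finset.notMem_empty _, ?_⟩
    by_cases h1 : P.1 = P'.1
    · have h2 : P.2 ≠ P'.2 := fun h2 => h (Prod.ext h1 h2)
      refine ⟨2, 4, ?_⟩
      simp only [Matrix.cons_val]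
      intro h3
      exact h2 (by linear_combination -h3)
    · refine ⟨3, 4, ?_⟩
      simp only [Matrix.cons_val]
      intro h3
      exact h1 (by linear_combination h3)
  card_exc := by simp

theorem lsAll_N (a : Fin 5 → k) : (lsAll (k := k)).N a = Pool.Agent.H341R2.EC.aff (cAll a) := by
  rw [aff_eq]
  unfold LS.N
  congr 1
  ext P
  rw [Finset.mem_filter_univ, Finset.mem_filter_univ]
  simp only [lsAll, lf, AddMonoidHom.coe_mk,
    ZeroHom.coe_mk, cAll, Fin.sum_univ_five, Matrix.cons_val]
  constructor <;> intro h <;> linear_combination h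

/-- the Weierstrass equations through `(0, 0)`, as a linear system -/
def lsOne : LS k (Fin 4) 1 where
  lam P := ![P.1 * P.2, -P.1 ^ 2, P.2, -P.1]
  mu P := P.1 ^ 3 - P.2 ^ 2
  base := {(0, 0)}
  card_base := Finset.card_singleton _
  lam_base P h := by
    rw [Finset.mem_singleton] at h
    subst h
    constructor
    · ext i; fin_cases i <;> simp
    · simp
  lam_ne P hP h := by
    apply hP
    rw [Finset.mem_singleton]
    have h1 := congrFun h 2
    have h2 := congrFun h 3
    simp only [Matrix.cons_val, Pi.zero_apply] at h1 h2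
    exact Prod.ext (by simpa using h2) h1
  exc := Finset.univ.image fun u : k × k => (((0 : k), u.1), ((0 : k), u.2))
  pair P P' hP hP' h := by
    rw [Finset.mem_singleton] at hP hP'
    have hmem : ((P, P') ∈ Finset.univ.image fun u : k × k => (((0 : k), u.1), ((0 : k), u.2))) ↔
        P.1 = 0 ∧ P'.1 = 0 := by
      simp only [Finset.mem_image, Finset.mem_univ, true_and]
      constructor
      · rintro ⟨u, hu⟩
        rw [Prod.ext_iff] at hu
        simp only at hu
        rw [← hu.1, ← hu.2]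
        exact ⟨rfl, rfl⟩
      · rintro ⟨h1, h2⟩
        exact ⟨(P.2, P'.2), Prod.ext (Prod.ext h1.symm rfl) (Prod.ext h2.symm rfl)⟩
    rw [hmem]
    by_cases hx : P.1 = 0
    · by_cases hx' : P'.1 = 0
      · refine Or.inr ⟨⟨hx, hx'⟩, fun a ha => ?_⟩
        obtain ⟨h1, h2⟩ := ha
        simp only [lf, AddMonoidHom.coe_mk, ZeroHom.coe_mk, Fin.sum_univ_four, Matrix.cons_val, hx,
          hx'] at h1 h2
        have hy : P.2 ≠ 0 := fun hy => hP (Prod.ext hx hy)
        have hy' : P'.2 ≠ 0 := fun hy => hP' (Prod.ext hx' hy)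
        have h3 : P.2 * (a 2 + P.2) = 0 := by linear_combination h1
        have h4 : P'.2 * (a 2 + P'.2) = 0 := by linear_combination h2
        have h5 := (mul_eq_zero.mp h3).resolve_left hy
        have h6 := (mul_eq_zero.mp h4).resolve_left hy'
        exact h (Prod.ext (hx.trans hx'.symm) (by linear_combination h5 - h6))
      · refine Or.inl ⟨fun h0 => hx' h0.2, 2, 3, ?_⟩
        have hy : P.2 ≠ 0 := fun hy => hP (Prod.ext hx hy)
        simp only [Matrix.cons_val, hx]
        intro h0
        exact mul_ne_zero hy hx' (by linear_combination -h0)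
    · refine Or.inl ⟨fun h0 => hx h0.1, ?_⟩
      by_cases hx' : P'.1 = 0
      · refine ⟨2, 3, ?_⟩
        have hy' : P'.2 ≠ 0 := fun hy => hP' (Prod.ext hx' hy)
        simp only [Matrix.cons_val, hx']
        intro h0
        exact mul_ne_zero hx hy' (by linear_combination h0)
      · by_cases hxx : P.1 = P'.1
        · refine ⟨2, 3, ?_⟩
          have hy : P.2 ≠ P'.2 := fun hy => h (Prod.ext hxx hy)
          simp only [Matrix.cons_val]
          intro h0
          rw [← hxx] at h0
          exact mul_ne_zero hx (sub_ne_zero.mpr hy) (by linear_combination -h0)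
        · refine ⟨1, 3, ?_⟩
          simp only [Matrix.cons_val]
          intro h0
          exact mul_ne_zero (mul_ne_zero hx hx') (sub_ne_zero.mpr hxx) (by linear_combination h0)
  card_exc := by
    refine Finset.card_image_le.trans ?_
    rw [Finset.card_univ, Fintype.card_prod, ← sq]
    omega

theorem lsOne_N (a : Fin 4 → k) : (lsOne (k := k)).N a = Pool.Agent.H341R2.EC.aff (cOne a) := by
  rw [aff_eq]
  unfold LS.N
  congr 1
  ext P
  rw [Finset.mem_filter_univ, Finset.mem_filter_univ]
  simp only [lsOne, lf, AddMonoidHom.coe_mk,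
    ZeroHom.coe_mk, cOne, Fin.sum_univ_four, Matrix.cons_val]
  constructor <;> intro h <;> linear_combination h

/-- the Weierstrass equations through `(0, 0)` and `(e, 0)`, as a linear system -/
def lsTwo {e : k} (he : e ≠ 0) : LS k (Fin 3) 2 where
  lam P := ![P.1 * P.2, -(P.1 ^ 2 - e * P.1), P.2]
  mu P := P.1 ^ 3 - e ^ 2 * P.1 - P.2 ^ 2
  base := {(0, 0), (e, 0)}
  card_base := by
    rw [Finset.card_pair]
    intro h
    exact he (congrArg Prod.fst h).symm
  lam_base P h := by
    rw [Finset.mem_insert, Finset.mem_singleton] at h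
    rcases h with rfl | rfl
    · constructor
      · ext i; fin_cases i <;> simp
      · simp
    · constructor
      · ext i; fin_cases i
        · simp
        · simp; ring
        · simp
      · simp; ring
  lam_ne P hP h := by
    apply hP
    rw [Finset.mem_insert, Finset.mem_singleton]
    have h1 := congrFun h 1
    have h2 := congrFun h 2
    simp only [Matrix.cons_val, Pi.zero_apply] at h1 h2
    have h3 : P.1 * (P.1 - e) = 0 := by linear_combination -h1
    rcases mul_eq_zero.mp h3 with h4 | h4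
    · exact Or.inl (Prod.ext h4 h2)
    · exact Or.inr (Prod.ext (sub_eq_zero.mp h4) h2)
  exc := (Finset.univ.image fun u : k × k => (((0 : k), u.1), ((0 : k), u.2))) ∪
    (Finset.univ.image fun u : k × k => ((e, u.1), (e, u.2))) ∪
    (Finset.univ.image fun u : k × k => ((u.1, (0 : k)), (u.2, (0 : k))))
  pair P P' hP hP' h := by
    rw [Finset.mem_insert, Finset.mem_singleton] at hP hP'
    push Not at hP hP'
    have hmem : ((P, P') ∈ (Finset.univ.image fun u : k × k => (((0 : k), u.1), ((0 : k), u.2))) ∪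
        (Finset.univ.image fun u : k × k => ((e, u.1), (e, u.2))) ∪
        (Finset.univ.image fun u : k × k => ((u.1, (0 : k)), (u.2, (0 : k))))) ↔
        (P.1 = 0 ∧ P'.1 = 0) ∨ (P.1 = e ∧ P'.1 = e) ∨ (P.2 = 0 ∧ P'.2 = 0) := by
      simp only [Finset.mem_union, Finset.mem_image, Finset.mem_univ, true_and, or_assoc]
      refine or_congr ?_ (or_congr ?_ ?_)
      · constructor
        · rintro ⟨u, hu⟩
          rw [Prod.ext_iff] at hu
          simp only at hu
          rw [← hu.1, ← hu.2]
          exact ⟨rfl, rfl⟩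
        · rintro ⟨h1, h2⟩
          exact ⟨(P.2, P'.2), Prod.ext (Prod.ext h1.symm rfl) (Prod.ext h2.symm rfl)⟩
      · constructor
        · rintro ⟨u, hu⟩
          rw [Prod.ext_iff] at hu
          simp only at hu
          rw [← hu.1, ← hu.2]
          exact ⟨rfl, rfl⟩
        · rintro ⟨h1, h2⟩
          exact ⟨(P.2, P'.2), Prod.ext (Prod.ext h1.symm rfl) (Prod.ext h2.symm rfl)⟩
      · constructor
        · rintro ⟨u, hu⟩
          rw [Prod.ext_iff] at hu
          simp only at hu
          rw [← hu.1, ← hu.2]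
          exact ⟨rfl, rfl⟩
        · rintro ⟨h1, h2⟩
          exact ⟨(P.1, P'.1), Prod.ext (Prod.ext rfl h1.symm) (Prod.ext rfl h2.symm)⟩
    rw [hmem]
    by_cases hy : P.2 = 0
    · have hx : P.1 ≠ 0 := fun h1 => hP.1 (Prod.ext h1 hy)
      have hxe : P.1 ≠ e := fun h1 => hP.2 (Prod.ext h1 hy)
      by_cases hy' : P'.2 = 0
      · have hx' : P'.1 ≠ 0 := fun h1 => hP'.1 (Prod.ext h1 hy')
        have hxe' : P'.1 ≠ e := fun h1 => hP'.2 (Prod.ext h1 hy')
        refine Or.inr ⟨Or.inr (Or.inr ⟨hy, hy'⟩), fun a ha => ?_⟩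
        obtain ⟨h1, h2⟩ := ha
        simp only [lf, AddMonoidHom.coe_mk, ZeroHom.coe_mk, Fin.sum_univ_three, Matrix.cons_val, hy,
          hy'] at h1 h2
        have h3 : P.1 * (P.1 - e) * (a 1 + (P.1 + e)) = 0 := by linear_combination -h1
        have h4 : P'.1 * (P'.1 - e) * (a 1 + (P'.1 + e)) = 0 := by linear_combination -h2
        have h5 := (mul_eq_zero.mp h3).resolve_left (mul_ne_zero hx (sub_ne_zero.mpr hxe))
        have h6 := (mul_eq_zero.mp h4).resolve_left (mul_ne_zero hx' (sub_ne_zero.mpr hxe'))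
        exact h (Prod.ext (by linear_combination h5 - h6) (hy.trans hy'.symm))
      · refine Or.inl ⟨?_, 1, 2, ?_⟩
        · rintro (h0 | h0 | h0)
          · exact hx h0.1
          · exact hxe h0.1
          · exact hy' h0.2
        · simp only [Matrix.cons_val, hy]
          intro h0
          exact mul_ne_zero (mul_ne_zero hx (sub_ne_zero.mpr hxe)) hy' (by linear_combination -h0)
    · by_cases hy' : P'.2 = 0
      · have hx' : P'.1 ≠ 0 := fun h1 => hP'.1 (Prod.ext h1 hy')
        have hxe' : P'.1 ≠ e := fun h1 => hP'.2 (Prod.ext h1 hy')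
        refine Or.inl ⟨?_, 1, 2, ?_⟩
        · rintro (h0 | h0 | h0)
          · exact hx' h0.2
          · exact hxe' h0.2
          · exact hy h0.1
        · simp only [Matrix.cons_val, hy']
          intro h0
          exact mul_ne_zero (mul_ne_zero hx' (sub_ne_zero.mpr hxe')) hy (by linear_combination h0)
      · by_cases hxx : P.1 = P'.1
        · have hyy : P.2 ≠ P'.2 := fun h1 => h (Prod.ext hxx h1)
          by_cases hx0 : P.1 * (P.1 - e) = 0
          · have hcase : (P.1 = 0 ∧ P'.1 = 0) ∨ (P.1 = e ∧ P'.1 = e) := by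
              rcases mul_eq_zero.mp hx0 with h1 | h1
              · exact Or.inl ⟨h1, hxx.symm.trans h1⟩
              · have h2 := sub_eq_zero.mp h1
                exact Or.inr ⟨h2, hxx.symm.trans h2⟩
            refine Or.inr ⟨?_, fun a ha => ?_⟩
            · rcases hcase with h1 | h1
              · exact Or.inl h1
              · exact Or.inr (Or.inl h1)
            · obtain ⟨h1, h2⟩ := ha
              rw [← hxx] at h2
              simp only [lf, AddMonoidHom.coe_mk, ZeroHom.coe_mk, Fin.sum_univ_three,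
                Matrix.cons_val] at h1 h2
              have h3 : P.2 * (P.1 * a 0 + a 2 + P.2) = 0 := by
                linear_combination h1 + (a 1 + P.1 + e) * hx0
              have h4 : P'.2 * (P.1 * a 0 + a 2 + P'.2) = 0 := by
                linear_combination h2 + (a 1 + P.1 + e) * hx0
              have h5 := (mul_eq_zero.mp h3).resolve_left hy
              have h6 := (mul_eq_zero.mp h4).resolve_left hy'
              exact hyy (by linear_combination h5 - h6)
          · refine Or.inl ⟨?_, 1, 2, ?_⟩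
            · rintro (h0 | h0 | h0)
              · exact hx0 (by rw [h0.1, zero_mul])
              · exact hx0 (by rw [h0.1, sub_self, mul_zero])
              · exact hy h0.1
            · simp only [Matrix.cons_val]
              rw [← hxx]
              intro h0
              exact mul_ne_zero hx0 (sub_ne_zero.mpr hyy) (by linear_combination h0)
        · refine Or.inl ⟨?_, 0, 2, ?_⟩
          · rintro (h0 | h0 | h0)
            · exact hxx (h0.1.trans h0.2.symm)
            · exact hxx (h0.1.trans h0.2.symm)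
            · exact hy h0.1
          · simp only [Matrix.cons_val]
            intro h0
            exact mul_ne_zero (mul_ne_zero hy hy') (sub_ne_zero.mpr hxx) (by linear_combination h0)
  card_exc := by
    have h1 : ∀ f : k × k → (k × k) × (k × k), #(Finset.univ.image f) ≤ Fintype.card k ^ 2 := by
      intro f
      refine Finset.card_image_le.trans ?_
      rw [Finset.card_univ, Fintype.card_prod, ← sq]
    refine (Finset.card_union_le _ _).trans ?_
    have h2 := Finset.card_union_le
      (Finset.univ.image fun u : k × k => (((0 : k), u.1), ((0 : k), u.2)))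
      (Finset.univ.image fun u : k × k => ((e, u.1), (e, u.2)))
    have h3 := h1 fun u : k × k => (((0 : k), u.1), ((0 : k), u.2))
    have h4 := h1 fun u : k × k => ((e, u.1), (e, u.2))
    have h5 := h1 fun u : k × k => ((u.1, (0 : k)), (u.2, (0 : k)))
    omega

theorem lsTwo_N {e : k} (he : e ≠ 0) (a : Fin 3 → k) :
    (lsTwo he).N a = Pool.Agent.H341R2.EC.aff (cTwo e a) := by
  rw [aff_eq]
  unfold LS.N
  congr 1
  ext P
  rw [Finset.mem_filter_univ, Finset.mem_filter_univ]
  simp only [lsTwo, lf, AddMonoidHom.coe_mk,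
    ZeroHom.coe_mk, cTwo, Fin.sum_univ_three, Matrix.cons_val]
  constructor <;> intro h <;> linear_combination h

end

end Pool.Agent.Helper89.MM
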