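import Pool.Agent.Helper89.MM.Global
import Pool.Agent.Helper89.MM.Fam

/-!
# The families of curves over a number field
-/

set_option autoImplicit false
set_option linter.unusedSectionVars false

namespace Pool.Agent.Helper89.MM

open NumberField IsDedekindDomain Complex Filter Topology
open Pool.Agent.H921R2.TatePole (nm two_le_nm nm_summable nm_ne_zero)
open Pool.Agent.H341R2.EC (aff csum cub cub_natDegree aff_eq_short short_eq)

/-- Weil's bound, also for singular cubics. -/
theorem csum_le {k : Type*} [Field k] [Fintype k] [DecidableEq k] (h6 : (6 : k) ≠ 0) (c c' : k) :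
    |(csum c c' : ℝ)| ≤ 2 * Real.sqrt (Fintype.card k) := by
  obtain ⟨h2, -⟩ := two_three h6
  have hk : ringChar k ≠ 2 := by
    intro h
    apply h2
    have := ringChar.Nat.cast_ringChar (R := k)
    rw [h] at this
    exact_mod_cast this
  have hdeg := cub_natDegree c c'
  have h1 := Pool.Agent.H341R2.Sharp.weil_sharp hk (cub c c') (by omega) (by
    intro a q hq
    have ha : a ≠ 0 := by
      rintro rfl
      rw [Polynomial.C_0, zero_mul] at hq
      rw [hq] at hdeg
      simp at hdeg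
    have hqd : 2 * q.natDegree = 3 := by
      rw [hq, Polynomial.natDegree_C_mul ha, Polynomial.natDegree_pow] at hdeg
      exact hdeg
    omega)
  rw [hdeg] at h1
  unfold csum
  push_cast
  refine h1.trans (le_of_eq ?_)
  norm_num

theorem aff_weil {k : Type*} [Field k] [Fintype k] [DecidableEq k] (h6 : (6 : k) ≠ 0)
    (V : WeierstrassCurve k) : |(Fintype.card k : ℝ) - aff V| ≤ 2 * Real.sqrt (Fintype.card k) := by
  have h1 := short_eq h6 V.c₄ V.c₆
  rw [← aff_eq_short h6] at h1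
  have h2 : (Fintype.card k : ℝ) - aff V = -(csum V.c₄ V.c₆ : ℝ) := by
    have h3 : ((aff V : ℤ) : ℝ) = ((Fintype.card k + csum V.c₄ V.c₆ : ℤ) : ℝ) := by
      rw [h1]; rfl
    push_cast at h3
    linarith
  rw [h2, abs_neg]
  exact csum_le h6 _ _

theorem five_le_card {k : Type*} [Field k] [Fintype k] (h6 : (6 : k) ≠ 0) : 5 ≤ Fintype.card k := by
  obtain ⟨p, hp⟩ := CharP.exists k
  obtain ⟨n, hpp, hn⟩ := FiniteField.card k p
  have h2 : p ≠ 2 := by
    rintro rfl
    apply h6
    have h := CharP.cast_eq_zero k 2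
    have : (6 : k) = ((2 : ℕ) : k) * 3 := by norm_num
    rw [this, h, zero_mul]
  have h3 : p ≠ 3 := by
    rintro rfl
    apply h6
    have h := CharP.cast_eq_zero k 3
    have : (6 : k) = ((3 : ℕ) : k) * 2 := by norm_num
    rw [this, h, zero_mul]
  have h5 : 5 ≤ p := by
    by_contra h
    have := hpp.two_le
    interval_cases p
    · exact h2 rfl
    · exact h3 rfl
    · exact absurd hpp (by norm_num)
  rw [hn]
  calc 5 ≤ p := h5
    _ = p ^ 1 := (pow_one p).symm
    _ ≤ p ^ (n : ℕ) := Nat.pow_le_pow_right (by omega) n.pos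

section
variable {K : Type} [Field K] [NumberField K] {J : Type} [Fintype J] [DecidableEq J]

attribute [local instance] fintypeV fieldV

theorem mk_six {v : HeightOneSpectrum (𝓞 K)} (h : (6 : 𝓞 K) ∉ v.asIdeal) :
    (6 : 𝓞 K ⧸ v.asIdeal) ≠ 0 := by
  intro h0
  apply h
  rw [← Ideal.Quotient.eq_zero_iff_mem, map_ofNat]
  exact h0

theorem fin_mem {x : 𝓞 K} (hx : x ≠ 0) : ∀ᶠ v : HeightOneSpectrum (𝓞 K) in cofinite, x ∉ v.asIdeal := by
  have h := (Ideal.finite_factors (I := Ideal.span {x}) (by simpa using hx))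
  rw [eventually_cofinite]
  refine h.subset fun v hv => ?_
  simp only [not_not, Set.mem_ofPred_eq] at hv ⊢
  rw [Ideal.dvd_span_singleton]
  exact hv

open Classical in
/-- the data of a family of curves -/
noncomputable def mk (r : ℕ) (hr : r ≤ 2)
    (cv : ∀ v : HeightOneSpectrum (𝓞 K), (J → 𝓞 K ⧸ v.asIdeal) → WeierstrassCurve (𝓞 K ⧸ v.asIdeal))
    (h : ∀ᶠ v : HeightOneSpectrum (𝓞 K) in cofinite,
      (∃ S : LS (𝓞 K ⧸ v.asIdeal) J r, ∀ b, S.N b = aff (cv v b)) ∧
      (Finset.univ.filter fun b : J → 𝓞 K ⧸ v.asIdeal => (cv v b).Δ = 0).card *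
        Fintype.card (𝓞 K ⧸ v.asIdeal) ≤ 4 * Fintype.card (𝓞 K ⧸ v.asIdeal) ^ Fintype.card J) :
    Fam K J where
  r := r
  good v b := (6 : 𝓞 K) ∉ v.asIdeal ∧ (cv v b).Δ ≠ 0
  t v b := if (6 : 𝓞 K) ∈ v.asIdeal then 0 else (nm v : ℝ) - aff (cv v b)
  weil v b := by
    split_ifs with h6
    · rw [abs_zero]; positivity
    · have := aff_weil (mk_six h6) (cv v b)
      rwa [card_v] at this
  five v b hb := by
    have := five_le_card (mk_six hb.1)
    rwa [card_v] at this
  mom1 := by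
    filter_upwards [h, fin_mem (K := K) (x := 6) (by norm_num)] with v hv h6
    obtain ⟨⟨S, hS⟩, -⟩ := hv
    have h1 := S.avg_t
    rw [card_v] at h1
    rw [finsum_eq_sum_of_fintype]
    have h2 : ∀ b, (if (6 : 𝓞 K) ∈ v.asIdeal then 0 else (nm v : ℝ) - aff (cv v b)) = S.t b := by
      intro b
      rw [if_neg h6, LS.t, card_v, hS]
    rw [Finset.sum_congr rfl fun b _ => h2 b, h1]
    have hr' : (r : ℝ) ≤ 2 := by exact_mod_cast hr
    have hq : (2 : ℝ) ≤ nm v := by exact_mod_cast two_le_nm v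
    rw [neg_add_cancel_comm, abs_of_nonneg (by positivity)]
    gcongr
  mom2 := by
    filter_upwards [h, fin_mem (K := K) (x := 6) (by norm_num)] with v hv h6
    obtain ⟨⟨S, hS⟩, -⟩ := hv
    have h1 := S.avg_t_sq hr
    rw [card_v] at h1
    rw [finsum_eq_sum_of_fintype]
    have h2 : ∀ b, (if (6 : 𝓞 K) ∈ v.asIdeal then 0 else (nm v : ℝ) - aff (cv v b)) ^ 2 = S.t b ^ 2 := by
      intro b
      rw [if_neg h6, LS.t, card_v, hS]
    rw [Finset.sum_congr rfl fun b _ => h2 b]
    exact h1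
  bad := by
    filter_upwards [h, fin_mem (K := K) (x := 6) (by norm_num)] with v hv h6
    obtain ⟨-, h2⟩ := hv
    have hq : (2 : ℝ) ≤ nm v := by exact_mod_cast two_le_nm v
    have h3 : Nat.card {b : J → 𝓞 K ⧸ v.asIdeal // ¬ ((6 : 𝓞 K) ∉ v.asIdeal ∧ (cv v b).Δ ≠ 0)} =
        (Finset.univ.filter fun b : J → 𝓞 K ⧸ v.asIdeal => (cv v b).Δ = 0).card := by
      rw [Nat.card_eq_fintype_card, Fintype.card_subtype]
      congr 1
      ext b
      simp [h6]
    rw [h3]
    rw [card_v] at h2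
    have h4 : (((Finset.univ.filter fun b : J → 𝓞 K ⧸ v.asIdeal => (cv v b).Δ = 0).card : ℕ) : ℝ) * nm v ≤
        4 * (nm v : ℝ) ^ Fintype.card J := by exact_mod_cast h2
    rw [div_mul_eq_mul_div, le_div_iff₀ (by linarith)]
    exact h4

end

end Pool.Agent.Helper89.MM
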