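import Mathlib

/-!
# Families of Weierstrass equations over a number field, and their L-series

The definitions used in the statements about the families through `r = 0, 1, 2` marked points.
-/

set_option autoImplicit false

namespace Pool.Agent.Helper89.EllipticFamilies

open NumberField IsDedekindDomain

variable {K : Type} [Field K] [NumberField K]

/-- The trace of Frobenius at `v`: the norm of `v` minus the number of affine points of the reduction
of the Weierstrass equation modulo `v`. -/
noncomputable def trace (W : WeierstrassCurve (𝓞 K)) (v : HeightOneSpectrum (𝓞 K)) : ℤ :=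
  (Ideal.absNorm v.asIdeal : ℤ) -
    Nat.card {p : (𝓞 K ⧸ v.asIdeal) × (𝓞 K ⧸ v.asIdeal) //
      (W.map (Ideal.Quotient.mk v.asIdeal)).toAffine.Equation p.1 p.2}

open Classical in
/-- The reciprocal of the Euler factor at `v`: it is `1 - a_v N v ^ (-s) + N v ^ (1 - 2 s)` if `v` does
not divide `6 Δ`, and `1` otherwise. -/
noncomputable def factor (W : WeierstrassCurve (𝓞 K)) (v : HeightOneSpectrum (𝓞 K)) (s : ℂ) : ℂ :=
  if 6 * W.Δ ∈ v.asIdeal then 1
  else 1 - trace W v * (Ideal.absNorm v.asIdeal : ℂ) ^ (-s) + (Ideal.absNorm v.asIdeal : ℂ) ^ (1 - 2 * s)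

/-- The L-series of a Weierstrass equation, as an Euler product over the primes not dividing `6 Δ`. -/
noncomputable def LSeries (W : WeierstrassCurve (𝓞 K)) (s : ℂ) : ℂ :=
  ∏' v : HeightOneSpectrum (𝓞 K), (factor W v s)⁻¹

/-- The parameters with given integral coordinates with respect to an integral basis. -/
noncomputable def param {I J : Type} [Fintype I] (ω : Module.Basis I ℤ (𝓞 K)) (x : J × I → ℤ) :
    J → 𝓞 K := fun j => ∑ i, x (j, i) • ω i

open Classical in
/-- The integral coordinates, of absolute value at most `H`, of the members with nonzero discriminant of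
the family `c`. -/
noncomputable def box {I J : Type} [Fintype I] [Fintype J] (ω : Module.Basis I ℤ (𝓞 K))
    (c : (J → 𝓞 K) → WeierstrassCurve (𝓞 K)) (H : ℕ) : Finset (J × I → ℤ) :=
  (Fintype.piFinset fun _ => Finset.Icc (-(H : ℤ)) H).filter fun x => (c (param ω x)).Δ ≠ 0

/-- The mean value of `f` over the members with nonzero discriminant and with coordinates of absolute
value at most `H` of the family `c`. -/
noncomputable def mean {I J : Type} [Fintype I] [Fintype J] (ω : Module.Basis I ℤ (𝓞 K))
    (c : (J → 𝓞 K) → WeierstrassCurve (𝓞 K)) (f : WeierstrassCurve (𝓞 K) → ℂ) (H : ℕ) : ℂ :=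
  (∑ x ∈ box ω c H, f (c (param ω x))) / (box ω c H).card

/-- All Weierstrass equations. -/
def zeroPoints (a : Fin 5 → 𝓞 K) : WeierstrassCurve (𝓞 K) := ⟨a 0, a 1, a 2, a 3, a 4⟩

/-- The Weierstrass equations through `(0, 0)`. -/
def onePoint (a : Fin 4 → 𝓞 K) : WeierstrassCurve (𝓞 K) := ⟨a 0, a 1, a 2, a 3, 0⟩

/-- The Weierstrass equations through `(0, 0)` and `(e, 0)`. -/
def twoPoints (e : 𝓞 K) (a : Fin 3 → 𝓞 K) : WeierstrassCurve (𝓞 K) :=
  ⟨a 0, a 1, a 2, -e ^ 2 - e * a 1, 0⟩

end Pool.Agent.Helper89.EllipticFamilies
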