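import Mathlib

/-!
# Taylor expansions, and the mean of a function of the local factor
-/

set_option autoImplicit false

namespace Pool.Agent.Helper89.MM

open Filter Topology Asymptotics

theorem norm_small {c : ℝ} (hc : 0 < c) : ∀ᶠ z : ℂ in 𝓝 0, ‖z‖ < c := by
  filter_upwards [Metric.ball_mem_nhds (0 : ℂ) hc] with z hz
  rwa [mem_ball_zero_iff] at hz

theorem isBigO_pow_le {m n : ℕ} (h : n ≤ m) : (fun z : ℂ => z ^ m) =O[𝓝 0] fun z : ℂ => z ^ n := by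
  obtain ⟨d, rfl⟩ := Nat.exists_eq_add_of_le h
  have h1 : (fun z : ℂ => z ^ d) =O[𝓝 0] fun _ : ℂ => (1 : ℂ) := by
    have : ContinuousAt (fun z : ℂ => z ^ d) 0 := (continuous_pow d).continuousAt
    exact this.norm.isBoundedUnder_le.isBigO_one ℂ
  have h2 := (isBigO_refl (fun z : ℂ => z ^ n) (𝓝 0)).mul h1
  simpa [pow_add] using h2

/-- `(1 - z)⁻¹` -/
theorem inv_exp : (fun z : ℂ => (1 - z)⁻¹ - (1 + z + z ^ 2)) =O[𝓝 0] fun z : ℂ => z ^ 3 := by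
  have h1 : ContinuousAt (fun z : ℂ => (1 - z)⁻¹) 0 := by
    apply ContinuousAt.inv₀
    · fun_prop
    · simp
  have h2 : (fun z : ℂ => (1 - z)⁻¹) =O[𝓝 0] fun _ : ℂ => (1 : ℂ) :=
    h1.norm.isBoundedUnder_le.isBigO_one ℂ
  have h3 := (isBigO_refl (fun z : ℂ => z ^ 3) (𝓝 0)).mul h2
  have h4 : (fun z : ℂ => z ^ 3 * (1 - z)⁻¹) =ᶠ[𝓝 0] fun z : ℂ => (1 - z)⁻¹ - (1 + z + z ^ 2) := by
    have h5 : ∀ᶠ z : ℂ in 𝓝 0, (1 : ℂ) - z ≠ 0 := by
      have : ContinuousAt (fun z : ℂ => (1 : ℂ) - z) 0 := by fun_prop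
      exact this.eventually_ne (by simp)
    filter_upwards [h5] with z hz
    field_simp
    ring
  simp only [mul_one] at h3
  exact h3.congr' h4 (Eventually.of_forall fun _ => rfl)

theorem mul_exp {f g : ℂ → ℂ} {a1 a2 b1 b2 : ℂ}
    (hf : (fun z : ℂ => f z - (1 + a1 * z + a2 * z ^ 2)) =O[𝓝 0] fun z : ℂ => z ^ 3)
    (hg : (fun z : ℂ => g z - (1 + b1 * z + b2 * z ^ 2)) =O[𝓝 0] fun z : ℂ => z ^ 3) :
    (fun z : ℂ => f z * g z - (1 + (a1 + b1) * z + (a2 + a1 * b1 + b2) * z ^ 2)) =O[𝓝 0]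
      fun z : ℂ => z ^ 3 := by
  have hb : ∀ c1 c2 : ℂ, (fun z : ℂ => 1 + c1 * z + c2 * z ^ 2) =O[𝓝 0] fun _ : ℂ => (1 : ℂ) := by
    intro c1 c2
    have : ContinuousAt (fun z : ℂ => 1 + c1 * z + c2 * z ^ 2) 0 := by fun_prop
    exact this.norm.isBoundedUnder_le.isBigO_one ℂ
  have h3 : (fun z : ℂ => z ^ 3) =O[𝓝 0] fun _ : ℂ => (1 : ℂ) := by
    simpa using isBigO_pow_le (Nat.zero_le 3)
  have hg1 : g =O[𝓝 0] fun _ : ℂ => (1 : ℂ) := by
    have := (hg.trans h3).add (hb b1 b2)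
    refine this.congr_left fun z => ?_
    ring
  have e1 := hf.mul hg1
  have e2 := (hb a1 a2).mul hg
  simp only [mul_one, one_mul] at e1 e2
  have e3 : (fun z : ℂ => (a1 * b2 + a2 * b1) * z ^ 3 + a2 * b2 * z ^ 4) =O[𝓝 0] fun z : ℂ => z ^ 3 :=
    ((isBigO_refl _ _).const_mul_left _).add ((isBigO_pow_le (by norm_num)).const_mul_left _)
  refine ((e1.add e2).add e3).congr_left fun z => ?_
  ring

/-- the expansion of `(1 - z) ^ n` for integers `n` -/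
theorem zpow_exp (n : ℤ) :
    (fun z : ℂ => (1 - z) ^ n - (1 + (-n : ℂ) * z + (n * (n - 1) / 2 : ℂ) * z ^ 2)) =O[𝓝 0]
      fun z : ℂ => z ^ 3 := by
  have hne : ∀ᶠ z : ℂ in 𝓝 0, (1 : ℂ) - z ≠ 0 := by
    have : ContinuousAt (fun z : ℂ => (1 : ℂ) - z) 0 := by fun_prop
    exact this.eventually_ne (by simp)
  induction n using Int.induction_on with
  | zero => simpa using isBigO_zero _ _
  | succ n ih =>
    have h1 : (fun z : ℂ => (1 - z) - (1 + (-1 : ℂ) * z + 0 * z ^ 2)) =O[𝓝 0] fun z : ℂ => z ^ 3 := by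
      refine (isBigO_zero (fun z : ℂ => z ^ 3) (𝓝 0)).congr_left fun z => ?_
      ring
    have h2 := mul_exp ih h1
    refine h2.congr' ?_ (Eventually.of_forall fun _ => rfl)
    filter_upwards [hne] with z hz
    rw [zpow_add_one₀ hz]
    push_cast
    ring
  | pred n ih =>
    have h1 : (fun z : ℂ => (1 - z)⁻¹ - (1 + (1 : ℂ) * z + 1 * z ^ 2)) =O[𝓝 0] fun z : ℂ => z ^ 3 := by
      simpa using inv_exp
    have h2 := mul_exp ih h1
    refine h2.congr' ?_ (Eventually.of_forall fun _ => rfl)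
    filter_upwards [hne] with z hz
    rw [zpow_sub_one₀ hz]
    push_cast
    ring

theorem zpow_exp_one (n : ℤ) :
    (fun z : ℂ => (1 - z) ^ n - (1 - n * z)) =O[𝓝 0] fun z : ℂ => z ^ 2 := by
  have h1 := (zpow_exp n).trans (isBigO_pow_le (by norm_num : 2 ≤ 3))
  have h2 : (fun z : ℂ => (n * (n - 1) / 2 : ℂ) * z ^ 2) =O[𝓝 0] fun z : ℂ => z ^ 2 :=
    (isBigO_refl _ _).const_mul_left _
  refine (h1.add h2).congr_left fun z => ?_
  ring

/-- the expansion of the logarithm -/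
theorem log_exp :
    (fun z : ℂ => -Complex.log (1 - z) - (0 + 1 * z + (1 / 2 : ℂ) * z ^ 2)) =O[𝓝 0]
      fun z : ℂ => z ^ 3 := by
  refine IsBigO.of_bound 1 ?_
  have h1 : ∀ᶠ z : ℂ in 𝓝 0, ‖z‖ < 1 / 2 := norm_small (by norm_num)
  filter_upwards [h1] with z hz
  have h2 := Complex.norm_log_sub_logTaylor_le 2 (z := -z) (by rw [norm_neg]; linarith)
  have h3 : Complex.logTaylor 3 (-z) = -z - z ^ 2 / 2 := by
    simp [Complex.logTaylor, Finset.sum_range_succ]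
    ring
  norm_num at h2
  rw [h3, ← sub_eq_add_neg] at h2
  have e : -Complex.log (1 - z) - (0 + 1 * z + (1 / 2 : ℂ) * z ^ 2) =
      -(Complex.log (1 - z) - (-z - z ^ 2 / 2)) := by ring
  rw [e, norm_neg, one_mul, norm_pow]
  refine h2.trans ?_
  have h4 : (1 - ‖z‖)⁻¹ ≤ 2 := by
    rw [inv_le_comm₀ (by linarith) (by norm_num)]
    linarith
  have h5 : 0 ≤ ‖z‖ ^ 3 := by positivity
  calc ‖z‖ ^ 3 * (1 - ‖z‖)⁻¹ / 3 ≤ ‖z‖ ^ 3 * 2 / 3 := by gcongr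
    _ ≤ ‖z‖ ^ 3 := by linarith

/-- the exponential -/
theorem exp_exp : (fun z : ℂ => Complex.exp z - (1 + z)) =O[𝓝 0] fun z : ℂ => z ^ 2 := by
  refine IsBigO.of_bound 1 ?_
  have h1 : ∀ᶠ z : ℂ in 𝓝 0, ‖z‖ < 1 := norm_small (by norm_num)
  filter_upwards [h1] with z hz
  have h2 := Complex.norm_exp_sub_one_sub_id_le hz.le
  rw [one_mul, norm_pow]
  refine le_trans (le_of_eq ?_) h2
  congr 1
  ring

/-- from `O` to a bound on a disc -/
theorem bound_of_isBigO {f : ℂ → ℂ} {n : ℕ} (h : f =O[𝓝 0] fun z : ℂ => z ^ n) :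
    ∃ C ρ : ℝ, 0 ≤ C ∧ 0 < ρ ∧ ∀ z : ℂ, ‖z‖ ≤ ρ → ‖f z‖ ≤ C * ‖z‖ ^ n := by
  obtain ⟨C, hC, hb⟩ := h.exists_nonneg
  rw [IsBigOWith] at hb
  obtain ⟨ρ, hρ, hb⟩ := Metric.eventually_nhds_iff.mp hb
  refine ⟨C, ρ / 2, hC, by positivity, fun z hz => ?_⟩
  have := hb (y := z) (by rw [dist_zero_right]; linarith)
  rwa [norm_pow] at this

set_option maxHeartbeats 1000000 in
/-- **The mean of a function of the local factor.** -/
theorem mean_local {A : Type*} [Fintype A] [Nonempty A] (good : A → Prop) [DecidablePred good]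
    (t : A → ℝ) (φ : ℂ → ℂ) (c0 c1 c2 : ℂ) (C ρ q r : ℝ) (hC : 0 ≤ C) (hq : 1 ≤ q)
    (hφ : ∀ z : ℂ, ‖z‖ ≤ ρ → ‖φ z - (c0 + c1 * z + c2 * z ^ 2)‖ ≤ C * ‖z‖ ^ 3)
    (ht : ∀ a, |t a| ≤ 2 * Real.sqrt q)
    (h1 : |(∑ a, t a) / Fintype.card A + r| ≤ 2 / q)
    (h2 : |(∑ a, t a ^ 2) / Fintype.card A - q| ≤ 30)
    (hb : (Finset.univ.filter fun a => ¬ good a).card ≤ 4 / q * Fintype.card A)
    (T : ℂ) (Q : ℝ) (hQ : Q = Real.sqrt q * ‖T‖) (hQ1 : Q ≤ 1) (hQρ : 3 * Q ≤ ρ) :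
    ‖(∑ a, if good a then φ ((t a : ℂ) * T - q * T ^ 2) else c0) / Fintype.card A -
      (c0 - c1 * r * T + (c2 - c1) * q * T ^ 2)‖ ≤
      (14 * ‖c1‖ + 46 * ‖c2‖ + 27 * C) * (Q ^ 3 + Q / q) := by
  classical
  set n : ℝ := (Fintype.card A : ℝ) with hn
  have hn0 : 0 < n := by rw [hn]; exact_mod_cast Fintype.card_pos
  have hq0 : 0 < q := by linarith
  set sq := Real.sqrt q with hsq
  have hsq0 : 0 < sq := Real.sqrt_pos.mpr hq0
  have hsq1 : 1 ≤ sq := by rw [hsq]; exact Real.one_le_sqrt.mpr hq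
  have hsq2 : sq ^ 2 = q := Real.sq_sqrt hq0.le
  have hQ0 : 0 ≤ Q := by rw [hQ]; positivity
  have hT : ‖T‖ = Q / sq := (eq_div_iff hsq0.ne').mpr (by rw [hQ]; ring)
  have hsQ : sq * (Q / sq) = Q := by rw [mul_div_assoc']; exact mul_div_cancel_left₀ _ hsq0.ne'
  -- the parts
  set G := Finset.univ.filter good with hG
  set Bd := Finset.univ.filter (fun a => ¬ good a) with hBd
  have hcard : (G.card : ℝ) + Bd.card = n := by
    have := Finset.card_filter_add_card_filter_not (s := (Finset.univ : Finset A)) good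
    rw [Finset.card_univ] at this
    rw [hn]
    exact_mod_cast this
  have hbd0 : (0 : ℝ) ≤ Bd.card := Nat.cast_nonneg _
  have hs1 : ∑ a, t a = ∑ a ∈ G, t a + ∑ a ∈ Bd, t a :=
    (Finset.sum_filter_add_sum_filter_not _ _ _).symm
  have hs2 : ∑ a, t a ^ 2 = ∑ a ∈ G, t a ^ 2 + ∑ a ∈ Bd, t a ^ 2 :=
    (Finset.sum_filter_add_sum_filter_not _ _ _).symm
  have hbt : |∑ a ∈ Bd, t a| ≤ 8 / sq * n := by
    calc |∑ a ∈ Bd, t a| ≤ ∑ a ∈ Bd, |t a| := Finset.abs_sum_le_sum_abs _ _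
      _ ≤ ∑ _a ∈ Bd, 2 * sq := Finset.sum_le_sum fun a _ => ht a
      _ = Bd.card * (2 * sq) := by rw [Finset.sum_const, nsmul_eq_mul]
      _ ≤ (4 / q * n) * (2 * sq) := by gcongr
      _ = 8 / sq * n := by rw [← hsq2]; field_simp; ring
  have hbt2 : |∑ a ∈ Bd, t a ^ 2| ≤ 16 * n := by
    calc |∑ a ∈ Bd, t a ^ 2| ≤ ∑ a ∈ Bd, |t a ^ 2| := Finset.abs_sum_le_sum_abs _ _
      _ ≤ ∑ _a ∈ Bd, 4 * q := Finset.sum_le_sum fun a _ => by
          rw [abs_pow, ← hsq2]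
          have := ht a
          have h0 := abs_nonneg (t a)
          nlinarith
      _ = Bd.card * (4 * q) := by rw [Finset.sum_const, nsmul_eq_mul]
      _ ≤ (4 / q * n) * (4 * q) := by gcongr
      _ = 16 * n := by field_simp; ring
  set A1 : ℝ := (∑ a ∈ G, t a) / n with hA1
  set A2 : ℝ := (∑ a ∈ G, t a ^ 2) / n with hA2
  set g : ℝ := G.card / n with hg
  have hA1r : |A1 + r| ≤ 10 / sq := by
    have e : A1 + r = ((∑ a, t a) / n + r) - (∑ a ∈ Bd, t a) / n := by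
      rw [hA1, hs1]; field_simp; ring
    rw [e]
    have h3 : |(∑ a ∈ Bd, t a) / n| ≤ 8 / sq := by
      rw [abs_div, abs_of_pos hn0, div_le_iff₀ hn0]
      exact hbt
    have h4 : 2 / q ≤ 2 / sq := by
      rw [← hsq2]
      apply div_le_div_of_nonneg_left (by norm_num) hsq0
      nlinarith
    calc _ ≤ |(∑ a, t a) / n + r| + |(∑ a ∈ Bd, t a) / n| := abs_sub _ _
      _ ≤ 2 / sq + 8 / sq := add_le_add (h1.trans h4) h3
      _ = _ := by ring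
  have hA1b : |A1| ≤ 2 * sq := by
    rw [hA1, abs_div, abs_of_pos hn0, div_le_iff₀ hn0]
    calc |∑ a ∈ G, t a| ≤ ∑ a ∈ G, |t a| := Finset.abs_sum_le_sum_abs _ _
      _ ≤ ∑ _a ∈ G, 2 * sq := Finset.sum_le_sum fun a _ => ht a
      _ = G.card * (2 * sq) := by rw [Finset.sum_const, nsmul_eq_mul]
      _ ≤ n * (2 * sq) := by gcongr; linarith
      _ = _ := by ring
  have hA2q : |A2 - q| ≤ 46 := by
    have e : A2 - q = ((∑ a, t a ^ 2) / n - q) - (∑ a ∈ Bd, t a ^ 2) / n := by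
      rw [hA2, hs2]; field_simp; ring
    rw [e]
    have h3 : |(∑ a ∈ Bd, t a ^ 2) / n| ≤ 16 := by
      rw [abs_div, abs_of_pos hn0, div_le_iff₀ hn0]
      exact hbt2
    calc _ ≤ |(∑ a, t a ^ 2) / n - q| + |(∑ a ∈ Bd, t a ^ 2) / n| := abs_sub _ _
      _ ≤ 30 + 16 := add_le_add h2 h3
      _ = _ := by norm_num
  have hg1 : |g - 1| ≤ 4 / q := by
    have e : g - 1 = -(Bd.card / n) := by
      rw [hg, ← hcard]
      have : (G.card : ℝ) + Bd.card ≠ 0 := by rw [hcard]; exact hn0.ne'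
      field_simp
      ring
    rw [e, abs_neg, abs_of_nonneg (div_nonneg hbd0 hn0.le), div_le_iff₀ hn0]
    exact hb
  have hg0 : 0 ≤ g := by rw [hg]; exact div_nonneg (Nat.cast_nonneg _) hn0.le
  have hg2 : g ≤ 1 := by
    rw [hg, div_le_one hn0]; linarith
  -- the remainder
  set z : A → ℂ := fun a => (t a : ℂ) * T - q * T ^ 2 with hz
  have hzb : ∀ a, ‖z a‖ ≤ 3 * Q := by
    intro a
    have e1 : ‖(t a : ℂ) * T‖ ≤ 2 * Q := by
      rw [norm_mul, Complex.norm_real, Real.norm_eq_abs, hT]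
      calc |t a| * (Q / sq) ≤ 2 * sq * (Q / sq) := by gcongr; exact ht a
        _ = 2 * Q := by linear_combination 2 * hsQ
    have e2 : ‖(q : ℂ) * T ^ 2‖ ≤ Q := by
      rw [norm_mul, Complex.norm_real, Real.norm_eq_abs, abs_of_pos hq0, norm_pow, hT, ← hsq2]
      calc sq ^ 2 * (Q / sq) ^ 2 = Q * Q := by linear_combination (sq * (Q / sq) + Q) * hsQ
        _ ≤ Q * 1 := by gcongr
        _ = Q := mul_one _
    calc ‖z a‖ ≤ ‖(t a : ℂ) * T‖ + ‖(q : ℂ) * T ^ 2‖ := norm_sub_le _ _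
      _ ≤ _ := by linarith
  set Er : ℂ := (∑ a ∈ G, (φ (z a) - (c0 + c1 * z a + c2 * z a ^ 2))) / n with hEr
  have hErb : ‖Er‖ ≤ 27 * C * Q ^ 3 := by
    rw [hEr, norm_div, Complex.norm_real, Real.norm_eq_abs, abs_of_pos hn0, div_le_iff₀ hn0]
    calc _ ≤ ∑ a ∈ G, ‖φ (z a) - (c0 + c1 * z a + c2 * z a ^ 2)‖ := norm_sum_le _ _
      _ ≤ ∑ _a ∈ G, C * (3 * Q) ^ 3 := Finset.sum_le_sum fun a _ => by
          refine (hφ (z a) ((hzb a).trans hQρ)).trans ?_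
          gcongr
          exact hzb a
      _ = G.card * (C * (3 * Q) ^ 3) := by rw [Finset.sum_const, nsmul_eq_mul]
      _ ≤ n * (C * (3 * Q) ^ 3) := by gcongr; linarith
      _ = _ := by ring
  -- the identity
  have hnC : (n : ℂ) ≠ 0 := by exact_mod_cast hn0.ne'
  have hid : (∑ a, if good a then φ (z a) else c0) / n =
      c0 + c1 * (T * A1 - q * T ^ 2 * g) + c2 * (T ^ 2 * A2 - 2 * q * T ^ 3 * A1 + q ^ 2 * T ^ 4 * g) +
        Er := by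
    have e1 : (∑ a, if good a then φ (z a) else c0) = n * c0 + ∑ a ∈ G, (φ (z a) - c0) := by
      have h3 : ∀ a, (if good a then φ (z a) else c0) = c0 + (if good a then φ (z a) - c0 else 0) := by
        intro a; split_ifs <;> ring
      rw [Finset.sum_congr rfl fun a _ => h3 a, Finset.sum_add_distrib, Finset.sum_const,
        Finset.card_univ, nsmul_eq_mul, ← Finset.sum_filter, hn]
      push_cast
      rfl
    have e2 : ∑ a ∈ G, (φ (z a) - c0) = ∑ a ∈ G, (φ (z a) - (c0 + c1 * z a + c2 * z a ^ 2)) +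
        (c1 * ∑ a ∈ G, z a + c2 * ∑ a ∈ G, z a ^ 2) := by
      rw [Finset.mul_sum, Finset.mul_sum, ← Finset.sum_add_distrib, ← Finset.sum_add_distrib]
      refine Finset.sum_congr rfl fun a _ => ?_
      ring
    have e3 : ∑ a ∈ G, z a = T * ((∑ a ∈ G, t a : ℝ) : ℂ) - q * T ^ 2 * G.card := by
      simp only [hz]
      rw [Finset.sum_sub_distrib, Finset.sum_const, nsmul_eq_mul]
      push_cast
      rw [← Finset.sum_mul]
      ring
    have e4 : ∑ a ∈ G, z a ^ 2 = T ^ 2 * ((∑ a ∈ G, t a ^ 2 : ℝ) : ℂ) -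
        2 * q * T ^ 3 * ((∑ a ∈ G, t a : ℝ) : ℂ) + q ^ 2 * T ^ 4 * G.card := by
      have h3 : ∀ a, z a ^ 2 = T ^ 2 * (t a : ℂ) ^ 2 - 2 * q * T ^ 3 * (t a : ℂ) + q ^ 2 * T ^ 4 := by
        intro a; simp only [hz]; ring
      rw [Finset.sum_congr rfl fun a _ => h3 a, Finset.sum_add_distrib, Finset.sum_sub_distrib,
        Finset.sum_const, nsmul_eq_mul]
      push_cast
      rw [← Finset.mul_sum, ← Finset.mul_sum]
      ring
    rw [e1, e2, e3, e4, hEr, hA1, hA2, hg]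
    generalize (∑ a ∈ G, (φ (z a) - (c0 + c1 * z a + c2 * z a ^ 2))) = SE
    generalize (∑ a ∈ G, t a) = S1
    generalize (∑ a ∈ G, t a ^ 2) = S2
    push_cast
    field_simp
    ring
  have hnn : ((Fintype.card A : ℕ) : ℂ) = (n : ℂ) := by rw [hn]; push_cast; rfl
  rw [hnn]
  change ‖(∑ a, if good a then φ (z a) else c0) / (n : ℂ) - (c0 - c1 * r * T + (c2 - c1) * q * T ^ 2)‖ ≤ _
  rw [hid]
  have hD : c0 + c1 * (T * A1 - q * T ^ 2 * g) + c2 * (T ^ 2 * A2 - 2 * q * T ^ 3 * A1 + q ^ 2 * T ^ 4 * g) +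
        Er - (c0 - c1 * r * T + (c2 - c1) * q * T ^ 2) =
      c1 * (T * (A1 + r : ℝ)) - c1 * (q * T ^ 2 * (g - 1 : ℝ)) + c2 * (T ^ 2 * (A2 - q : ℝ)) -
        c2 * (2 * q * T ^ 3 * A1) + c2 * (q ^ 2 * T ^ 4 * g) + Er := by
    push_cast
    ring
  rw [hD]
  have b1 : ‖T * ((A1 + r : ℝ) : ℂ)‖ ≤ 10 * (Q / q) := by
    rw [norm_mul, Complex.norm_real, Real.norm_eq_abs, hT]
    calc Q / sq * |A1 + r| ≤ Q / sq * (10 / sq) := by gcongr
      _ = _ := by rw [← hsq2]; field_simp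
  have b2 : ‖(q : ℂ) * T ^ 2 * ((g - 1 : ℝ) : ℂ)‖ ≤ 4 * (Q / q) := by
    rw [norm_mul, norm_mul, Complex.norm_real, Complex.norm_real, Real.norm_eq_abs, Real.norm_eq_abs,
      abs_of_pos hq0, norm_pow, hT]
    calc q * (Q / sq) ^ 2 * |g - 1| ≤ q * (Q / sq) ^ 2 * (4 / q) := by gcongr
      _ = 4 * (Q / q) * Q := by rw [← hsq2]; field_simp
      _ ≤ 4 * (Q / q) * 1 := by gcongr
      _ = _ := mul_one _
  have b3 : ‖T ^ 2 * ((A2 - q : ℝ) : ℂ)‖ ≤ 46 * (Q / q) := by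
    rw [norm_mul, Complex.norm_real, Real.norm_eq_abs, norm_pow, hT]
    calc (Q / sq) ^ 2 * |A2 - q| ≤ (Q / sq) ^ 2 * 46 := by gcongr
      _ = 46 * (Q / q) * Q := by rw [← hsq2]; field_simp
      _ ≤ 46 * (Q / q) * 1 := by gcongr
      _ = _ := mul_one _
  have b4 : ‖2 * (q : ℂ) * T ^ 3 * (A1 : ℂ)‖ ≤ 4 * Q ^ 3 := by
    rw [norm_mul, norm_mul, norm_mul, Complex.norm_real, Complex.norm_real, Real.norm_eq_abs,
      Real.norm_eq_abs, abs_of_pos hq0, norm_pow, hT, Complex.norm_ofNat]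
    calc 2 * q * (Q / sq) ^ 3 * |A1| ≤ 2 * q * (Q / sq) ^ 3 * (2 * sq) := by gcongr
      _ = _ := by rw [← hsq2]; field_simp; ring
  have b5 : ‖(q : ℂ) ^ 2 * T ^ 4 * (g : ℂ)‖ ≤ Q ^ 3 := by
    rw [norm_mul, norm_mul, norm_pow, Complex.norm_real, Complex.norm_real, Real.norm_eq_abs,
      Real.norm_eq_abs, abs_of_pos hq0, norm_pow, hT, abs_of_nonneg hg0]
    calc q ^ 2 * (Q / sq) ^ 4 * g ≤ q ^ 2 * (Q / sq) ^ 4 * 1 := by gcongr
      _ = Q ^ 3 * Q := by rw [← hsq2]; field_simp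
      _ ≤ Q ^ 3 * 1 := by gcongr
      _ = _ := mul_one _
  have hQ3 : 0 ≤ Q ^ 3 := by positivity
  have hQq : 0 ≤ Q / q := by positivity
  have n1 := norm_nonneg c1
  have n2 := norm_nonneg c2
  calc _ ≤ ‖c1 * (T * (A1 + r : ℝ))‖ + ‖c1 * (q * T ^ 2 * (g - 1 : ℝ))‖ + ‖c2 * (T ^ 2 * (A2 - q : ℝ))‖ +
        ‖c2 * (2 * q * T ^ 3 * A1)‖ + ‖c2 * (q ^ 2 * T ^ 4 * g)‖ + ‖Er‖ := by
        refine (norm_add_le _ _).trans (add_le_add ?_ le_rfl)
        refine (norm_add_le _ _).trans (add_le_add ?_ le_rfl)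
        refine (norm_sub_le _ _).trans (add_le_add ?_ le_rfl)
        refine (norm_add_le _ _).trans (add_le_add ?_ le_rfl)
        exact norm_sub_le _ _
    _ ≤ ‖c1‖ * (10 * (Q / q)) + ‖c1‖ * (4 * (Q / q)) + ‖c2‖ * (46 * (Q / q)) +
        ‖c2‖ * (4 * Q ^ 3) + ‖c2‖ * Q ^ 3 + 27 * C * Q ^ 3 := by
        rw [norm_mul c1, norm_mul c1, norm_mul c2, norm_mul c2, norm_mul c2]
        gcongr
    _ ≤ (14 * ‖c1‖ + 46 * ‖c2‖ + 27 * C) * (Q ^ 3 + Q / q) := by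
        nlinarith [mul_nonneg n1 hQ3, mul_nonneg n2 hQ3, mul_nonneg hC hQq, mul_nonneg n1 hQq,
          mul_nonneg n2 hQq, mul_nonneg hC hQ3]

end Pool.Agent.Helper89.MM
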