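import Pool.Agent.Helper89.MM.Curves

/-!
# The mean values as meromorphic functions
-/

set_option autoImplicit false
set_option linter.unusedSectionVars false

namespace Pool.Agent.Helper89.MM

open NumberField IsDedekindDomain Complex Filter Topology
open Pool.Agent.H921R2.TatePole (nm two_le_nm nm_summable nm_ne_zero)

/-- **Continuation, and the order at the point `1`.** -/
theorem cont (K : Type) [Field K] [NumberField K] {G : ℂ → ℂ} (hG : DifferentiableOn ℂ G UU)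
    (hG1 : G 1 ≠ 0) (α β : ℤ) :
    ∃ M : ℂ → ℂ, MeromorphicOn M UU ∧ meromorphicOrderAt M 1 = ((-α - β : ℤ) : WithTop ℤ) ∧
      ∀ s : ℂ, 1 < s.re → M s = G s * dedekindZeta K s ^ α * dedekindZeta K (2 * s - 1) ^ β := by
  obtain ⟨H, hH, hH1, hHz⟩ := zeta_cont K
  have hU : IsOpen UU := isOpen_re _
  have hU0 : IsOpen {s : ℂ | 0 < s.re} := isOpen_re _
  have aG : ∀ s ∈ UU, AnalyticAt ℂ G s := fun s hs => hG.analyticAt (hU.mem_nhds hs)
  have aH : ∀ s : ℂ, 0 < s.re → AnalyticAt ℂ H s := fun s hs => hH.analyticAt (hU0.mem_nhds hs)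
  have aH2 : ∀ s ∈ UU, AnalyticAt ℂ (fun s => H (2 * s - 1)) s := by
    intro s hs
    have hs' : (5 : ℝ) / 6 < s.re := hs
    have h1 : AnalyticAt ℂ (fun s : ℂ => 2 * s - 1) s := by fun_prop
    exact AnalyticAt.fun_comp (aH (2 * s - 1) (by simp; linarith)) h1
  refine ⟨fun s => G s * (H s / (s - 1)) ^ α * (H (2 * s - 1) / (2 * (s - 1))) ^ β, ?_, ?_, ?_⟩
  · intro s hs
    have hs' : (5 : ℝ) / 6 < s.re := hs
    have m1 : MeromorphicAt (fun s : ℂ => s - 1) s := by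
      have : AnalyticAt ℂ (fun s : ℂ => s - 1) s := by fun_prop
      exact this.meromorphicAt
    have m2 : MeromorphicAt (fun s : ℂ => 2 * (s - 1)) s := by
      have : AnalyticAt ℂ (fun s : ℂ => 2 * (s - 1)) s := by fun_prop
      exact this.meromorphicAt
    exact ((aG s hs).meromorphicAt.mul (((aH s (by linarith)).meromorphicAt.div m1).zpow α)).mul
      (((aH2 s hs).meromorphicAt.div m2).zpow β)
  · have h1U : (1 : ℂ) ∈ UU := by show (5 : ℝ) / 6 < (1 : ℂ).re; norm_num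
    have e21 : (2 * 1 - 1 : ℂ) = 1 := by norm_num
    have hm : MeromorphicAt (fun s => G s * (H s / (s - 1)) ^ α * (H (2 * s - 1) / (2 * (s - 1))) ^ β) 1 := by
      have m1 : MeromorphicAt (fun s : ℂ => s - 1) 1 := by
        have : AnalyticAt ℂ (fun s : ℂ => s - 1) 1 := by fun_prop
        exact this.meromorphicAt
      have m2 : MeromorphicAt (fun s : ℂ => 2 * (s - 1)) 1 := by
        have : AnalyticAt ℂ (fun s : ℂ => 2 * (s - 1)) 1 := by fun_prop
        exact this.meromorphicAt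
      exact ((aG 1 h1U).meromorphicAt.mul (((aH 1 (by simp)).meromorphicAt.div m1).zpow α)).mul
        (((aH2 1 h1U).meromorphicAt.div m2).zpow β)
    rw [meromorphicOrderAt_eq_int_iff hm]
    refine ⟨fun s => G s * H s ^ α * (H (2 * s - 1) / 2) ^ β, ?_, ?_, ?_⟩
    · refine ((aG 1 h1U).mul ((aH 1 (by simp)).zpow hH1)).mul ?_
      refine ((aH2 1 h1U).div analyticAt_const (by norm_num)).zpow ?_
      show H (2 * 1 - 1) / 2 ≠ 0
      rw [e21]
      exact div_ne_zero hH1 (by norm_num)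
    · simp only [e21]
      exact mul_ne_zero (mul_ne_zero hG1 (zpow_ne_zero _ hH1))
        (zpow_ne_zero _ (div_ne_zero hH1 (by norm_num)))
    · filter_upwards [self_mem_nhdsWithin] with s hs
      have hs1 : s - 1 ≠ 0 := sub_ne_zero.mpr hs
      rw [smul_eq_mul, zpow_sub₀ hs1, zpow_neg, div_zpow, div_zpow, div_zpow, mul_zpow]
      have h2 : (2 : ℂ) ^ β ≠ 0 := zpow_ne_zero _ (by norm_num)
      have h3 := zpow_ne_zero α hs1
      have h4 := zpow_ne_zero β hs1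
      generalize (s - 1) ^ α = A at h3 ⊢
      generalize (s - 1) ^ β = B at h4 ⊢
      generalize (2 : ℂ) ^ β = C at h2 ⊢
      field_simp
  · intro s hs
    have hs2 : 1 < (2 * s - 1).re := by simp; linarith
    simp only
    rw [hHz s hs, hHz _ hs2]
    congr 3
    ring

namespace Fam

variable {K : Type} [Field K] [NumberField K] {J : Type} [Fintype J] [DecidableEq J] (F : Fam K J)

theorem main_power {ns : (J → 𝓞 K) → Prop} [DecidablePred ns]
    (hns : ∀ᶠ v : HeightOneSpectrum (𝓞 K) in cofinite, ∀ a, ¬ ns a → ¬ F.good v (redJ v a)) (k : ℤ) :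
    ∃ M : ℂ → ℂ, MeromorphicOn M UU ∧
      meromorphicOrderAt M 1 = ((k * F.r - k * (k - 1) / 2 : ℤ) : WithTop ℤ) ∧
      (∃ G : ℂ → ℂ, DifferentiableOn ℂ G UU ∧ G 1 ≠ 0 ∧ ∀ s : ℂ, 1 < s.re →
        M s = G s * dedekindZeta K s ^ (-(k * F.r)) * dedekindZeta K (2 * s - 1) ^ (k * (k - 1) / 2)) ∧
      ∀ (I : Type) [Fintype I] [DecidableEq I] (ω : Module.Basis I ℤ (𝓞 K)) (s : ℂ), 3 / 2 < s.re →
        Tendsto (fun H : ℕ => (∑ x ∈ (box (J × I) H).filter fun x => ns (pt ω x), F.L (pt ω x) s ^ k) /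
          (((box (J × I) H).filter fun x => ns (pt ω x)).card : ℂ)) atTop (𝓝 (M s)) := by
  obtain ⟨G, hG, hG1, hprod⟩ := F.power k
  obtain ⟨M, hM, hord, hMs⟩ := cont K hG hG1 (-(k * F.r)) (k * (k - 1) / 2)
  refine ⟨M, hM, ?_, ⟨G, hG, hG1, hMs⟩, ?_⟩
  · rw [hord, neg_neg]
  · intro I _ _ ω s hs
    have h1 := F.mean_power ω k hs (hprod s (by linarith))
    rw [← hMs s (by linarith)] at h1
    obtain ⟨B, hB⟩ := F.power_le k hs
    exact mean_ns (ns := fun x : J × I → ℤ => ns (pt ω x)) (fun x => hB (pt ω x)) h1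
      (F.sing_zero ω hns)

theorem main_log {ns : (J → 𝓞 K) → Prop} [DecidablePred ns]
    (hns : ∀ᶠ v : HeightOneSpectrum (𝓞 K) in cofinite, ∀ a, ¬ ns a → ¬ F.good v (redJ v a)) :
    ∃ M : ℂ → ℂ, MeromorphicOn M UU ∧
      meromorphicOrderAt M 1 = ((2 * F.r + 1 : ℤ) : WithTop ℤ) ∧
      (∃ G : ℂ → ℂ, DifferentiableOn ℂ G UU ∧ G 1 ≠ 0 ∧ ∀ s : ℂ, 1 < s.re →
        M s = G s * dedekindZeta K s ^ (-(2 * F.r) : ℤ) * dedekindZeta K (2 * s - 1) ^ (-1 : ℤ)) ∧
      ∀ (I : Type) [Fintype I] [DecidableEq I] (ω : Module.Basis I ℤ (𝓞 K)) (s : ℂ), 3 / 2 < s.re →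
        ∃ Λ : ℂ, Tendsto (fun H : ℕ => (∑ x ∈ (box (J × I) H).filter fun x => ns (pt ω x),
          F.logL (pt ω x) s) / (((box (J × I) H).filter fun x => ns (pt ω x)).card : ℂ)) atTop (𝓝 Λ) ∧
          cexp (2 * Λ) = M s := by
  obtain ⟨G, hG, hG1, hprod⟩ := F.logs
  obtain ⟨M, hM, hord, hMs⟩ := cont K hG hG1 (-(2 * F.r)) (-1)
  refine ⟨M, hM, ?_, ⟨G, hG, hG1, hMs⟩, ?_⟩
  · rw [hord]
    congr 1
    ring
  · intro I _ _ ω s hs
    obtain ⟨Λ, h1, -, h2⟩ := F.mean_log (J := J) ω hs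
    refine ⟨Λ, ?_, ?_⟩
    · exact mean_ns (ns := fun x : J × I → ℤ => ns (pt ω x)) (fun x => F.logL_le (pt ω x) hs) h1
        (F.sing_zero ω hns)
    · rw [hMs s (by linarith)]
      exact HasProd.unique h2 (hprod s (by linarith))

end Fam

end Pool.Agent.Helper89.MM
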