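import Pool.Agent.Helper89.MM.Box

/-!
# Means over boxes of infinite products
-/

set_option autoImplicit false

namespace Pool.Agent.Helper89.MM

open Finset Filter Topology

section
variable {ι : Type*} [Fintype ι] [DecidableEq ι]

/-- the mean over the box -/
noncomputable def mean (F : (ι → ℤ) → ℂ) (H : ℕ) : ℂ :=
  (∑ x ∈ box ι H, F x) / (2 * H + 1) ^ Fintype.card ι

theorem den_norm (H : ℕ) : ‖((2 * H + 1 : ℂ) ^ Fintype.card ι)‖ = (box ι H).card := by
  rw [card_box, norm_pow]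
  congr 1
  have : (2 * H + 1 : ℂ) = ((2 * H + 1 : ℕ) : ℂ) := by push_cast; ring
  rw [this, Complex.norm_natCast]
  push_cast; ring

theorem card_box_pos (H : ℕ) : (0 : ℝ) < (box ι H).card := by
  rw [card_box]; positivity

theorem mean_close {F G : (ι → ℤ) → ℂ} {ε : ℝ} (h : ∀ x, ‖F x - G x‖ ≤ ε) (H : ℕ) :
    ‖mean F H - mean G H‖ ≤ ε := by
  unfold mean
  rw [← sub_div, ← Finset.sum_sub_distrib, norm_div, den_norm, div_le_iff₀ (card_box_pos H)]
  calc ‖∑ x ∈ box ι H, (F x - G x)‖ ≤ ∑ _x ∈ box ι H, ε := norm_sum_le_of_le _ fun x _ => h x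
    _ = _ := by rw [Finset.sum_const, nsmul_eq_mul, mul_comm]

/-- **Interchange of the mean and a uniform limit.** -/
theorem mean_lim {S : Type*} {l : Filter S} [l.NeBot] {F : (ι → ℤ) → ℂ} {FS : S → (ι → ℤ) → ℂ}
    {m : S → ℂ} {M : ℂ} (h1 : ∀ S, Tendsto (mean (FS S)) atTop (𝓝 (m S)))
    (h2 : ∀ ε : ℝ, 0 < ε → ∀ᶠ S in l, ∀ x, ‖FS S x - F x‖ ≤ ε)
    (h3 : Tendsto m l (𝓝 M)) : Tendsto (mean F) atTop (𝓝 M) := by
  rw [Metric.tendsto_nhds]
  intro ε hε
  obtain ⟨S, hS1, hS2⟩ := ((h2 (ε / 4) (by positivity)).and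
    ((Metric.tendsto_nhds.mp h3) (ε / 4) (by positivity))).exists
  filter_upwards [(Metric.tendsto_nhds.mp (h1 S)) (ε / 4) (by positivity)] with H hH
  have e1 := mean_close hS1 H
  rw [dist_eq_norm] at hS2 hH ⊢
  have e2 : mean F H - M = (mean (FS S) H - m S) + (m S - M) - (mean (FS S) H - mean F H) := by ring
  rw [e2]
  calc _ ≤ ‖(mean (FS S) H - m S) + (m S - M)‖ + ‖mean (FS S) H - mean F H‖ := norm_sub_le _ _
    _ ≤ ‖mean (FS S) H - m S‖ + ‖m S - M‖ + ‖mean (FS S) H - mean F H‖ := by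
        gcongr; exact norm_add_le _ _
    _ < ε := by linarith

/-- a set of density zero -/
theorem dens_zero {ns : (ι → ℤ) → Prop} [DecidablePred ns]
    (h : ∀ ε : ℝ, 0 < ε → ∃ (f : (ι → ℤ) → ℂ) (m : ℂ), (∀ x, ¬ ns x → f x = 1) ∧
      (∀ x, f x = 0 ∨ f x = 1) ∧ Tendsto (mean f) atTop (𝓝 m) ∧ ‖m‖ ≤ ε) :
    Tendsto (fun H : ℕ => (((box ι H).filter fun x => ¬ ns x).card : ℝ) / (2 * H + 1) ^ Fintype.card ι)
      atTop (𝓝 0) := by
  rw [Metric.tendsto_nhds]
  intro ε hε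
  obtain ⟨f, m, h1, h2, h3, h4⟩ := h (ε / 2) (by positivity)
  filter_upwards [(Metric.tendsto_nhds.mp h3) (ε / 2) (by positivity)] with H hH
  rw [dist_eq_norm] at hH
  rw [dist_zero_right, Real.norm_eq_abs, abs_of_nonneg (by positivity)]
  have e1 : ‖mean f H‖ < ε := by
    calc ‖mean f H‖ = ‖(mean f H - m) + m‖ := by rw [sub_add_cancel]
      _ ≤ ‖mean f H - m‖ + ‖m‖ := norm_add_le _ _
      _ < ε := by linarith
  refine lt_of_le_of_lt ?_ e1
  unfold mean
  have e2 : ∀ x, f x = ((if f x = 1 then 1 else 0 : ℕ) : ℂ) := by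
    intro x
    rcases h2 x with h | h <;> simp [h]
  have e3 : ∑ x ∈ box ι H, f x = (((box ι H).filter fun x => f x = 1).card : ℂ) := by
    rw [Finset.card_filter, Nat.cast_sum]
    exact Finset.sum_congr rfl fun x _ => e2 x
  rw [e3, norm_div, Complex.norm_natCast, den_norm, card_box]
  gcongr with x
  exact h1 x

theorem dens_one {ns : (ι → ℤ) → Prop} [DecidablePred ns]
    (h : Tendsto (fun H : ℕ => (((box ι H).filter fun x => ¬ ns x).card : ℝ) /
      (2 * H + 1) ^ Fintype.card ι) atTop (𝓝 0)) :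
    Tendsto (fun H : ℕ => (((box ι H).filter fun x => ns x).card : ℝ) / (2 * H + 1) ^ Fintype.card ι)
      atTop (𝓝 1) := by
  have h1 := h.const_sub 1
  rw [sub_zero] at h1
  refine h1.congr fun H => ?_
  have h2 : (((box ι H).filter fun x => ns x).card : ℝ) + ((box ι H).filter fun x => ¬ ns x).card =
      (2 * H + 1 : ℝ) ^ Fintype.card ι := by
    rw [← card_box]
    exact_mod_cast Finset.card_filter_add_card_filter_not (s := box ι H) ns
  have h3 : (2 * H + 1 : ℝ) ^ Fintype.card ι ≠ 0 := by positivity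
  field_simp
  linarith

/-- **Removing a set of density zero.** -/
theorem mean_ns {ns : (ι → ℤ) → Prop} [DecidablePred ns] {F : (ι → ℤ) → ℂ} {B : ℝ} {M : ℂ}
    (hB : ∀ x, ‖F x‖ ≤ B) (hM : Tendsto (mean F) atTop (𝓝 M))
    (h : Tendsto (fun H : ℕ => (((box ι H).filter fun x => ¬ ns x).card : ℝ) /
      (2 * H + 1) ^ Fintype.card ι) atTop (𝓝 0)) :
    Tendsto (fun H : ℕ => (∑ x ∈ (box ι H).filter fun x => ns x, F x) /
      (((box ι H).filter fun x => ns x).card : ℂ)) atTop (𝓝 M) := by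
  have h1 := dens_one h
  have h2 : Tendsto (fun H : ℕ => (∑ x ∈ (box ι H).filter fun x => ¬ ns x, F x) /
      (2 * H + 1 : ℂ) ^ Fintype.card ι) atTop (𝓝 0) := by
    rw [tendsto_zero_iff_norm_tendsto_zero]
    have h3 := h.const_mul B
    rw [mul_zero] at h3
    refine squeeze_zero (fun _ => norm_nonneg _) (fun H => ?_) h3
    rw [norm_div, den_norm, card_box, ← mul_div_assoc]
    gcongr
    calc _ ≤ ∑ _x ∈ (box ι H).filter fun x => ¬ ns x, B := norm_sum_le_of_le _ fun x _ => hB x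
      _ = _ := by rw [Finset.sum_const, nsmul_eq_mul, mul_comm]
  have h3 : Tendsto (fun H : ℕ => (∑ x ∈ (box ι H).filter fun x => ns x, F x) /
      (2 * H + 1 : ℂ) ^ Fintype.card ι) atTop (𝓝 M) := by
    have h4 := hM.sub h2
    rw [sub_zero] at h4
    refine h4.congr fun H => ?_
    unfold mean
    rw [← sub_div]
    congr 1
    rw [sub_eq_iff_eq_add]
    exact (Finset.sum_filter_add_sum_filter_not _ _ _).symm
  have h4 : Tendsto (fun H : ℕ => (((((box ι H).filter fun x => ns x).card : ℝ) /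
      (2 * H + 1) ^ Fintype.card ι : ℝ) : ℂ)) atTop (𝓝 ((1 : ℝ) : ℂ)) :=
    (Complex.continuous_ofReal.tendsto _).comp h1
  have h5 := h3.div h4 (by simp)
  rw [Complex.ofReal_one, div_one] at h5
  refine h5.congr fun H => ?_
  have h6 : (2 * H + 1 : ℂ) ^ Fintype.card ι ≠ 0 := by
    rw [← norm_ne_zero_iff, den_norm]
    exact (card_box_pos H).ne'
  push_cast
  by_cases h7 : (((box ι H).filter fun x => ns x).card : ℂ) = 0
  · simp only [Pi.div_apply, h7, zero_div, div_zero]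
  · simp only [Pi.div_apply]
    field_simp

theorem mean_sum {S : Type*} (s : Finset S) (F : S → (ι → ℤ) → ℂ) (H : ℕ) :
    mean (fun x => ∑ v ∈ s, F v x) H = ∑ v ∈ s, mean (F v) H := by
  unfold mean
  rw [Finset.sum_comm, Finset.sum_div]

/-- the mean of a product over a finite set of primes -/
theorem mean_prod {V : Type*} (S : Finset V) (A : V → Type*) [∀ v, AddCommGroup (A v)]
    [∀ v, Fintype (A v)] (φ : ∀ v, (ι → ℤ) →+ A v)
    (hφ : Function.Surjective fun (x : ι → ℤ) (v : S) => φ v x) (f : ∀ v, A v → ℂ) :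
    Tendsto (mean fun x => ∏ v ∈ S, f v (φ v x)) atTop
      (𝓝 (∏ v ∈ S, (∑ a, f v a) / Fintype.card (A v))) := by
  classical
  have h1 := mean_tendsto (A := ∀ v : S, A v) (AddMonoidHom.pi fun v : S => φ v) hφ
    (fun a => ∏ v : S, f v (a v))
  have h2 : (∑ a : ∀ v : S, A v, ∏ v : S, f v (a v)) / (Fintype.card (∀ v : S, A v) : ℂ) =
      ∏ v ∈ S, (∑ a, f v a) / Fintype.card (A v) := by
    rw [← Finset.prod_coe_sort S, Finset.prod_div_distrib, Fintype.card_pi, Nat.cast_prod]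
    congr 1
    rw [Finset.prod_univ_sum, Fintype.piFinset_univ]
  rw [h2] at h1
  refine h1.congr fun H => ?_
  unfold mean
  congr 1
  refine Finset.sum_congr rfl fun x _ => ?_
  exact Finset.prod_coe_sort S (fun v => f v (φ v x))

end

end Pool.Agent.Helper89.MM
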