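import Pool.Agent.Helper89.MM.Local
import Pool.Agent.Helper89.MM.Glob

/-!
# Means of Euler products over boxes
-/

set_option autoImplicit false
set_option linter.unusedSectionVars false

namespace Pool.Agent.Helper89.MM

open NumberField IsDedekindDomain Complex Filter Topology
open Pool.Agent.H921R2.TatePole (nm two_le_nm nm_summable nm_ne_zero)

variable {K : Type} [Field K] [NumberField K] {J : Type} [Fintype J] [DecidableEq J]
  {I : Type} [Fintype I] [DecidableEq I] (ω : Module.Basis I ℤ (𝓞 K))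

attribute [local instance] fintypeV

/-- the parameters with given coordinates -/
noncomputable def pt : (J × I → ℤ) →+ (J → 𝓞 K) where
  toFun x j := ∑ i, x (j, i) • ω i
  map_zero' := by
    ext j
    simp
  map_add' x y := by
    funext j
    simp only [Pi.add_apply, add_smul, Finset.sum_add_distrib]

omit [Fintype J] [DecidableEq J] [DecidableEq I] in
theorem pt_surj : Function.Surjective (pt (J := J) ω) := by
  intro a
  refine ⟨fun p => ω.repr (a p.1) p.2, ?_⟩
  funext j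
  exact ω.sum_repr (a j)

/-- reduction of parameters -/
noncomputable def redJ (v : HeightOneSpectrum (𝓞 K)) : (J → 𝓞 K) →+ (J → 𝓞 K ⧸ v.asIdeal) where
  toFun a j := Ideal.Quotient.mk v.asIdeal (a j)
  map_zero' := by
    ext j
    simp
  map_add' a b := by
    ext j
    simp

/-- **The Chinese remainder theorem for the parameters.** -/
theorem red_surj (S : Finset (HeightOneSpectrum (𝓞 K))) :
    Function.Surjective fun (x : J × I → ℤ) (v : S) => redJ (v : HeightOneSpectrum (𝓞 K)) (pt ω x) := by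
  intro b
  have h1 : ∀ j : J, ∃ y : 𝓞 K, ∀ v : S, Ideal.Quotient.mk (v : HeightOneSpectrum (𝓞 K)).asIdeal y = b v j := by
    intro j
    choose c hc using fun v : S => Ideal.Quotient.mk_surjective (I := (v : HeightOneSpectrum (𝓞 K)).asIdeal) (b v j)
    obtain ⟨y, hy⟩ := IsDedekindDomain.exists_forall_sub_mem_ideal (s := S)
      (fun v : HeightOneSpectrum (𝓞 K) => v.asIdeal) (fun _ => 1) (fun v _ => v.prime)
      (fun v _ w _ h h' => h (HeightOneSpectrum.ext h')) c
    refine ⟨y, fun v => ?_⟩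
    have h2 := hy v v.2
    rw [pow_one] at h2
    rw [← hc v]
    exact Ideal.Quotient.eq.mpr h2
  choose y hy using h1
  obtain ⟨x, hx⟩ := pt_surj ω y
  refine ⟨x, ?_⟩
  funext v
  simp only
  rw [hx]
  funext j
  exact hy j v

/-- the same for one prime -/
theorem red_surj_one (v : HeightOneSpectrum (𝓞 K)) :
    Function.Surjective ((redJ v).comp (pt (J := J) ω)) := by
  intro b
  obtain ⟨x, hx⟩ := red_surj ω {v} (fun w => by
    have hw : (w : HeightOneSpectrum (𝓞 K)) = v := Finset.mem_singleton.mp w.2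
    exact hw ▸ b)
  refine ⟨x, ?_⟩
  have := congrFun hx ⟨v, Finset.mem_singleton_self v⟩
  exact this

/-- there are infinitely many primes -/
theorem inf_v (K : Type) [Field K] [NumberField K] : Infinite (HeightOneSpectrum (𝓞 K)) := by
  have h : ∀ p : Nat.Primes, ∃ v : HeightOneSpectrum (𝓞 K), v.asIdeal.comap (algebraMap ℤ (𝓞 K)) = Ideal.span {((p : ℕ) : ℤ)} := by
    intro p
    have hp : Prime ((p : ℕ) : ℤ) := Nat.prime_iff_prime_int.mp p.2
    have hmax : (Ideal.span {((p : ℕ) : ℤ)}).IsMaximal := PrincipalIdealRing.isMaximal_of_irreducible hp.irreducible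
    obtain ⟨Q, hQ, hQ'⟩ := Ideal.exists_maximal_ideal_liesOver_of_isIntegral (S := 𝓞 K) (Ideal.span {((p : ℕ) : ℤ)})
    refine ⟨⟨Q, hQ.isPrime, ?_⟩, hQ'.over.symm⟩
    rintro rfl
    have h1 := hQ'.over
    rw [Ideal.under, Ideal.comap_bot_of_injective _ (FaithfulSMul.algebraMap_injective ℤ (𝓞 K)),
      Ideal.span_singleton_eq_bot] at h1
    exact hp.ne_zero h1
  choose f hf using h
  refine Infinite.of_injective f fun p p' hpp => ?_
  have h1 := hf p
  rw [hpp, hf p'] at h1
  have h2 := Ideal.span_singleton_eq_span_singleton.mp h1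
  rw [Int.associated_iff_natAbs] at h2
  exact Subtype.ext (by simpa using h2.symm)

namespace Fam

variable (F : Fam K J)

/-- one minus the factor at `v` of the Euler product with the given parameters -/
noncomputable def zx (a : J → 𝓞 K) (v : HeightOneSpectrum (𝓞 K)) (s : ℂ) : ℂ := F.zz v (redJ v a) s

/-- the logarithm of the local factor -/
noncomputable def lgx (a : J → 𝓞 K) (v : HeightOneSpectrum (𝓞 K)) (s : ℂ) : ℂ :=
  -Complex.log (1 - F.zx a v s)

/-- the Euler product -/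
noncomputable def L (a : J → 𝓞 K) (s : ℂ) : ℂ := ∏' v, (1 - F.zx a v s)⁻¹

/-- its logarithm -/
noncomputable def logL (a : J → 𝓞 K) (s : ℂ) : ℂ := ∑' v, F.lgx a v s

theorem lgx_le (a : J → 𝓞 K) (v : HeightOneSpectrum (𝓞 K)) {s : ℂ} (hs : 3 / 2 < s.re) :
    ‖F.lgx a v s‖ ≤ 4 * (nm v : ℝ) ^ (-(s.re - 1 / 2)) := by
  have hq2 : (2 : ℝ) ≤ nm v := by exact_mod_cast two_le_nm v
  unfold lgx zx zz
  split_ifs with h
  · have hq5 : (5 : ℝ) ≤ nm v := by exact_mod_cast F.five v _ h
    have hQ := sqrt_TT v s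
    set q : ℝ := (nm v : ℝ) with hqd
    set b := redJ v a
    have hQ' : q ^ (1 / 2 - s.re) = q ^ (-(s.re - 1 / 2)) := by congr 1; ring
    rw [hQ'] at hQ
    set Y := q ^ (-(s.re - 1 / 2)) with hY
    have hY0 : 0 < Y := by positivity
    have hY1 : Y ≤ 1 / 5 := by
      calc Y ≤ q ^ (-1 : ℝ) := Real.rpow_le_rpow_of_exponent_le (by linarith) (by linarith)
        _ = 1 / q := by rw [Real.rpow_neg_one, one_div]
        _ ≤ 1 / 5 := by gcongr
    have h1 : ‖(F.t v b : ℂ) * TT v s‖ ≤ 2 * Y := by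
      rw [norm_mul, Complex.norm_real, Real.norm_eq_abs, ← hQ]
      calc _ ≤ 2 * Real.sqrt q * ‖TT v s‖ := by gcongr; exact F.weil v b
        _ = _ := by ring
    have h2 : ‖(q : ℂ) * TT v s ^ 2‖ ≤ Y / 5 := by
      rw [norm_mul, Complex.norm_real, Real.norm_eq_abs, abs_of_pos (by linarith), norm_pow]
      calc q * ‖TT v s‖ ^ 2 = (Real.sqrt q * ‖TT v s‖) ^ 2 := by
            rw [mul_pow, Real.sq_sqrt (by linarith)]
        _ = Y * Y := by rw [hQ]; ring
        _ ≤ Y * (1 / 5) := by gcongr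
        _ = Y / 5 := by ring
    have h3 : ‖(F.t v b : ℂ) * TT v s - q * TT v s ^ 2‖ ≤ 2 * Y + Y / 5 :=
      (norm_sub_le _ _).trans (add_le_add h1 h2)
    rw [norm_neg, sub_eq_add_neg]
    refine (norm_log_one_add_half_le_self ?_).trans ?_
    · rw [norm_neg]; linarith
    · rw [norm_neg]; linarith
  · simp only [sub_zero, Complex.log_one, neg_zero, norm_zero]
    positivity

theorem lgx_summable (a : J → 𝓞 K) {s : ℂ} (hs : 3 / 2 < s.re) : Summable fun v => F.lgx a v s :=
  Summable.of_norm_bounded ((nm_summable (by linarith)).mul_left 4) fun v => F.lgx_le a v hs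

theorem zx_ne (a : J → 𝓞 K) (v : HeightOneSpectrum (𝓞 K)) {s : ℂ} (hs : 1 / 2 < s.re) :
    1 - F.zx a v s ≠ 0 := F.one_sub_zz_ne v _ hs

theorem exp_lgx (a : J → 𝓞 K) (v : HeightOneSpectrum (𝓞 K)) {s : ℂ} (hs : 1 / 2 < s.re) :
    cexp (F.lgx a v s) = (1 - F.zx a v s)⁻¹ := by
  unfold lgx
  rw [Complex.exp_neg, Complex.exp_log (F.zx_ne a v hs)]

theorem L_hasProd (a : J → 𝓞 K) {s : ℂ} (hs : 3 / 2 < s.re) :
    HasProd (fun v => (1 - F.zx a v s)⁻¹) (cexp (F.logL a s)) := by
  have h1 := (F.lgx_summable a hs).hasSum.cexp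
  exact h1.congr_fun fun v => (F.exp_lgx a v (by linarith)).symm

theorem L_eq (a : J → 𝓞 K) {s : ℂ} (hs : 3 / 2 < s.re) : F.L a s = cexp (F.logL a s) :=
  (F.L_hasProd a hs).tprod_eq

/-- the tails of the logarithm are uniformly small -/
theorem tail_le {s : ℂ} (hs : 3 / 2 < s.re) {ε : ℝ} (hε : 0 < ε) :
    ∀ᶠ S : Finset (HeightOneSpectrum (𝓞 K)) in atTop, ∀ a : J → 𝓞 K,
      ‖(∑ v ∈ S, F.lgx a v s) - F.logL a s‖ ≤ ε := by
  have hsum : Summable fun v : HeightOneSpectrum (𝓞 K) => 4 * (nm v : ℝ) ^ (-(s.re - 1 / 2)) :=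
    (nm_summable (by linarith)).mul_left 4
  have h1 := tendstoUniformly_tsum hsum (f := fun (v : HeightOneSpectrum (𝓞 K)) (a : J → 𝓞 K) => F.lgx a v s)
    (fun v a => F.lgx_le a v hs)
  rw [Metric.tendstoUniformly_iff] at h1
  filter_upwards [h1 ε hε] with S hS a
  have := hS a
  rw [dist_comm, dist_eq_norm] at this
  exact this.le

/-- the logarithm is uniformly bounded -/
theorem logL_le (a : J → 𝓞 K) {s : ℂ} (hs : 3 / 2 < s.re) :
    ‖F.logL a s‖ ≤ ∑' v : HeightOneSpectrum (𝓞 K), 4 * (nm v : ℝ) ^ (-(s.re - 1 / 2)) := by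
  have hsum : Summable fun v : HeightOneSpectrum (𝓞 K) => 4 * (nm v : ℝ) ^ (-(s.re - 1 / 2)) :=
    (nm_summable (by linarith)).mul_left 4
  exact tsum_of_norm_bounded hsum.hasSum fun v => F.lgx_le a v hs

/-- **The mean of the powers of the Euler products.** -/
theorem mean_power (k : ℤ) {s M : ℂ} (hs : 3 / 2 < s.re)
    (hM : HasProd (fun v => F.avg (fun z => (1 - z) ^ (-k)) v s) M) :
    Tendsto (mean fun x : J × I → ℤ => F.L (pt ω x) s ^ k) atTop (𝓝 M) := by
  set B := ∑' v : HeightOneSpectrum (𝓞 K), 4 * (nm v : ℝ) ^ (-(s.re - 1 / 2)) with hB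
  refine mean_lim (l := (atTop : Filter (Finset (HeightOneSpectrum (𝓞 K)))))
    (FS := fun S x => ∏ v ∈ S, (1 - F.zz v ((redJ v).comp (pt ω) x) s) ^ (-k))
    (m := fun S => ∏ v ∈ S, F.avg (fun z => (1 - z) ^ (-k)) v s) ?_ ?_ hM
  · intro S
    exact mean_prod S (fun v : HeightOneSpectrum (𝓞 K) => J → 𝓞 K ⧸ v.asIdeal)
      (fun v => (redJ v).comp (pt ω)) (red_surj ω S) (fun v a => (1 - F.zz v a s) ^ (-k))
  · intro ε hε
    set c : ℝ := Real.exp (|(k : ℝ)| * B) * (2 * (|(k : ℝ)| + 1)) with hc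
    have hc0 : 0 < c := by positivity
    filter_upwards [F.tail_le hs (ε := min (1 / (|(k : ℝ)| + 1)) (ε / c)) (by positivity)] with S hS x
    have h1 := hS (pt ω x)
    have e1 : ∏ v ∈ S, (1 - F.zz v ((redJ v).comp (pt ω) x) s) ^ (-k) =
        cexp (k * ∑ v ∈ S, F.lgx (pt ω x) v s) := by
      rw [Finset.mul_sum, Complex.exp_sum]
      refine Finset.prod_congr rfl fun v _ => ?_
      rw [Complex.exp_int_mul, F.exp_lgx _ _ (by linarith), inv_zpow, zpow_neg]
      rfl
    have e2 : F.L (pt ω x) s ^ k = cexp (k * F.logL (pt ω x) s) := by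
      rw [F.L_eq _ hs, Complex.exp_int_mul]
    rw [e1, e2]
    set d := (∑ v ∈ S, F.lgx (pt ω x) v s) - F.logL (pt ω x) s with hd
    have e3 : cexp (k * ∑ v ∈ S, F.lgx (pt ω x) v s) - cexp (k * F.logL (pt ω x) s) =
        cexp (k * F.logL (pt ω x) s) * (cexp (k * d) - 1) := by
      rw [mul_sub, ← Complex.exp_add, mul_one]
      congr 3
      rw [hd]; ring
    rw [e3, norm_mul]
    have hkn : ‖(k : ℂ)‖ = |(k : ℝ)| := Complex.norm_intCast k
    have hd1 : ‖(k : ℂ) * d‖ ≤ (|(k : ℝ)| + 1) * ‖d‖ := by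
      rw [norm_mul, hkn]
      gcongr
      linarith
    have hd2 : (|(k : ℝ)| + 1) * ‖d‖ ≤ 1 := by
      have := h1.trans (min_le_left _ _)
      rw [le_div_iff₀ (by positivity)] at this
      linarith
    have h2 : ‖cexp (k * d) - 1‖ ≤ 2 * ((|(k : ℝ)| + 1) * ‖d‖) :=
      (Complex.norm_exp_sub_one_le (hd1.trans hd2)).trans (by linarith)
    have h3 : ‖cexp (k * F.logL (pt ω x) s)‖ ≤ Real.exp (|(k : ℝ)| * B) := by
      rw [Complex.norm_exp]
      apply Real.exp_le_exp.mpr
      refine (Complex.re_le_norm _).trans ?_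
      rw [norm_mul, hkn]
      gcongr
      exact F.logL_le _ hs
    calc _ ≤ Real.exp (|(k : ℝ)| * B) * (2 * ((|(k : ℝ)| + 1) * ‖d‖)) := by gcongr
      _ = c * ‖d‖ := by rw [hc]; ring
      _ ≤ c * (ε / c) := by gcongr; exact h1.trans (min_le_right _ _)
      _ = ε := mul_div_cancel₀ _ hc0.ne'

/-- the powers are bounded -/
theorem power_le (k : ℤ) {s : ℂ} (hs : 3 / 2 < s.re) : ∃ B : ℝ, ∀ a : J → 𝓞 K, ‖F.L a s ^ k‖ ≤ B := by
  refine ⟨Real.exp (|(k : ℝ)| * ∑' v : HeightOneSpectrum (𝓞 K), 4 * (nm v : ℝ) ^ (-(s.re - 1 / 2))),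
    fun a => ?_⟩
  rw [F.L_eq a hs, ← Complex.exp_int_mul, Complex.norm_exp]
  apply Real.exp_le_exp.mpr
  refine (Complex.re_le_norm _).trans ?_
  rw [norm_mul, Complex.norm_intCast]
  gcongr
  exact F.logL_le _ hs

/-- **The mean of the logarithm of the Euler products.** -/
theorem mean_log {s : ℂ} (hs : 3 / 2 < s.re) : ∃ Λ : ℂ,
    Tendsto (mean fun x : J × I → ℤ => F.logL (pt ω x) s) atTop (𝓝 Λ) ∧
    Λ = ∑' v, F.avg (fun z => -Complex.log (1 - z)) v s ∧
    HasProd (fun v => cexp (2 * F.avg (fun z => -Complex.log (1 - z)) v s)) (cexp (2 * Λ)) := by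
  have hb : ∀ v : HeightOneSpectrum (𝓞 K), ‖F.avg (fun z => -Complex.log (1 - z)) v s‖ ≤
      4 * (nm v : ℝ) ^ (-(s.re - 1 / 2)) := by
    intro v
    unfold avg
    have hcard : (0 : ℝ) < Fintype.card (J → 𝓞 K ⧸ v.asIdeal) := by exact_mod_cast Fintype.card_pos
    rw [norm_div, Complex.norm_natCast, div_le_iff₀ hcard]
    calc _ ≤ ∑ _a : J → 𝓞 K ⧸ v.asIdeal, 4 * (nm v : ℝ) ^ (-(s.re - 1 / 2)) := by
          refine norm_sum_le_of_le _ fun b _ => ?_
          obtain ⟨x, hx⟩ := red_surj_one (J := J) (RingOfIntegers.basis K) v b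
          have := F.lgx_le (pt (RingOfIntegers.basis K) x) v hs
          unfold lgx zx at this
          have hx' : redJ v (pt (RingOfIntegers.basis K) x) = b := hx
          rw [hx'] at this
          exact this
      _ = _ := by rw [Finset.sum_const, Finset.card_univ, nsmul_eq_mul, mul_comm]
  have hsum : Summable fun v => F.avg (fun z => -Complex.log (1 - z)) v s :=
    Summable.of_norm_bounded ((nm_summable (by linarith)).mul_left 4) hb
  refine ⟨_, ?_, rfl, ?_⟩
  · refine mean_lim (l := (atTop : Filter (Finset (HeightOneSpectrum (𝓞 K)))))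
      (FS := fun S x => ∑ v ∈ S, F.lgx (pt ω x) v s)
      (m := fun S => ∑ v ∈ S, F.avg (fun z => -Complex.log (1 - z)) v s) ?_ ?_ hsum.hasSum
    · intro S
      have h1 : (mean fun x : J × I → ℤ => ∑ v ∈ S, F.lgx (pt ω x) v s) =
          fun H => ∑ v ∈ S, mean (fun x => F.lgx (pt ω x) v s) H := by
        funext H
        exact mean_sum S (fun v x => F.lgx (pt ω x) v s) H
      rw [h1]
      refine tendsto_finsetSum _ fun v _ => ?_
      exact mean_tendsto (A := J → 𝓞 K ⧸ v.asIdeal) ((redJ v).comp (pt ω)) (red_surj_one ω v)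
        (fun b => -Complex.log (1 - F.zz v b s))
    · intro ε hε
      filter_upwards [F.tail_le hs hε] with S hS x
      exact hS (pt ω x)
  · have h1 := (hsum.hasSum.mul_left 2).cexp
    exact h1

/-- **The singular parameters have density zero.** -/
theorem sing_zero {ns : (J → 𝓞 K) → Prop} [DecidablePred ns]
    (hns : ∀ᶠ v : HeightOneSpectrum (𝓞 K) in cofinite, ∀ a, ¬ ns a → ¬ F.good v (redJ v a)) :
    Tendsto (fun H : ℕ => (((box (J × I) H).filter fun x => ¬ ns (pt ω x)).card : ℝ) /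
      (2 * H + 1) ^ Fintype.card (J × I)) atTop (𝓝 0) := by
  classical
  refine dens_zero (ns := fun x : J × I → ℤ => ns (pt ω x)) fun ε hε => ?_
  have hinf : (cofinite : Filter (HeightOneSpectrum (𝓞 K))).NeBot := by
    have := inf_v K
    exact Filter.cofinite_neBot
  obtain ⟨v, hv1, hv2, hv3⟩ := (hns.and (F.bad.and ((nm_atTop K).eventually_ge_atTop (4 / ε)))).exists
  refine ⟨fun x => if F.good v (redJ v (pt ω x)) then 0 else 1,
    (∑ b : J → 𝓞 K ⧸ v.asIdeal, if F.good v b then (0 : ℂ) else 1) / Fintype.card (J → 𝓞 K ⧸ v.asIdeal),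
    fun x hx => ?_, fun x => ?_, ?_, ?_⟩
  · exact if_neg (hv1 _ hx)
  · by_cases h : F.good v (redJ v (pt ω x))
    · exact Or.inl (if_pos h)
    · exact Or.inr (if_neg h)
  · exact mean_tendsto (A := J → 𝓞 K ⧸ v.asIdeal) ((redJ v).comp (pt ω)) (red_surj_one ω v)
      (fun b => if F.good v b then 0 else 1)
  · have hq : (2 : ℝ) ≤ nm v := by exact_mod_cast two_le_nm v
    have hcard : (0 : ℝ) < (nm v : ℝ) ^ Fintype.card J := by positivity
    rw [norm_div, Complex.norm_natCast, card_fun]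
    push_cast
    rw [div_le_iff₀ hcard]
    have e1 : (∑ b : J → 𝓞 K ⧸ v.asIdeal, if F.good v b then (0 : ℂ) else 1) =
        (Nat.card {a : J → 𝓞 K ⧸ v.asIdeal // ¬ F.good v a} : ℂ) := by
      rw [Nat.card_eq_fintype_card, Fintype.card_subtype, Finset.card_filter, Nat.cast_sum]
      refine Finset.sum_congr rfl fun b _ => ?_
      by_cases h : F.good v b <;> simp [h]
    rw [e1, Complex.norm_natCast]
    refine hv2.trans ?_
    gcongr
    rw [div_le_iff₀ hε] at hv3
    rw [div_le_iff₀ (by linarith)]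
    linarith

end Fam

end Pool.Agent.Helper89.MM
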