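import Mathlib

/-!
# Linear systems of affine curves over a finite field: first and second moments of the number of points
-/

set_option autoImplicit false
set_option linter.unusedSectionVars false

namespace Pool.Agent.Helper89.MM

open Finset

theorem card_fiber {A B : Type*} [AddCommGroup A] [Fintype A] [AddCommGroup B] [Fintype B]
    [DecidableEq B] (f : A →+ B) (hf : Function.Surjective f) (b : B) :
    #{a : A | f a = b} * Fintype.card B = Fintype.card A := by
  classical
  have h1 : (Finset.univ : Finset A).card = ∑ b' : B, #{a : A | f a = b'} :=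
    Finset.card_eq_sum_card_fiberwise fun a _ => Finset.mem_coe.mpr (Finset.mem_univ (f a))
  have h2 : ∀ b' : B, #{a : A | f a = b'} = #{a : A | f a = b} := fun b' =>
    AddMonoidHom.card_fiber_eq_of_mem_range f (hf b') (hf b)
  rw [Finset.sum_congr rfl fun b' _ => h2 b', Finset.sum_const, Finset.card_univ, Finset.card_univ,
    smul_eq_mul] at h1
  rw [h1, mul_comm]

section
variable {k : Type*} [Field k] [Fintype k] [DecidableEq k] {J : Type*} [Fintype J] [DecidableEq J]

/-- the linear form with coefficients `l` -/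
def lf (l : J → k) : (J → k) →+ k where
  toFun a := ∑ j, l j * a j
  map_zero' := by simp
  map_add' a b := by
    rw [← Finset.sum_add_distrib]
    exact Finset.sum_congr rfl fun j _ => by rw [Pi.add_apply, mul_add]

theorem lf_single (l : J → k) (i : J) (t : k) : lf l (Pi.single i t) = l i * t := by
  simp only [lf, AddMonoidHom.coe_mk, ZeroHom.coe_mk]
  rw [Finset.sum_eq_single i]
  · rw [Pi.single_eq_same]
  · intro j _ hj
    rw [Pi.single_eq_of_ne hj, mul_zero]
  · intro h
    exact absurd (Finset.mem_univ i) h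

theorem count_one {l : J → k} (hl : l ≠ 0) (m : k) :
    #{a : J → k | lf l a = m} * Fintype.card k = Fintype.card k ^ Fintype.card J := by
  rw [← Fintype.card_fun]
  refine card_fiber (lf l) (fun b => ?_) m
  obtain ⟨i, hi⟩ := Function.ne_iff.mp hl
  refine ⟨Pi.single i ((l i)⁻¹ * b), ?_⟩
  rw [lf_single, ← mul_assoc, mul_inv_cancel₀ hi, one_mul]

theorem count_two {l l' : J → k} {i j : J} (h : l i * l' j - l j * l' i ≠ 0) (m m' : k) :
    #{a : J → k | lf l a = m ∧ lf l' a = m'} * Fintype.card k ^ 2 =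
      Fintype.card k ^ Fintype.card J := by
  have h1 := card_fiber ((lf l).prod (lf l')) (fun b => ?_) (m, m')
  · rw [Fintype.card_fun, Fintype.card_prod, ← sq] at h1
    rw [← h1]
    congr 2
    ext a
    simp [Prod.ext_iff]
  · set d := l i * l' j - l j * l' i with hd
    refine ⟨Pi.single i ((l' j * b.1 - l j * b.2) / d) + Pi.single j ((l i * b.2 - l' i * b.1) / d), ?_⟩
    rw [map_add]
    ext
    · simp only [AddMonoidHom.prod_apply, Prod.fst_add, lf_single]
      field_simp
      rw [hd]; ring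
    · simp only [AddMonoidHom.prod_apply, Prod.snd_add, lf_single]
      field_simp
      rw [hd]; ring

variable (k J) in
/-- A linear system: the point `P` lies on the curve with parameters `a` if `∑ lam P j * a j = mu P`. -/
structure LS (r : ℕ) where
  /-- the linear part of the condition -/
  lam : k × k → J → k
  /-- the constant part of the condition -/
  mu : k × k → k
  /-- the base points -/
  base : Finset (k × k)
  card_base : base.card = r
  lam_base : ∀ P ∈ base, lam P = 0 ∧ mu P = 0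
  lam_ne : ∀ P, P ∉ base → lam P ≠ 0
  /-- the exceptional pairs -/
  exc : Finset ((k × k) × (k × k))
  pair : ∀ P P', P ∉ base → P' ∉ base → P ≠ P' →
    ((P, P') ∉ exc ∧ ∃ i j, lam P i * lam P' j - lam P j * lam P' i ≠ 0) ∨
    ((P, P') ∈ exc ∧ ∀ a, ¬ (lf (lam P) a = mu P ∧ lf (lam P') a = mu P'))
  card_exc : exc.card ≤ 3 * Fintype.card k ^ 2

namespace LS

variable {r : ℕ} (S : LS k J r)

/-- the number of the points which are not base points -/
def X (a : J → k) : ℕ := #{P : k × k | P ∉ S.base ∧ lf (S.lam P) a = S.mu P}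

/-- the number of the points -/
def N (a : J → k) : ℕ := #{P : k × k | lf (S.lam P) a = S.mu P}

theorem N_eq (a : J → k) : S.N a = r + S.X a := by
  have h0 : S.N a = S.base.card + S.X a := ?_
  · rw [h0, S.card_base]
  unfold N X
  rw [← Finset.card_union_of_disjoint]
  · congr 1
    ext P
    simp only [Finset.mem_filter, Finset.mem_univ, true_and, Finset.mem_union]
    constructor
    · intro h
      by_cases hP : P ∈ S.base
      · exact Or.inl hP
      · exact Or.inr ⟨hP, h⟩
    · rintro (h | h)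
      · obtain ⟨h1, h2⟩ := S.lam_base P h
        rw [h1, h2]
        simp [lf]
      · exact h.2
  · rw [Finset.disjoint_left]
    intro P h1 h2
    exact (Finset.mem_filter.mp h2).2.1 h1

theorem sum_X : (∑ a : J → k, (S.X a : ℝ)) * Fintype.card k =
    ((Fintype.card k : ℝ) ^ 2 - r) * (Fintype.card k : ℝ) ^ Fintype.card J := by
  have h1 : ∑ a : J → k, (S.X a : ℝ) = ∑ P ∈ S.baseᶜ, (#{a : J → k | lf (S.lam P) a = S.mu P} : ℝ) := by
    unfold X
    simp_rw [Finset.card_filter]
    push_cast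
    rw [Finset.sum_comm]
    rw [← Finset.sum_filter_add_sum_filter_not Finset.univ (fun P => P ∈ S.base)]
    have e1 : ∑ P with P ∈ S.base, ∑ a : J → k,
        (if P ∉ S.base ∧ lf (S.lam P) a = S.mu P then (1 : ℝ) else 0) = 0 := by
      refine Finset.sum_eq_zero fun P hP => Finset.sum_eq_zero fun a _ => if_neg fun h => ?_
      exact h.1 (Finset.mem_filter.mp hP).2
    rw [e1, zero_add]
    have e2 : (Finset.univ.filter fun P => P ∉ S.base) = S.baseᶜ := by
      ext P; simp
    rw [e2]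
    refine Finset.sum_congr rfl fun P hP => Finset.sum_congr rfl fun a _ => ?_
    have : P ∉ S.base := Finset.mem_compl.mp hP
    simp [this]
  rw [h1, Finset.sum_mul]
  have h2 : ∀ P ∈ S.baseᶜ, (#{a : J → k | lf (S.lam P) a = S.mu P} : ℝ) * Fintype.card k =
      (Fintype.card k : ℝ) ^ Fintype.card J := by
    intro P hP
    exact_mod_cast count_one (S.lam_ne P (Finset.mem_compl.mp hP)) (S.mu P)
  rw [Finset.sum_congr rfl h2, Finset.sum_const, nsmul_eq_mul, Finset.card_compl, S.card_base,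
    Fintype.card_prod]
  have h3 : r ≤ Fintype.card k * Fintype.card k := by
    rw [← S.card_base, ← Fintype.card_prod]
    exact Finset.card_le_univ _
  rw [Nat.cast_sub h3]
  push_cast
  ring

theorem sum_X_sq : ∃ z : ℝ, 0 ≤ z ∧ z ≤ 3 * (Fintype.card k : ℝ) ^ 2 ∧
    (∑ a : J → k, (S.X a : ℝ) ^ 2) * (Fintype.card k : ℝ) ^ 2 =
      (∑ a : J → k, (S.X a : ℝ)) * (Fintype.card k : ℝ) ^ 2 +
      (((Fintype.card k : ℝ) ^ 2 - r) * ((Fintype.card k : ℝ) ^ 2 - r - 1) - z) *
        (Fintype.card k : ℝ) ^ Fintype.card J := by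
  set q : ℝ := (Fintype.card k : ℝ) with hq
  -- the pairs of different points
  set D : Finset ((k × k) × (k × k)) := (S.baseᶜ).offDiag with hD
  have hX : ∀ a : J → k, (S.X a : ℝ) ^ 2 = (S.X a : ℝ) +
      ∑ p ∈ D, (if lf (S.lam p.1) a = S.mu p.1 ∧ lf (S.lam p.2) a = S.mu p.2 then (1 : ℝ) else 0) := by
    intro a
    set U : Finset (k × k) := {P : k × k | P ∉ S.base ∧ lf (S.lam P) a = S.mu P} with hU
    have e0 : (S.X a : ℝ) = U.card := rfl
    have e1 : ∑ p ∈ D, (if lf (S.lam p.1) a = S.mu p.1 ∧ lf (S.lam p.2) a = S.mu p.2 then (1 : ℝ) else 0) =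
        U.offDiag.card := by
      rw [← Finset.sum_filter, Finset.sum_const, nsmul_eq_mul, mul_one]
      congr 2
      ext p
      simp only [hD, hU, Finset.mem_filter, Finset.mem_offDiag, Finset.mem_compl, Finset.mem_univ, true_and]
      tauto
    rw [e0, e1, Finset.offDiag_card]
    have h1 : U.card ≤ U.card * U.card := Nat.le_mul_self _
    rw [Nat.cast_sub h1]
    push_cast
    ring
  have hsum : ∑ a : J → k, (S.X a : ℝ) ^ 2 = ∑ a : J → k, (S.X a : ℝ) +
      ∑ p ∈ D, (#{a : J → k | lf (S.lam p.1) a = S.mu p.1 ∧ lf (S.lam p.2) a = S.mu p.2} : ℝ) := by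
    rw [Finset.sum_congr rfl fun a _ => hX a, Finset.sum_add_distrib, Finset.sum_comm]
    congr 1
    refine Finset.sum_congr rfl fun p _ => ?_
    rw [Finset.card_filter]
    push_cast
    rfl
  -- exceptional pairs
  refine ⟨#(D.filter fun p => p ∈ S.exc), by positivity, ?_, ?_⟩
  · have h1 : #(D.filter fun p => p ∈ S.exc) ≤ S.exc.card :=
      Finset.card_le_card fun p hp => (Finset.mem_filter.mp hp).2
    have h2 := h1.trans S.card_exc
    rw [hq]
    exact_mod_cast h2
  rw [hsum, add_mul]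
  congr 1
  have hval : ∀ p ∈ D, (#{a : J → k | lf (S.lam p.1) a = S.mu p.1 ∧ lf (S.lam p.2) a = S.mu p.2} : ℝ) * q ^ 2 =
      if p ∈ S.exc then 0 else q ^ Fintype.card J := by
    intro p hp
    obtain ⟨h1, h2, h3⟩ := Finset.mem_offDiag.mp hp
    rcases S.pair p.1 p.2 (Finset.mem_compl.mp h1) (Finset.mem_compl.mp h2) h3 with
      ⟨h4, i, j, h5⟩ | ⟨h4, h5⟩
    · rw [if_neg h4, hq]
      exact_mod_cast count_two h5 (S.mu p.1) (S.mu p.2)
    · rw [if_pos h4]
      have : #{a : J → k | lf (S.lam p.1) a = S.mu p.1 ∧ lf (S.lam p.2) a = S.mu p.2} = 0 := by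
        rw [Finset.card_eq_zero, Finset.filter_eq_empty_iff]
        exact fun a _ => h5 a
      rw [this]; simp
  rw [Finset.sum_mul, Finset.sum_congr rfl hval, Finset.sum_ite, Finset.sum_const_zero, zero_add,
    Finset.sum_const, nsmul_eq_mul]
  congr 1
  have h6 : #(D.filter fun p => p ∈ S.exc) + #(D.filter fun p => p ∉ S.exc) = D.card :=
    Finset.card_filter_add_card_filter_not _
  have h7 : (D.card : ℝ) = (q ^ 2 - r) * (q ^ 2 - r - 1) := by
    have hc : ((S.baseᶜ).card : ℝ) = q ^ 2 - r := by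
      rw [Finset.card_compl, S.card_base, Fintype.card_prod]
      have h3 : r ≤ Fintype.card k * Fintype.card k := by
        rw [← S.card_base, ← Fintype.card_prod]
        exact Finset.card_le_univ _
      rw [Nat.cast_sub h3]
      push_cast
      ring
    rw [hD, Finset.offDiag_card, Nat.cast_sub (Nat.le_mul_self _)]
    push_cast
    rw [hc]
    ring
  have h8 : ((#(D.filter fun p => p ∈ S.exc) : ℕ) : ℝ) + (#(D.filter fun p => p ∉ S.exc) : ℕ) = D.card := by
    exact_mod_cast h6
  linarith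

/-- `q` minus the number of affine points -/
def t (a : J → k) : ℝ := (Fintype.card k : ℝ) - (S.N a : ℝ)

theorem t_eq (a : J → k) : S.t a = (Fintype.card k : ℝ) - r - (S.X a : ℝ) := by
  unfold t
  rw [S.N_eq]
  push_cast
  ring

/-- **The first moment.** -/
theorem avg_t : (∑ a : J → k, S.t a) / (Fintype.card k : ℝ) ^ Fintype.card J =
    -(r : ℝ) + r / Fintype.card k := by
  have hq : (Fintype.card k : ℝ) ≠ 0 := by exact_mod_cast Fintype.card_ne_zero
  have h1 := S.sum_X
  have h2 : ∑ a : J → k, S.t a = ((Fintype.card k : ℝ) - r) * (Fintype.card k : ℝ) ^ Fintype.card J -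
      ∑ a : J → k, (S.X a : ℝ) := by
    simp_rw [S.t_eq]
    rw [Finset.sum_sub_distrib, Finset.sum_const, Finset.card_univ, Fintype.card_fun, nsmul_eq_mul]
    push_cast
    ring
  rw [h2]
  have hQ : (Fintype.card k : ℝ) ^ Fintype.card J ≠ 0 := pow_ne_zero _ hq
  set Q := (Fintype.card k : ℝ) ^ Fintype.card J
  field_simp
  linear_combination -h1

/-- **The second moment.** -/
theorem avg_t_sq (hr : r ≤ 2) :
    |(∑ a : J → k, S.t a ^ 2) / (Fintype.card k : ℝ) ^ Fintype.card J - Fintype.card k| ≤ 30 := by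
  have hq1 : (1 : ℝ) ≤ Fintype.card k := by exact_mod_cast Fintype.card_pos
  have hq : (Fintype.card k : ℝ) ≠ 0 := by linarith
  set q : ℝ := (Fintype.card k : ℝ) with hqd
  obtain ⟨z, hz0, hz1, hz⟩ := S.sum_X_sq
  rw [← hqd] at hz hz1
  have h1 := S.sum_X
  rw [← hqd] at h1
  have hQ : q ^ Fintype.card J ≠ 0 := pow_ne_zero _ hq
  have h2 : ∑ a : J → k, S.t a ^ 2 = (q - r) ^ 2 * q ^ Fintype.card J -
      2 * (q - r) * ∑ a : J → k, (S.X a : ℝ) + ∑ a : J → k, (S.X a : ℝ) ^ 2 := by
    have h3 : ∀ a : J → k, S.t a ^ 2 = (q - r) ^ 2 - 2 * (q - r) * (S.X a : ℝ) + (S.X a : ℝ) ^ 2 := by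
      intro a; rw [S.t_eq]; ring
    rw [Finset.sum_congr rfl fun a _ => h3 a, Finset.sum_add_distrib, Finset.sum_sub_distrib,
      Finset.sum_const, Finset.card_univ, Fintype.card_fun, nsmul_eq_mul, ← Finset.mul_sum]
    push_cast
    ring
  set Q := q ^ Fintype.card J with hQd
  set A := ∑ a : J → k, (S.X a : ℝ) with hA
  set B := ∑ a : J → k, (S.X a : ℝ) ^ 2 with hB
  have hA' : A = (q ^ 2 - r) * Q / q := by field_simp; linarith
  have hB' : B = A + ((q ^ 2 - r) * (q ^ 2 - r - 1) - z) * Q / q ^ 2 := by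
    field_simp
    linarith
  have h4 : (∑ a : J → k, S.t a ^ 2) / Q - q =
      (r : ℝ) ^ 2 - 1 + (-r - 2 * r ^ 2) / q + (r * (r + 1) - z) / q ^ 2 := by
    rw [h2, hB', hA']
    field_simp
    ring
  rw [h4]
  have hr0 : (0 : ℝ) ≤ r := by positivity
  have hr2 : (r : ℝ) ≤ 2 := by exact_mod_cast hr
  have hr3 : (r : ℝ) ^ 2 ≤ 4 := by nlinarith
  have b1 : |(r : ℝ) ^ 2 - 1| ≤ 3 := by rw [abs_le]; constructor <;> nlinarith
  have b2 : |(-(r : ℝ) - 2 * r ^ 2) / q| ≤ 10 := by
    rw [abs_div, abs_of_pos (by linarith : (0 : ℝ) < q), div_le_iff₀ (by linarith)]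
    have : |-(r : ℝ) - 2 * r ^ 2| ≤ 10 := by rw [abs_le]; constructor <;> nlinarith
    nlinarith
  have b3 : |((r : ℝ) * (r + 1) - z) / q ^ 2| ≤ 9 := by
    rw [abs_div, abs_of_pos (by positivity : (0 : ℝ) < q ^ 2), div_le_iff₀ (by positivity)]
    have hq2 : 1 ≤ q ^ 2 := one_le_pow₀ hq1
    rw [abs_le]
    constructor <;> nlinarith
  calc _ ≤ |(r : ℝ) ^ 2 - 1 + (-r - 2 * r ^ 2) / q| + |((r : ℝ) * (r + 1) - z) / q ^ 2| := abs_add_le _ _
    _ ≤ |(r : ℝ) ^ 2 - 1| + |(-(r : ℝ) - 2 * r ^ 2) / q| + |((r : ℝ) * (r + 1) - z) / q ^ 2| := by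
        gcongr; exact abs_add_le _ _
    _ ≤ _ := by linarith

end LS

end

end Pool.Agent.Helper89.MM
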