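import Pool.Agent.Helper89.MM.Prod

/-!
# Local factors
-/

set_option autoImplicit false
set_option linter.unusedSectionVars false

namespace Pool.Agent.Helper89.MM

open NumberField IsDedekindDomain Complex Filter Topology
open Pool.Agent.H921R2.TatePole (nm two_le_nm nm_summable nm_ne_zero)

theorem mul_slit {z w : ℂ} (hz : 0 < z.re) (hw : 0 < w.re) : z * w ∈ slitPlane := by
  rw [mem_slitPlane_iff]
  by_contra h
  push Not at h
  obtain ⟨h1, h2⟩ := h
  rw [mul_re] at h1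
  rw [mul_im] at h2
  have h3 : w.re * (z.re * w.re - z.im * w.im) = z.re * w.re ^ 2 + z.re * w.im ^ 2 := by
    linear_combination -w.im * h2
  have h4 : 0 < z.re * w.re ^ 2 + z.re * w.im ^ 2 := by positivity
  nlinarith

theorem re_pos_of_norm {z : ℂ} (h : ‖z‖ < 1) : 0 < (1 - z).re := by
  rw [sub_re, one_re]
  have := (abs_re_le_norm z)
  have := le_abs_self z.re
  linarith

theorem fac_slit {q t : ℝ} {T : ℂ} (hq : 0 < q) (ht : |t| ≤ 2 * Real.sqrt q)
    (hT : Real.sqrt q * ‖T‖ < 1) : 1 - ((t : ℂ) * T - q * T ^ 2) ∈ slitPlane := by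
  have hs0 : 0 < Real.sqrt q := Real.sqrt_pos.mpr hq
  have hs2 : Real.sqrt q ^ 2 = q := Real.sq_sqrt hq.le
  set y : ℝ := Real.sqrt (4 * q - t ^ 2) with hy
  have hy0 : 0 ≤ 4 * q - t ^ 2 := by
    have h1 : t ^ 2 ≤ (2 * Real.sqrt q) ^ 2 := sq_le_sq.mpr (by rwa [abs_of_pos (by positivity : 0 < 2 * Real.sqrt q)])
    rw [mul_pow, hs2] at h1
    linarith
  have hy2 : y ^ 2 = 4 * q - t ^ 2 := Real.sq_sqrt hy0
  have hn : ∀ y' : ℝ, y' ^ 2 = 4 * q - t ^ 2 → ‖((t / 2 : ℝ) : ℂ) + ((y' / 2 : ℝ) : ℂ) * I‖ = Real.sqrt q := by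
    intro y' hy'
    rw [norm_add_mul_I]
    congr 1
    rw [div_pow, div_pow, hy']
    ring
  have key : 1 - ((t : ℂ) * T - q * T ^ 2) =
      (1 - (((t / 2 : ℝ) : ℂ) + ((y / 2 : ℝ) : ℂ) * I) * T) *
        (1 - (((t / 2 : ℝ) : ℂ) + ((-y / 2 : ℝ) : ℂ) * I) * T) := by
    have h1 : (y : ℂ) ^ 2 = 4 * q - t ^ 2 := by exact_mod_cast hy2
    push_cast
    have h2 := I_sq
    linear_combination (-(T ^ 2) / 4) * h1 + ((y : ℂ) ^ 2 * T ^ 2 / 4 ) * h2
  rw [key]
  apply mul_slit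
  · apply re_pos_of_norm
    rw [norm_mul, hn y hy2]
    exact hT
  · apply re_pos_of_norm
    rw [norm_mul, hn (-y) (by rw [neg_sq]; exact hy2)]
    exact hT

section
variable {K : Type} [Field K] [NumberField K]

theorem finite_v (v : HeightOneSpectrum (𝓞 K)) : Finite (𝓞 K ⧸ v.asIdeal) :=
  Ideal.finiteQuotientOfFreeOfNeBot v.asIdeal v.ne_bot

/-- the residue field is a field -/
noncomputable abbrev fieldV (v : HeightOneSpectrum (𝓞 K)) : Field (𝓞 K ⧸ v.asIdeal) :=
  letI := v.isMaximal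
  Ideal.Quotient.field v.asIdeal

/-- the residue field is finite -/
noncomputable abbrev fintypeV (v : HeightOneSpectrum (𝓞 K)) : Fintype (𝓞 K ⧸ v.asIdeal) :=
  letI := finite_v v
  Fintype.ofFinite _

attribute [local instance] fintypeV

theorem card_v (v : HeightOneSpectrum (𝓞 K)) : Fintype.card (𝓞 K ⧸ v.asIdeal) = nm v := by
  rw [← Nat.card_eq_fintype_card]
  rfl

end

/-- Data for a family of Euler products of degree two, modulo all primes. -/
structure Fam (K : Type) [Field K] [NumberField K] (J : Type) [Fintype J] [DecidableEq J] where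
  /-- the rank -/
  r : ℕ
  /-- the condition of good reduction -/
  good : ∀ v : HeightOneSpectrum (𝓞 K), (J → 𝓞 K ⧸ v.asIdeal) → Prop
  /-- the trace of Frobenius -/
  t : ∀ v : HeightOneSpectrum (𝓞 K), (J → 𝓞 K ⧸ v.asIdeal) → ℝ
  weil : ∀ v a, |t v a| ≤ 2 * Real.sqrt (nm v)
  five : ∀ v a, good v a → 5 ≤ nm v
  mom1 : ∀ᶠ v in cofinite, |(∑ᶠ a, t v a) / (nm v : ℝ) ^ Fintype.card J + r| ≤ 2 / nm v
  mom2 : ∀ᶠ v in cofinite, |(∑ᶠ a, t v a ^ 2) / (nm v : ℝ) ^ Fintype.card J - nm v| ≤ 30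
  bad : ∀ᶠ v in cofinite, (Nat.card {a : J → 𝓞 K ⧸ v.asIdeal // ¬ good v a} : ℝ) ≤
    4 / nm v * (nm v : ℝ) ^ Fintype.card J

namespace Fam

variable {K : Type} [Field K] [NumberField K] {J : Type} [Fintype J] [DecidableEq J] (F : Fam K J)

attribute [local instance] fintypeV

open Classical in
/-- one minus the local factor -/
noncomputable def zz (v : HeightOneSpectrum (𝓞 K)) (a : J → 𝓞 K ⧸ v.asIdeal) (s : ℂ) : ℂ :=
  if F.good v a then (F.t v a : ℂ) * TT v s - (nm v : ℝ) * TT v s ^ 2 else 0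

theorem card_fun (v : HeightOneSpectrum (𝓞 K)) :
    Fintype.card (J → 𝓞 K ⧸ v.asIdeal) = nm v ^ Fintype.card J := by
  rw [Fintype.card_fun, card_v]

/-- the mean of a function of the local factor -/
noncomputable def avg (φ : ℂ → ℂ) (v : HeightOneSpectrum (𝓞 K)) (s : ℂ) : ℂ :=
  (∑ a : J → 𝓞 K ⧸ v.asIdeal, φ (F.zz v a s)) / Fintype.card (J → 𝓞 K ⧸ v.asIdeal)

theorem sqrt_TT (v : HeightOneSpectrum (𝓞 K)) (s : ℂ) :
    Real.sqrt (nm v) * ‖TT v s‖ = (nm v : ℝ) ^ (1 / 2 - s.re) := by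
  have h0 : (0 : ℝ) < nm v := by exact_mod_cast (by have := two_le_nm v; omega : 0 < nm v)
  rw [norm_TT, Real.sqrt_eq_rpow, ← Real.rpow_add h0]
  congr 1

theorem sqrt_TT_lt (v : HeightOneSpectrum (𝓞 K)) {s : ℂ} (hs : 1 / 2 < s.re) :
    Real.sqrt (nm v) * ‖TT v s‖ < 1 := by
  rw [sqrt_TT]
  exact Real.rpow_lt_one_of_one_lt_of_neg (by exact_mod_cast (by have := two_le_nm v; omega : 1 < nm v))
    (by linarith)

theorem one_sub_zz (v : HeightOneSpectrum (𝓞 K)) (a : J → 𝓞 K ⧸ v.asIdeal) {s : ℂ}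
    (hs : 1 / 2 < s.re) : 1 - F.zz v a s ∈ slitPlane := by
  unfold zz
  split_ifs with h
  · exact fac_slit (by exact_mod_cast (by have := two_le_nm v; omega : 0 < nm v)) (F.weil v a)
      (sqrt_TT_lt v hs)
  · simp

theorem one_sub_zz_ne (v : HeightOneSpectrum (𝓞 K)) (a : J → 𝓞 K ⧸ v.asIdeal) {s : ℂ}
    (hs : 1 / 2 < s.re) : 1 - F.zz v a s ≠ 0 := slitPlane_ne_zero (F.one_sub_zz v a hs)

theorem diff_zz (v : HeightOneSpectrum (𝓞 K)) (a : J → 𝓞 K ⧸ v.asIdeal) :
    Differentiable ℂ (F.zz v a) := by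
  unfold zz
  by_cases h : F.good v a
  · simp only [h, if_true]
    exact ((differentiable_const _).mul (diff_TT v)).sub
      ((differentiable_const _).mul ((diff_TT v).pow 2))
  · simp only [h, if_false]
    exact differentiable_const _

/-- at `s = 1` the local factors are positive -/
theorem zz_one (v : HeightOneSpectrum (𝓞 K)) (a : J → 𝓞 K ⧸ v.asIdeal) :
    ∃ x : ℝ, 0 < x ∧ 1 - F.zz v a 1 = x := by
  have h0 : (1 : ℝ) < nm v := by exact_mod_cast (by have := two_le_nm v; omega : 1 < nm v)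
  have h1 : TT v 1 = ((1 / (nm v : ℝ) : ℝ) : ℂ) := by
    unfold TT
    rw [Complex.cpow_neg_one]
    push_cast
    rw [one_div]
  unfold zz
  split_ifs with h
  · refine ⟨1 - (F.t v a * (1 / (nm v : ℝ)) - nm v * (1 / (nm v : ℝ)) ^ 2), ?_, ?_⟩
    · set q : ℝ := (nm v : ℝ) with hq
      have hq0 : q ≠ 0 := by linarith
      set w := Real.sqrt q with hw
      have hw1 : 1 < w := by
        rw [hw]
        exact Real.lt_sqrt_of_sq_lt (by linarith)
      have hw2 : w ^ 2 = q := Real.sq_sqrt (by linarith)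
      have h2 : F.t v a ≤ 2 * w := (le_abs_self _).trans (F.weil v a)
      have h3 : 1 - (F.t v a * (1 / q) - q * (1 / q) ^ 2) = (q - F.t v a + 1) / q := by
        field_simp
        ring
      rw [h3]
      apply div_pos _ (by linarith)
      nlinarith
    · rw [h1]
      push_cast
      ring
  · exact ⟨1, one_pos, by simp⟩

/-- the estimate of the mean -/
theorem avg_est {φ : ℂ → ℂ} {c0 c1 c2 : ℂ}
    (hφ : (fun z : ℂ => φ z - (c0 + c1 * z + c2 * z ^ 2)) =O[𝓝 0] fun z : ℂ => z ^ 3)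
    (h0 : φ 0 = c0) {σ : ℝ} (hσ : 5 / 6 < σ) :
    ∃ C : ℝ, 0 ≤ C ∧ ∀ᶠ v : HeightOneSpectrum (𝓞 K) in cofinite, ∀ s : ℂ, σ < s.re →
      ‖F.avg φ v s - (c0 - c1 * F.r * TT v s + (c2 - c1) * ((nm v : ℂ) * TT v s ^ 2))‖ ≤
        C * ((nm v : ℝ) ^ (-(3 * σ - 3 / 2)) + (nm v : ℝ) ^ (-(σ + 1 / 2))) := by
  classical
  obtain ⟨C, ρ, hC, hρ, hb⟩ := bound_of_isBigO hφ
  refine ⟨14 * ‖c1‖ + 46 * ‖c2‖ + 27 * C, by positivity, ?_⟩
  filter_upwards [F.mom1, F.mom2, F.bad, nm_rpow_small K (x := 1 / 3) (by norm_num)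
    (show 0 < ρ / 3 by positivity)] with v h1 h2 h3 h4 s hs
  have hq : (2 : ℝ) ≤ nm v := by exact_mod_cast two_le_nm v
  have hq0 : (0 : ℝ) < nm v := by linarith
  set q : ℝ := (nm v : ℝ) with hqd
  set Q : ℝ := q ^ (1 / 2 - s.re) with hQ
  have hQle : Q ≤ q ^ (1 / 2 - σ) := Real.rpow_le_rpow_of_exponent_le (by linarith) (by linarith)
  have hQ3 : Q ≤ q ^ (-(1 / 3) : ℝ) := Real.rpow_le_rpow_of_exponent_le (by linarith) (by linarith)
  have hQ0 : 0 < Q := by positivity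
  have hQ1 : Q ≤ 1 := hQ3.trans (Real.rpow_le_one_of_one_le_of_nonpos (by linarith) (by norm_num))
  have hcard : ((Fintype.card (J → 𝓞 K ⧸ v.asIdeal) : ℕ) : ℝ) = q ^ Fintype.card J := by
    rw [card_fun]; push_cast; rfl
  rw [finsum_eq_sum_of_fintype] at h1 h2
  have key := mean_local (A := J → 𝓞 K ⧸ v.asIdeal) (F.good v) (F.t v) φ c0 c1 c2 C ρ q F.r hC
    (by linarith) hb (F.weil v) (by rw [hcard]; exact h1) (by rw [hcard]; exact h2)
    (by
      rw [hcard]
      refine le_trans (le_of_eq ?_) h3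
      rw [Nat.card_eq_fintype_card, Fintype.card_subtype])
    (TT v s) Q (sqrt_TT v s).symm hQ1 (by linarith)
  have e1 : F.avg φ v s = (∑ a : J → 𝓞 K ⧸ v.asIdeal, if F.good v a then
      φ ((F.t v a : ℂ) * TT v s - q * TT v s ^ 2) else c0) / Fintype.card (J → 𝓞 K ⧸ v.asIdeal) := by
    unfold avg zz
    congr 1
    refine Finset.sum_congr rfl fun a _ => ?_
    split_ifs
    · rfl
    · exact h0
  rw [e1]
  have e2 : c0 - c1 * F.r * TT v s + (c2 - c1) * ((nm v : ℂ) * TT v s ^ 2) =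
      c0 - c1 * ((F.r : ℝ) : ℂ) * TT v s + (c2 - c1) * (q : ℂ) * TT v s ^ 2 := by
    rw [hqd]; push_cast; ring
  rw [e2]
  refine key.trans ?_
  apply mul_le_mul_of_nonneg_left _ (by positivity)
  apply add_le_add
  · calc Q ^ 3 ≤ (q ^ (1 / 2 - σ)) ^ 3 := by gcongr
      _ = q ^ (-(3 * σ - 3 / 2)) := by
        rw [← Real.rpow_natCast, ← Real.rpow_mul hq0.le]
        congr 1
        push_cast
        ring
  · calc Q / q ≤ q ^ (1 / 2 - σ) / q := by gcongr
      _ = q ^ (-(σ + 1 / 2)) := by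
        rw [div_eq_mul_inv, ← Real.rpow_neg_one q, ← Real.rpow_add hq0]
        congr 1
        ring

theorem avg_sum {σ : ℝ} (hσ : 5 / 6 < σ) (C : ℝ) : Summable fun v : HeightOneSpectrum (𝓞 K) =>
    C * ((nm v : ℝ) ^ (-(3 * σ - 3 / 2)) + (nm v : ℝ) ^ (-(σ + 1 / 2))) :=
  ((nm_summable (by linarith)).add (nm_summable (by linarith))).mul_left C

theorem diffOn_avg {φ : ℂ → ℂ} (hφ : ∀ z : ℂ, 1 - z ∈ slitPlane → DifferentiableAt ℂ φ z)
    (v : HeightOneSpectrum (𝓞 K)) : DifferentiableOn ℂ (F.avg φ v) UU := by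
  unfold avg
  refine DifferentiableOn.div_const (DifferentiableOn.fun_sum fun a _ => ?_) _
  intro s hs
  have hs' : (5 : ℝ) / 6 < s.re := hs
  exact ((hφ _ (F.one_sub_zz v a (by linarith))).comp s (F.diff_zz v a s)).differentiableWithinAt

theorem card_ne (v : HeightOneSpectrum (𝓞 K)) :
    ((Fintype.card (J → 𝓞 K ⧸ v.asIdeal) : ℕ) : ℂ) ≠ 0 := by
  exact_mod_cast Fintype.card_ne_zero

/-- **The local means of the powers of the local factors, and their Euler product.** -/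
theorem power (k : ℤ) : ∃ G : ℂ → ℂ, DifferentiableOn ℂ G UU ∧ G 1 ≠ 0 ∧
    ∀ s : ℂ, 1 < s.re → HasProd (fun v => F.avg (fun z => (1 - z) ^ (-k)) v s)
      (G s * dedekindZeta K s ^ (-(k * F.r)) * dedekindZeta K (2 * s - 1) ^ (k * (k - 1) / 2)) := by
  have hdiv : (((k * (k - 1) / 2 : ℤ) : ℤ) : ℂ) = k * (k - 1) / 2 := by
    have h2 : (2 : ℤ) ∣ k * (k - 1) := by
      rcases Int.even_or_odd k with h | h
      · exact (h.mul_right _).two_dvd
      · exact ((h.sub_odd odd_one).mul_left _).two_dvd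
    rw [Int.cast_div h2 (by norm_num)]
    push_cast
    ring
  obtain ⟨G, hG1, hG2, hG3⟩ := euler (K := K) (-(k * F.r)) (k * (k - 1) / 2)
    (fun v => F.avg (fun z => (1 - z) ^ (-k)) v)
    (fun v => F.diffOn_avg (fun z hz => by
      refine DifferentiableAt.zpow (by fun_prop) (Or.inl (slitPlane_ne_zero hz))) v)
    (by
      intro σ hσ
      obtain ⟨C, hC, hb⟩ := F.avg_est (φ := fun z => (1 - z) ^ (-k)) (zpow_exp (-k)) (by simp) hσ
      refine ⟨_, avg_sum hσ C, ?_⟩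
      filter_upwards [hb] with v hv s hs
      refine le_trans (le_of_eq ?_) (hv s hs)
      congr 2
      rw [hdiv]
      push_cast
      ring)
  refine ⟨G, hG1, hG2 1 (by show (5 : ℝ) / 6 < (1 : ℂ).re; norm_num) fun v => ?_, hG3⟩
  -- positivity at `s = 1`
  unfold avg
  apply div_ne_zero _ (card_ne v)
  choose x hx0 hx using fun a => F.zz_one v a
  have e1 : ∑ a : J → 𝓞 K ⧸ v.asIdeal, (1 - F.zz v a 1) ^ (-k) =
      ((∑ a : J → 𝓞 K ⧸ v.asIdeal, x a ^ (-k) : ℝ) : ℂ) := by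
    push_cast
    exact Finset.sum_congr rfl fun a _ => by rw [hx a]
  rw [e1]
  have e2 : 0 < ∑ a : J → 𝓞 K ⧸ v.asIdeal, x a ^ (-k) :=
    Finset.sum_pos (fun a _ => zpow_pos (hx0 a) _) Finset.univ_nonempty
  exact_mod_cast e2.ne'

/-- **The local means of the logarithms of the local factors, and their Euler product.** -/
theorem logs_ne : ∃ G : ℂ → ℂ, DifferentiableOn ℂ G UU ∧ (∀ s ∈ UU, G s ≠ 0) ∧
    ∀ s : ℂ, 1 < s.re → HasProd (fun v => cexp (2 * F.avg (fun z => -Complex.log (1 - z)) v s))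
      (G s * dedekindZeta K s ^ (-(2 * F.r) : ℤ) * dedekindZeta K (2 * s - 1) ^ (-1 : ℤ)) := by
  obtain ⟨G, hG1, hG2, hG3⟩ := euler (K := K) (-(2 * F.r)) (-1)
    (fun v s => cexp (2 * F.avg (fun z => -Complex.log (1 - z)) v s))
    (fun v => by
      refine DifferentiableOn.cexp (DifferentiableOn.const_mul (F.diffOn_avg (fun z hz => ?_) v) _)
      exact ((differentiableAt_const _).sub differentiableAt_id).clog hz |>.neg)
    (by
      intro σ hσ
      obtain ⟨C, hC, hb⟩ := F.avg_est (φ := fun z => -Complex.log (1 - z)) log_exp (by simp) hσ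
      obtain ⟨C', ρ, hC', hρ, hexp⟩ := bound_of_isBigO exp_exp
      set R : ℝ := 2 * F.r + 1 + 2 * C * 2 with hR
      have hR0 : 0 < R := by positivity
      refine ⟨fun v => C' * (R ^ 2 * (nm v : ℝ) ^ (-(4 / 3 : ℝ))) + 2 * (C * ((nm v : ℝ) ^ (-(3 * σ - 3 / 2)) +
        (nm v : ℝ) ^ (-(σ + 1 / 2)))), ?_, ?_⟩
      · exact (((nm_summable (by norm_num)).mul_left _).mul_left _).add ((avg_sum hσ C).mul_left 2)
      · filter_upwards [hb, nm_rpow_small K (x := 2 / 3) (by norm_num)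
          (show 0 < ρ / R by positivity)] with v hv hsm s hs
        have hq : (2 : ℝ) ≤ nm v := by exact_mod_cast two_le_nm v
        have hq0 : (0 : ℝ) < nm v := by linarith
        have h1 := hv s hs
        set q : ℝ := (nm v : ℝ) with hqd
        set Y : ℝ := q ^ (-(2 / 3) : ℝ) with hY
        have hY0 : 0 < Y := by positivity
        have hT : ‖TT v s‖ ≤ Y := by
          rw [norm_TT]
          exact Real.rpow_le_rpow_of_exponent_le (by linarith) (by linarith)
        have hqT : ‖(nm v : ℂ) * TT v s ^ 2‖ ≤ Y := by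
          rw [norm_qTT]
          exact Real.rpow_le_rpow_of_exponent_le (by linarith) (by linarith)
        have hE : C * (q ^ (-(3 * σ - 3 / 2)) + q ^ (-(σ + 1 / 2))) ≤ C * 2 * Y := by
          have e1 : q ^ (-(3 * σ - 3 / 2)) ≤ Y :=
            Real.rpow_le_rpow_of_exponent_le (by linarith) (by linarith)
          have e2 : q ^ (-(σ + 1 / 2)) ≤ Y :=
            Real.rpow_le_rpow_of_exponent_le (by linarith) (by linarith)
          calc _ ≤ C * (Y + Y) := by gcongr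
            _ = _ := by ring
        generalize F.avg (fun z => -Complex.log (1 - z)) v s = A at h1 ⊢
        generalize C * (q ^ (-(3 * σ - 3 / 2)) + q ^ (-(σ + 1 / 2))) = E at h1 hE ⊢
        generalize TT v s = T at h1 hT hqT ⊢
        set P := (nm v : ℂ) * T ^ 2 with hP
        have h2 : ‖A - (0 - 1 * F.r * T + (1 / 2 - 1) * P)‖ ≤ Y * (C * 2) := by linarith
        have hw : ‖2 * A‖ ≤ R * Y := by
          have e1 : 2 * A = 2 * (A - (0 - 1 * F.r * T + (1 / 2 - 1) * P)) - (2 * F.r * T + P) := by ring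
          rw [e1]
          have e2 : ‖2 * (F.r : ℂ) * T‖ ≤ 2 * F.r * Y := by
            rw [norm_mul, norm_mul, Complex.norm_natCast, Complex.norm_ofNat]
            gcongr
          calc _ ≤ ‖2 * (A - (0 - 1 * F.r * T + (1 / 2 - 1) * P))‖ + ‖2 * F.r * T + P‖ := norm_sub_le _ _
            _ ≤ 2 * (Y * (C * 2)) + (2 * F.r * Y + Y) := by
                apply add_le_add
                · rw [norm_mul, Complex.norm_ofNat]
                  gcongr
                · exact (norm_add_le _ _).trans (add_le_add e2 hqT)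
            _ = R * Y := by rw [hR]; ring
        have hwρ : ‖2 * A‖ ≤ ρ := by
          refine hw.trans ?_
          rw [le_div_iff₀ hR0] at hsm
          linarith
        have h3 := hexp (2 * A) hwρ
        have h4 : cexp (2 * A) - (1 + ((-(2 * F.r) : ℤ) : ℂ) * T + ((-1 : ℤ) : ℂ) * P) =
            (cexp (2 * A) - (1 + 2 * A)) + 2 * (A - (0 - 1 * F.r * T + (1 / 2 - 1) * P)) := by
          push_cast
          ring
        rw [h4]
        have hY2 : Y ^ 2 = q ^ (-(4 / 3 : ℝ)) := by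
          rw [hY, ← Real.rpow_natCast, ← Real.rpow_mul (by linarith)]
          norm_num
        calc _ ≤ ‖cexp (2 * A) - (1 + 2 * A)‖ + ‖2 * (A - (0 - 1 * F.r * T + (1 / 2 - 1) * P))‖ :=
              norm_add_le _ _
          _ ≤ C' * (R ^ 2 * q ^ (-(4 / 3 : ℝ))) + 2 * E := by
              apply add_le_add
              · refine h3.trans ?_
                apply mul_le_mul_of_nonneg_left _ hC'
                rw [← hY2, ← mul_pow]
                exact pow_le_pow_left₀ (norm_nonneg _) hw 2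
              · rw [norm_mul, Complex.norm_ofNat]
                gcongr)
  exact ⟨G, hG1, fun s hs => hG2 s hs fun v => Complex.exp_ne_zero _, hG3⟩

theorem logs : ∃ G : ℂ → ℂ, DifferentiableOn ℂ G UU ∧ G 1 ≠ 0 ∧
    ∀ s : ℂ, 1 < s.re → HasProd (fun v => cexp (2 * F.avg (fun z => -Complex.log (1 - z)) v s))
      (G s * dedekindZeta K s ^ (-(2 * F.r) : ℤ) * dedekindZeta K (2 * s - 1) ^ (-1 : ℤ)) := by
  obtain ⟨G, h1, h2, h3⟩ := F.logs_ne
  exact ⟨G, h1, h2 1 (by show (5 : ℝ) / 6 < (1 : ℂ).re; norm_num), h3⟩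

end Fam

end Pool.Agent.Helper89.MM
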