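import Pool.Agent.Helper89.MM.Zeta
import Pool.Agent.Helper89.MM.Exp

/-!
# Euler products with two polar factors
-/

set_option autoImplicit false

namespace Pool.Agent.Helper89.MM

open NumberField IsDedekindDomain Complex Filter Topology
open Pool.Agent.H921R2.TatePole (nm two_le_nm nm_summable nm_ne_zero)

/-- powers of convergent products -/
theorem hasProd_zpow {ι : Type*} {f : ι → ℂ} {a : ℂ} (h : HasProd f a) (ha : a ≠ 0) (n : ℤ) :
    HasProd (fun i => f i ^ n) (a ^ n) := by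
  have hpow : ∀ m : ℕ, HasProd (fun i => f i ^ m) (a ^ m) := by
    intro m
    induction m with
    | zero => simpa using hasProd_one
    | succ m ih =>
      simp only [pow_succ]
      exact ih.mul h
  obtain ⟨m, rfl | rfl⟩ := n.eq_nat_or_neg
  · simpa using hpow m
  · simp only [zpow_neg, zpow_natCast]
    have h1 := hpow m
    unfold HasProd at h1 ⊢
    have h2 := h1.inv₀ (pow_ne_zero m ha)
    refine h2.congr fun s => ?_
    rw [Finset.prod_inv_distrib]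

section
variable (K : Type) [Field K] [NumberField K]

theorem nm_atTop : Tendsto (fun v : HeightOneSpectrum (𝓞 K) => ((nm v : ℕ) : ℝ)) cofinite atTop := by
  have h1 := (nm_summable (K := K) (x := 2) (by norm_num)).tendsto_cofinite_zero
  rw [tendsto_atTop]
  intro b
  have hb : (0 : ℝ) < 1 / (max b 1) ^ 2 := by positivity
  filter_upwards [h1.eventually (gt_mem_nhds hb)] with v hv
  have h2 : (0 : ℝ) < nm v := by exact_mod_cast (by have := two_le_nm v; omega : 0 < nm v)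
  rw [Real.rpow_neg h2.le, Real.rpow_two, ← one_div] at hv
  have h3 := (one_div_lt_one_div (by positivity) (by positivity)).mp hv
  have h4 : max b 1 < nm v := lt_of_pow_lt_pow_left₀ 2 h2.le h3
  exact (le_max_left _ _).trans h4.le

theorem nm_rpow_small {x c : ℝ} (hx : 0 < x) (hc : 0 < c) :
    ∀ᶠ v : HeightOneSpectrum (𝓞 K) in cofinite, (nm v : ℝ) ^ (-x) ≤ c := by
  have h1 := (tendsto_rpow_neg_atTop hx).comp (nm_atTop K)
  filter_upwards [h1.eventually (gt_mem_nhds hc)] with v hv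
  exact hv.le

variable {K}

/-- `q^(-s)` -/
noncomputable def TT (v : HeightOneSpectrum (𝓞 K)) (s : ℂ) : ℂ := ((nm v : ℕ) : ℂ) ^ (-s)

theorem nm_cast_ne (v : HeightOneSpectrum (𝓞 K)) : ((nm v : ℕ) : ℂ) ≠ 0 := by
  exact_mod_cast nm_ne_zero v

theorem norm_TT (v : HeightOneSpectrum (𝓞 K)) (s : ℂ) : ‖TT v s‖ = (nm v : ℝ) ^ (-s.re) := by
  have h2 := two_le_nm v
  rw [TT, Complex.norm_natCast_cpow_of_pos (by omega), neg_re]

theorem diff_TT (v : HeightOneSpectrum (𝓞 K)) : Differentiable ℂ (TT v) := fun s =>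
  (differentiableAt_id.neg).const_cpow (Or.inl (nm_cast_ne v))

theorem TT_two (v : HeightOneSpectrum (𝓞 K)) (s : ℂ) :
    ((nm v : ℕ) : ℂ) ^ (-(2 * s - 1)) = (nm v : ℂ) * TT v s ^ 2 := by
  unfold TT
  have h1 : -(2 * s - 1) = 1 + (-s + -s) := by ring
  rw [h1, Complex.cpow_add _ _ (nm_cast_ne v), Complex.cpow_add _ _ (nm_cast_ne v), Complex.cpow_one, sq]

theorem norm_qTT (v : HeightOneSpectrum (𝓞 K)) (s : ℂ) :
    ‖(nm v : ℂ) * TT v s ^ 2‖ = (nm v : ℝ) ^ (1 - 2 * s.re) := by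
  have h2 := two_le_nm v
  rw [← TT_two, Complex.norm_natCast_cpow_of_pos (by omega)]
  congr 1
  simp

theorem one_sub_TT_ne (v : HeightOneSpectrum (𝓞 K)) {s : ℂ} (hs : 0 < s.re) : 1 - TT v s ≠ 0 :=
  one_sub_ne K v hs

theorem one_sub_qTT_ne (v : HeightOneSpectrum (𝓞 K)) {s : ℂ} (hs : 1 / 2 < s.re) :
    1 - (nm v : ℂ) * TT v s ^ 2 ≠ 0 := by
  rw [← TT_two]
  exact one_sub_ne K v (by simp; linarith)

/-- the half plane -/
def UU : Set ℂ := {s : ℂ | 5 / 6 < s.re}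

theorem isOpen_re (σ : ℝ) : IsOpen {s : ℂ | σ < s.re} := isOpen_lt continuous_const Complex.continuous_re

/-- the elementary estimate -/
theorem prod_near {x y a b e : ℂ} {X : ℝ} (hx : ‖x‖ ≤ X) (hy : ‖y‖ ≤ X) (hxy : ‖x + y‖ ≤ X)
    (ha : ‖a‖ ≤ X ^ 2) (hb : ‖b‖ ≤ X ^ 2) (hX : X ≤ 1) :
    ‖(1 + x + y + e) * (1 - x + a) * (1 - y + b) - 1‖ ≤ 13 * X ^ 2 + 8 * ‖e‖ := by
  have hX0 : 0 ≤ X := (norm_nonneg _).trans hx
  have hX2 : X ^ 2 ≤ 1 := pow_le_one₀ hX0 hX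
  have hX2' : 0 ≤ X ^ 2 := by positivity
  set w := x * y + a + b - x * b - a * y + a * b with hw
  have hid : (1 + x + y + e) * (1 - x + a) * (1 - y + b) - 1 =
      -(x + y) ^ 2 + w + (x + y) * w + e * (1 - (x + y) + w) := by rw [hw]; ring
  have hwb : ‖w‖ ≤ 6 * X ^ 2 := by
    have e1 : ‖x * y‖ ≤ X ^ 2 := by rw [norm_mul, sq]; gcongr
    have e2 : ‖x * b‖ ≤ X ^ 2 := by
      rw [norm_mul]
      calc ‖x‖ * ‖b‖ ≤ 1 * X ^ 2 := by gcongr; exact hx.trans hX
        _ = _ := one_mul _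
    have e3 : ‖a * y‖ ≤ X ^ 2 := by
      rw [norm_mul]
      calc ‖a‖ * ‖y‖ ≤ X ^ 2 * 1 := by gcongr; exact hy.trans hX
        _ = _ := mul_one _
    have e4 : ‖a * b‖ ≤ X ^ 2 := by
      rw [norm_mul]
      calc ‖a‖ * ‖b‖ ≤ X ^ 2 * 1 := by gcongr; exact hb.trans hX2
        _ = _ := mul_one _
    calc ‖w‖ ≤ ‖x * y‖ + ‖a‖ + ‖b‖ + ‖x * b‖ + ‖a * y‖ + ‖a * b‖ := by
          rw [hw]
          refine (norm_add_le _ _).trans (add_le_add ?_ le_rfl)
          refine (norm_sub_le _ _).trans (add_le_add ?_ le_rfl)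
          refine (norm_sub_le _ _).trans (add_le_add ?_ le_rfl)
          refine (norm_add_le _ _).trans (add_le_add ?_ le_rfl)
          exact norm_add_le _ _
      _ ≤ _ := by linarith
  rw [hid]
  have hxy1 : ‖x + y‖ ≤ 1 := hxy.trans hX
  have b1 : ‖-(x + y) ^ 2‖ ≤ X ^ 2 := by rw [norm_neg, norm_pow]; gcongr
  have b2 : ‖(x + y) * w‖ ≤ 6 * X ^ 2 := by
    rw [norm_mul]
    calc ‖x + y‖ * ‖w‖ ≤ 1 * (6 * X ^ 2) := by gcongr
      _ = _ := one_mul _
  have b3 : ‖e * (1 - (x + y) + w)‖ ≤ 8 * ‖e‖ := by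
    rw [norm_mul]
    have : ‖1 - (x + y) + w‖ ≤ 8 := by
      calc _ ≤ ‖(1 : ℂ)‖ + ‖x + y‖ + ‖w‖ :=
            (norm_add_le _ _).trans (add_le_add (norm_sub_le _ _) le_rfl)
        _ ≤ 1 + 1 + 6 := by
            rw [norm_one]
            have : ‖w‖ ≤ 6 := hwb.trans (by linarith)
            linarith
        _ = 8 := by norm_num
    calc ‖e‖ * ‖1 - (x + y) + w‖ ≤ ‖e‖ * 8 := by gcongr
      _ = _ := by ring
  calc _ ≤ ‖-(x + y) ^ 2‖ + ‖w‖ + ‖(x + y) * w‖ + ‖e * (1 - (x + y) + w)‖ := by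
        refine (norm_add_le _ _).trans (add_le_add ?_ le_rfl)
        refine (norm_add_le _ _).trans (add_le_add ?_ le_rfl)
        exact norm_add_le _ _
    _ ≤ _ := by linarith

/-- the estimate with powers -/
theorem near (α β : ℤ) {C1 C2 ρ1 ρ2 M Y u : ℝ} {T P F : ℂ}
    (h1 : ∀ z : ℂ, ‖z‖ ≤ ρ1 → ‖(1 - z) ^ α - (1 - α * z)‖ ≤ C1 * ‖z‖ ^ 2)
    (h2 : ∀ z : ℂ, ‖z‖ ≤ ρ2 → ‖(1 - z) ^ β - (1 - β * z)‖ ≤ C2 * ‖z‖ ^ 2)
    (hC1 : 0 ≤ C1) (_hC2 : 0 ≤ C2)
    (hαM : |(α : ℝ)| ≤ M) (hβM : |(β : ℝ)| ≤ M) (hC1M : C1 ≤ M) (hC2M : C2 ≤ M) (hM1 : 1 ≤ M)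
    (hY0 : 0 < Y) (hYM : 2 * M * Y ≤ 1) (hYρ1 : Y ≤ ρ1) (hYρ2 : Y ≤ ρ2)
    (hT : ‖T‖ ≤ Y) (hP : ‖P‖ ≤ Y) (he : ‖F - (1 + α * T + β * P)‖ ≤ u) :
    ‖F * (1 - T) ^ α * (1 - P) ^ β - 1‖ ≤ 13 * M ^ 2 * (4 * Y ^ 2) + 8 * u := by
  have ea := h1 T (hT.trans hYρ1)
  have eb := h2 P (hP.trans hYρ2)
  have hnα : ‖(α : ℂ)‖ = |(α : ℝ)| := Complex.norm_intCast α
  have hnβ : ‖(β : ℂ)‖ = |(β : ℝ)| := Complex.norm_intCast β
  have hx : ‖(α : ℂ) * T‖ ≤ M * Y := by
    rw [norm_mul, hnα]; gcongr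
  have hy : ‖(β : ℂ) * P‖ ≤ M * Y := by
    rw [norm_mul, hnβ]; gcongr
  have hMM : M ≤ (2 * M) ^ 2 := by nlinarith
  have hMY : 0 ≤ M * Y := by positivity
  generalize (1 - T) ^ α = A at ea ⊢
  generalize (1 - P) ^ β = B at eb ⊢
  have hA : A = 1 - α * T + (A - (1 - α * T)) := by ring
  have hB : B = 1 - β * P + (B - (1 - β * P)) := by ring
  have hF : F = 1 + α * T + β * P + (F - (1 + α * T + β * P)) := by ring
  have ea' : ‖A - (1 - α * T)‖ ≤ (2 * M * Y) ^ 2 := by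
    refine ea.trans ?_
    calc C1 * ‖T‖ ^ 2 ≤ M * Y ^ 2 := by gcongr
      _ ≤ (2 * M) ^ 2 * Y ^ 2 := by gcongr
      _ = _ := by ring
  have eb' : ‖B - (1 - β * P)‖ ≤ (2 * M * Y) ^ 2 := by
    refine eb.trans ?_
    calc C2 * ‖P‖ ^ 2 ≤ M * Y ^ 2 := by gcongr
      _ ≤ (2 * M) ^ 2 * Y ^ 2 := by gcongr
      _ = _ := by ring
  have key := prod_near (x := α * T) (y := β * P) (a := A - (1 - α * T)) (b := B - (1 - β * P))
    (e := F - (1 + α * T + β * P)) (X := 2 * M * Y)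
    (hx.trans (by linarith)) (hy.trans (by linarith))
    ((norm_add_le _ _).trans (by linarith)) ea' eb' hYM
  rw [← hF, ← hA, ← hB] at key
  have e3 : (2 * M * Y) ^ 2 = M ^ 2 * (4 * Y ^ 2) := by ring
  rw [e3] at key
  linarith

/-- **Euler products with two polar factors.** -/
theorem euler (α β : ℤ) (f : HeightOneSpectrum (𝓞 K) → ℂ → ℂ)
    (hf : ∀ v, DifferentiableOn ℂ (f v) UU)
    (hb : ∀ σ : ℝ, 5 / 6 < σ → ∃ u : HeightOneSpectrum (𝓞 K) → ℝ, Summable u ∧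
      ∀ᶠ v in cofinite, ∀ s : ℂ, σ < s.re →
        ‖f v s - (1 + α * TT v s + β * ((nm v : ℂ) * TT v s ^ 2))‖ ≤ u v) :
    ∃ G : ℂ → ℂ, DifferentiableOn ℂ G UU ∧ (∀ s ∈ UU, (∀ v, f v s ≠ 0) → G s ≠ 0) ∧
      ∀ s : ℂ, 1 < s.re → HasProd (fun v => f v s)
        (G s * dedekindZeta K s ^ α * dedekindZeta K (2 * s - 1) ^ β) := by
  obtain ⟨C1, ρ1, hC1, hρ1, h1⟩ := bound_of_isBigO (zpow_exp_one α)
  obtain ⟨C2, ρ2, hC2, hρ2, h2⟩ := bound_of_isBigO (zpow_exp_one β)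
  let h : HeightOneSpectrum (𝓞 K) → ℂ → ℂ := fun v s =>
    f v s * (1 - TT v s) ^ α * (1 - (nm v : ℂ) * TT v s ^ 2) ^ β
  -- differentiability of the factors
  have hhd : ∀ v, DifferentiableOn ℂ (h v) UU := by
    intro v s hs
    have hs' : (5 : ℝ) / 6 < s.re := hs
    have e1 : DifferentiableAt ℂ (fun s => (1 - TT v s) ^ α) s :=
      ((differentiableAt_const _).sub (diff_TT v s)).zpow
        (Or.inl (one_sub_TT_ne v (by linarith)))
    have e2 : DifferentiableAt ℂ (fun s => (1 - (nm v : ℂ) * TT v s ^ 2) ^ β) s :=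
      ((differentiableAt_const _).sub ((differentiableAt_const _).mul ((diff_TT v s).pow 2))).zpow
        (Or.inl (one_sub_qTT_ne v (by linarith)))
    exact ((hf v s hs).mul e1.differentiableWithinAt).mul e2.differentiableWithinAt
  -- the estimate
  have hest : ∀ σ : ℝ, 5 / 6 < σ → ∃ u : HeightOneSpectrum (𝓞 K) → ℝ, Summable u ∧
      ∀ᶠ v in cofinite, ∀ s ∈ {s : ℂ | σ < s.re}, ‖h v s - 1‖ ≤ u v := by
    intro σ hσ
    obtain ⟨u, hu, hbd⟩ := hb σ hσ
    set M : ℝ := 1 + |(α : ℝ)| + |(β : ℝ)| + C1 + C2 with hM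
    have hM1 : 1 ≤ M := by
      rw [hM]
      have := abs_nonneg (α : ℝ)
      have := abs_nonneg (β : ℝ)
      linarith
    have hαM : |(α : ℝ)| ≤ M := by
      rw [hM]; have := abs_nonneg (β : ℝ); linarith
    have hβM : |(β : ℝ)| ≤ M := by
      rw [hM]; have := abs_nonneg (α : ℝ); linarith
    have hC1M : C1 ≤ M := by
      rw [hM]; have := abs_nonneg (α : ℝ); have := abs_nonneg (β : ℝ); linarith
    have hC2M : C2 ≤ M := by
      rw [hM]; have := abs_nonneg (α : ℝ); have := abs_nonneg (β : ℝ); linarith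
    refine ⟨fun v => 13 * M ^ 2 * (4 * (nm v : ℝ) ^ (-(4 / 3 : ℝ))) + 8 * u v, ?_, ?_⟩
    · exact (((nm_summable (by norm_num)).mul_left 4).mul_left _).add (hu.mul_left 8)
    · set c : ℝ := min (min ρ1 ρ2) (1 / (2 * M)) with hc
      have hc0 : 0 < c := by
        rw [hc]
        exact lt_min (lt_min hρ1 hρ2) (by positivity)
      filter_upwards [hbd, nm_rpow_small K (x := 2 / 3) (by norm_num) hc0] with v hv hvc s hs
      have hs' : σ < s.re := hs
      have hq : (2 : ℝ) ≤ nm v := by exact_mod_cast two_le_nm v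
      have hT : ‖TT v s‖ ≤ (nm v : ℝ) ^ (-(2 / 3) : ℝ) := by
        rw [norm_TT]
        exact Real.rpow_le_rpow_of_exponent_le (by linarith) (by linarith)
      have hqT : ‖(nm v : ℂ) * TT v s ^ 2‖ ≤ (nm v : ℝ) ^ (-(2 / 3) : ℝ) := by
        rw [norm_qTT]
        exact Real.rpow_le_rpow_of_exponent_le (by linarith) (by linarith)
      set Y : ℝ := (nm v : ℝ) ^ (-(2 / 3) : ℝ) with hY
      have hY0 : 0 < Y := by positivity
      have hY2 : Y ^ 2 = (nm v : ℝ) ^ (-(4 / 3 : ℝ)) := by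
        rw [hY, ← Real.rpow_natCast, ← Real.rpow_mul (by linarith)]
        norm_num
      have hYM : 2 * M * Y ≤ 1 := by
        have : Y ≤ 1 / (2 * M) := hvc.trans (min_le_right _ _)
        rw [le_div_iff₀ (by positivity)] at this
        linarith
      have hYρ1 : Y ≤ ρ1 := hvc.trans ((min_le_left _ _).trans (min_le_left _ _))
      have hYρ2 : Y ≤ ρ2 := hvc.trans ((min_le_left _ _).trans (min_le_right _ _))
      have key := near α β h1 h2 hC1 hC2 hαM hβM hC1M hC2M hM1 hY0 hYM hYρ1 hYρ2 hT hqT (hv s hs')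
      rw [hY2] at key
      exact key
  -- summability at a point
  have hsum : ∀ s ∈ UU, Summable fun v => ‖h v s - 1‖ := by
    intro s hs
    have hs' : (5 : ℝ) / 6 < s.re := hs
    obtain ⟨u, hu, hbd⟩ := hest ((5 / 6 + s.re) / 2) (by linarith)
    refine Summable.of_norm_bounded_eventually hu ?_
    filter_upwards [hbd] with v hv
    rw [norm_norm]
    exact hv s (show (5 / 6 + s.re) / 2 < s.re by linarith)
  have hprod : ∀ s ∈ UU, HasProd (fun v => h v s) (∏' v, h v s) := by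
    intro s hs
    have h3 := (multipliable_one_add_of_summable (hsum s hs)).hasProd
    simpa using h3
  refine ⟨fun s => ∏' v, h v s, ?_, ?_, ?_⟩
  · intro s hs
    have hs' : (5 : ℝ) / 6 < s.re := hs
    set σ := (5 / 6 + s.re) / 2 with hσ
    have hσ1 : 5 / 6 < σ := by rw [hσ]; linarith
    have hσ2 : σ < s.re := by rw [hσ]; linarith
    obtain ⟨u, hu, hbd⟩ := hest σ hσ1
    have hsub : {s : ℂ | σ < s.re} ⊆ UU := fun z hz => lt_trans hσ1 hz
    have h3 := Summable.hasProdLocallyUniformlyOn_one_add (f := fun v s => h v s - 1)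
      (isOpen_re σ) hu hbd (fun v => (((hhd v).mono hsub).sub_const 1).continuousOn)
    have h4 := hasProdLocallyUniformlyOn_iff_tendstoLocallyUniformlyOn.mp h3
    have h5 := h4.differentiableOn (Eventually.of_forall fun t => ?_) (isOpen_re σ)
    · have h6 : (fun s => ∏' v, (1 + (h v s - 1))) = fun s => ∏' v, h v s := by
        funext s
        congr 1
        funext v
        ring
      rw [h6] at h5
      exact (h5.differentiableAt ((isOpen_re σ).mem_nhds hσ2)).differentiableWithinAt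
    · refine DifferentiableOn.fun_finsetProd fun v _ => ?_
      exact (differentiableOn_const _).add (((hhd v).mono hsub).sub_const 1)
  · intro s hs hne
    have hs' : (5 : ℝ) / 6 < s.re := hs
    have h3 := tprod_one_add_ne_zero_of_summable (f := fun v => h v s - 1) (fun v => ?_) (hsum s hs)
    · have h6 : (fun v => (1 + (h v s - 1))) = fun v => h v s := by funext v; ring
      rwa [h6] at h3
    · rw [add_sub_cancel]
      exact mul_ne_zero (mul_ne_zero (hne v) (zpow_ne_zero _ (one_sub_TT_ne v (by linarith))))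
        (zpow_ne_zero _ (one_sub_qTT_ne v (by linarith)))
  · intro s hs
    have hsU : s ∈ UU := by
      show (5 : ℝ) / 6 < s.re
      linarith
    have hs2 : 1 < (2 * s - 1).re := by simp; linarith
    have h3 := hprod s hsU
    have h4 := hasProd_zpow (zeta_hasProd K hs) (zeta_ne K hs) α
    have h5 := hasProd_zpow (zeta_hasProd K hs2) (zeta_ne K hs2) β
    have h6 := (h3.mul h4).mul h5
    refine h6.congr_fun fun v => ?_
    have e1 := one_sub_TT_ne v (s := s) (by linarith)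
    have e2 := one_sub_qTT_ne v (s := s) (by linarith)
    rw [TT_two]
    change f v s = f v s * (1 - TT v s) ^ α * (1 - (nm v : ℂ) * TT v s ^ 2) ^ β *
      ((1 - TT v s)⁻¹) ^ α * ((1 - (nm v : ℂ) * TT v s ^ 2)⁻¹) ^ β
    rw [inv_zpow, inv_zpow]
    have e3 := zpow_ne_zero α e1
    have e4 := zpow_ne_zero β e2
    generalize (1 - TT v s) ^ α = A at e3 ⊢
    generalize (1 - (nm v : ℂ) * TT v s ^ 2) ^ β = B at e4 ⊢
    field_simp

end

end Pool.Agent.Helper89.MM
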