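import Pool.Graph.R_seed8.Y773.AB.Unr
import Pool.Graph.R_seed8.Y773.AB.Res
import Pool.Graph.R_seed8.Y772.NZ.Zeta
import Pool.Graph.R_seed8.H921R2.TatePole.Dedekind

/-!
# The Dedekind zeta function: Euler product and continuation
-/

set_option autoImplicit false

namespace Pool.Agent.Helper89.MM

open NumberField IsDedekindDomain Complex Filter Topology
open Pool.Agent.H921R2.TatePole (nm two_le_nm nm_summable nm_ne_zero)
open Pool.Agent.Y773 (LI)
open Pool.Agent.Y773.AB (res LI_res Ef Ef_ne Ef_diff hasProd_prime norm_res_le res_apply res_cop res_not)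
open Pool.Agent.Y772.NZ (one one_ne one_norm LI_one near_one)

variable (K : Type) [Field K] [NumberField K]

/-- the prime ideals, in two versions -/
noncomputable def primeEquiv : HeightOneSpectrum (𝓞 K) ≃ {𝔭 : Ideal (𝓞 K) // Prime 𝔭} where
  toFun v := ⟨v.asIdeal, v.prime⟩
  invFun 𝔭 := ⟨𝔭.1, Ideal.isPrime_of_prime 𝔭.2, 𝔭.2.ne_zero⟩
  left_inv _ := rfl
  right_inv _ := rfl

theorem zeta_hasProd {s : ℂ} (hs : 1 < s.re) :
    HasProd (fun v : HeightOneSpectrum (𝓞 K) => (1 - ((nm v : ℕ) : ℂ) ^ (-s))⁻¹) (dedekindZeta K s) := by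
  have h1 := hasProd_prime (one_norm K) hs
  rw [LI_one K hs] at h1
  rw [← (primeEquiv K).hasProd_iff] at h1
  refine h1.congr_fun fun v => ?_
  simp only [Function.comp_apply]
  have h2 : one K ((primeEquiv K v : {𝔭 : Ideal (𝓞 K) // Prime 𝔭}) : Ideal (𝓞 K)) = 1 :=
    one_ne K v.ne_bot
  rw [h2, one_mul]
  rfl

theorem one_sub_ne (v : HeightOneSpectrum (𝓞 K)) {s : ℂ} (hs : 0 < s.re) :
    1 - ((nm v : ℕ) : ℂ) ^ (-s) ≠ 0 := by
  intro h0
  have h1 : ‖((nm v : ℕ) : ℂ) ^ (-s)‖ = 1 := by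
    rw [← sub_eq_zero.mp h0, norm_one]
  have h2 := two_le_nm v
  rw [Complex.norm_natCast_cpow_of_pos (by omega), neg_re] at h1
  have h3 : ((nm v : ℕ) : ℝ) ^ (-s.re) < 1 :=
    Real.rpow_lt_one_of_one_lt_of_neg (by exact_mod_cast (by omega : 1 < nm v)) (by linarith)
  linarith

theorem zeta_ne {s : ℂ} (hs : 1 < s.re) : dedekindZeta K s ≠ 0 := by
  have h1 := zeta_hasProd K hs
  have h2 : Summable fun v : HeightOneSpectrum (𝓞 K) => ‖-((nm v : ℕ) : ℂ) ^ (-s)‖ := by
    have := nm_summable (K := K) hs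
    refine this.congr fun v => ?_
    have h2 := two_le_nm v
    rw [norm_neg, Complex.norm_natCast_cpow_of_pos (by omega), neg_re]
  have h3 := tprod_one_add_ne_zero_of_summable (f := fun v : HeightOneSpectrum (𝓞 K) =>
    -((nm v : ℕ) : ℂ) ^ (-s)) (fun v => by
      rw [← sub_eq_add_neg]; exact one_sub_ne K v (by linarith)) h2
  have h4 := (multipliable_one_add_of_summable h2).hasProd
  have h5 := h1.mul h4
  have h6 : (fun v : HeightOneSpectrum (𝓞 K) => (1 - ((nm v : ℕ) : ℂ) ^ (-s))⁻¹ *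
      (1 + -((nm v : ℕ) : ℂ) ^ (-s))) = fun _ => 1 := by
    funext v
    rw [← sub_eq_add_neg, inv_mul_cancel₀ (one_sub_ne K v (by linarith))]
  rw [h6] at h5
  have h7 := h5.unique hasProd_one
  intro h0
  rw [h0, zero_mul] at h7
  exact zero_ne_one h7

/-- **The continuation of the Dedekind zeta function to `Re s > 0`.** -/
theorem zeta_cont : ∃ H : ℂ → ℂ, DifferentiableOn ℂ H {s : ℂ | 0 < s.re} ∧ H 1 ≠ 0 ∧
    ∀ s : ℂ, 1 < s.re → dedekindZeta K s = H s / (s - 1) := by
  classical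
  set 𝔪 : Ideal (𝓞 K) := Ideal.span {((2 : ℕ) : 𝓞 K)} with h𝔪
  have htop : 𝔪 ≠ ⊤ := Pool.Agent.Y773.natCast_mem_ne_top le_rfl
  have hbot : 𝔪 ≠ ⊥ := by
    rw [h𝔪, Ne, Ideal.span_singleton_eq_bot]
    exact Nat.cast_ne_zero.mpr (by norm_num)
  have hmod : Pool.Agent.Y773.G.IsModChar 𝔪 (fun _ : InfinitePlace K => 0) (res 𝔪 htop (one K)) := by
    refine ⟨hbot, htop, fun _ => by norm_num, fun _ _ => rfl, fun 𝔞 => ?_, fun x hx hx1 => ?_⟩
    · rw [res_apply]
      constructor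
      · intro h
        by_contra hc
        rw [if_neg hc] at h
        exact h rfl
      · intro hc
        rw [if_pos hc, one_ne K]
        · exact one_ne_zero
        · rintro rfl
          rw [Ideal.zero_eq_bot, Ideal.isCoprime_iff_sup_eq, bot_sup_eq] at hc
          exact htop hc
    · have hc : IsCoprime (Ideal.span {x}) 𝔪 := by
        rw [Ideal.isCoprime_iff_exists]
        refine ⟨x, Ideal.mem_span_singleton_self x, 1 - x, ?_, by ring⟩
        have : 1 - x = -(x - 1) := by ring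
        rw [this]
        exact neg_mem hx1
      rw [res_cop htop (one K) hc, one_ne K]
      · simp [Pool.Agent.Y773.G.sg]
      · rwa [Ne, Ideal.zero_eq_bot, Ideal.span_singleton_eq_bot]
  obtain ⟨H0, hH0, hH1, -⟩ := Pool.Agent.Y773.G.LI_mero hmod
  have hE0 : ∀ s : ℂ, 0 < s.re → Ef 𝔪 (one K) s ≠ 0 := fun s hs => Ef_ne hbot (one_norm K) hs
  have hEd := Ef_diff hbot (one K)
  have hdiff : DifferentiableOn ℂ (fun s => H0 s / Ef 𝔪 (one K) s) {s : ℂ | 0 < s.re} := fun s hs =>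
    ((hH0 s).div (hEd s) (hE0 s hs)).differentiableWithinAt
  have heq : ∀ s : ℂ, 1 < s.re → dedekindZeta K s = H0 s / Ef 𝔪 (one K) s / (s - 1) := by
    intro s hs
    have h1 := hH1 s hs
    rw [LI_res hbot htop (one_norm K) hs, LI_one K hs] at h1
    have h2 := hE0 s (by linarith)
    have h3 : s - 1 ≠ 0 := by
      intro h0
      have := congrArg Complex.re h0
      simp at this
      linarith
    rw [h1]
    field_simp
  refine ⟨fun s => H0 s / Ef 𝔪 (one K) s, hdiff, ?_, heq⟩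
  obtain ⟨g, hg, hg1, hgz⟩ := near_one K
  have ht : Tendsto (fun x : ℝ => (x : ℂ)) (𝓝[>] 1) (𝓝 (1 : ℂ)) := by
    have h0 := (continuous_ofReal.tendsto (1 : ℝ))
    rw [ofReal_one] at h0
    exact h0.mono_left nhdsWithin_le_nhds
  have h1 := hg.continuousAt.tendsto.comp ht
  have hc : ContinuousAt (fun s => H0 s / Ef 𝔪 (one K) s) 1 :=
    (((hH0 1).div (hEd 1) (hE0 1 (by simp))).continuousAt)
  have h2 := hc.tendsto.comp ht
  have h3 : (fun x : ℝ => g x) =ᶠ[𝓝[>] 1] fun x : ℝ => H0 x / Ef 𝔪 (one K) x := by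
    filter_upwards [ht.eventually hgz, self_mem_nhdsWithin] with x hx hx1
    have hx1' : (1 : ℝ) < x := hx1
    have h4 := hx (by simpa using hx1')
    rw [LI_one K (by simpa using hx1'), heq x (by simpa using hx1')] at h4
    have h5 : (x : ℂ) - 1 ≠ 0 := by
      rw [sub_ne_zero]
      exact_mod_cast hx1'.ne'
    field_simp at h4
    rw [← h4]
  have h4 := tendsto_nhds_unique (h1.congr' h3) h2
  simp only at h4 ⊢
  rw [← h4]
  exact hg1

end Pool.Agent.Helper89.MM
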